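import Pool.Agent.Run7.h929.G3.Defs

/-!
# Statements of the pieces (stage 2)

Every `S_xxx` is a closed proposition. A finished piece is a file
`Pool/Agent/Run7/<you>/<Piece>.lean` with `theorem <name> : S_xxx`.
-/

set_option autoImplicit false

namespace Run7.h929.G3

open Polynomial Run7.h929.G2 Filter Topology

/-! ## Local pieces -/

/-- L1. A good class is not bad.
Proof: let `φ = A u + B (Y' - e p)`, `Y' = Y/z`, `norm φ = u Q`, `Q = A² u - 2 A B e p - B² e w`,
`u Q = (A u - B e p)² - B² e f`. As `n` generates the ideal of `u` (`MI_conj`), `Q = c t` with `c`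
constant, so `|Q(r)|` is the largest absolute value of a coefficient of `Q`. Suppose `u(r)` and
`w(r)` are not units. Then `e p(r)² ≡ 0` as `f(r) ≡ 0`. Scale `φ` such that the largest absolute
value of a coefficient of `A`, `B` is one.
Untwisted: `Q` is integral, `Q(r) ≡ 0`, so `Q ≡ 0`; but then `(A u - B e p)² ≡ B² e f`, and `f` has
odd degree, so `B ≡ 0`, `A u ≡ 0`, `A ≡ 0`.
Twisted: if `A ≢ 0`, then `Q ≡ A² u ≢ 0` and `Q(r) ≡ 0`. If `A ≡ 0`, then `Q / e ≡ - B² w` and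
`f ≡ u w`, so `w ≢ 0`, `Q / e ≢ 0` and `(Q/e)(r) ≡ 0`. -/
def S_bad : Prop :=
  ∀ (K : Type) [Field K] [CharZero K] (v : AbsoluteValue K ℝ) (h : IsNonarchimedean v) (q : ℝ)
    (a : Fin 5 → K) (r z e : K), Ctx v h q a r z e → ∀ u p w : K[X], Tri v a e u p w →
    (∃ i, v (u.coeff i) = 1) → GG v r (TI a z e u p) → v (u.eval r) = 1 ∨ v (w.eval r) = 1

/-- L2. Pairs of degree two with integral coordinates: here `u = qu s t`, `p = lin (z v1) (z v0)`,
`w = qw w2 w1 w0` (second alternative of `Concl`).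
All coefficients are integral (see `local_main` in `G2/Local4.lean`). If the double loses
something: untwisted: as in `case1` of `G2/Local2.lean` / `field_co` of `G2/Null.lean`, over an
algebraic closure of the residue field `u`, `p`, `w` have a common root, which is a multiple
root of `f`, so it is the class of `r`; so `u(r)`, `w(r)` are not units. Twisted: `D0, D1, D2 ≡ 0` and
`D3 ≡ Res(u,w)²`, and `f ≡ u w`. -/
def S_tripA : Prop :=
  ∀ (K : Type) [Field K] [CharZero K] (v : AbsoluteValue K ℝ) (h : IsNonarchimedean v) (q : ℝ)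
    (a : Fin 5 → K) (r z e : K), Ctx v h q a r z e → ∀ s t v1 v0 w2 w1 w0 : K,
    a = co (z ^ 2 * e) s t v1 v0 w2 w1 w0 → v s ≤ 1 → v t ≤ 1 → v (w0 + t * w2) ≤ 1 →
    Concl v q a r z e (qu s t) (C (z ^ 2 * e) * lin v1 v0)

/-- L3. Pairs of degree two with one point at infinity modulo `v`: the Kummer coordinates
`(1, s, t, κ)`, `κ = -(w0 + t w2)`, have `|s| > 1` as the largest absolute value. Second
alternative of `Concl` with `u = (x² - s x + t)/s`, `p = t₁ x³ + e₀`, `t₁ = z v1/(s² - t)`,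
`e₀ = z v0 + s t t₁` (this is congruent to `z (v1 x + v0)` modulo `u`), `w = (f - e p²)/u`.
Integrality: `|e (z v1)²| = |s|³` (see the proof of `local_main`, case 2), so `|e t₁²| = |1/s| < 1`.
If `|e e₀²| > 1`, then `f - e p²` divided by `e e₀²` is `≡ -1`, but it is a multiple of `u`, and
`u ≡ -(x - x₀)`, `x₀ = t/s`; this contradicts Gauss' lemma (`w` is also integral by the lemma of
Gauss). If the double loses something then `f(x₀) ≡ f'(x₀) ≡ 0` (`inf_near` in
`G2/Local3.lean`), so `x₀ ≡ r`, `u(r) ≡ 0`, and `w(r) ≡ 0` as `f ≡ e p² + u w` has a double zero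
at `r`. Twisted: `f ≡ u w`, so `f(x₀) ≡ 0`, and the first three coordinates of the double are
`≡ 4 f(x₀) (1, 2 x₀, x₀²) ≡ 0`. -/
def S_tripB : Prop :=
  ∀ (K : Type) [Field K] [CharZero K] (v : AbsoluteValue K ℝ) (h : IsNonarchimedean v) (q : ℝ)
    (a : Fin 5 → K) (r z e : K), Ctx v h q a r z e → ∀ s t v1 v0 w2 w1 w0 : K,
    a = co (z ^ 2 * e) s t v1 v0 w2 w1 w0 → 1 < v s → v t ≤ v s → v (w0 + t * w2) ≤ v s →
    Concl v q a r z e (qu s t) (C (z ^ 2 * e) * lin v1 v0)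

/-- L4. Pairs of degree two which are zero modulo `v`: `κ = -(w0 + t w2)` is larger than `1` and
`s`. First alternative of `Concl`. `Kgood`: `case3` in `G2/Local3.lean` (the Kummer vector divided by
`κ` is `≡ (0,0,0,1)`). Goodness of the class: let `M` be the maximum of `1, |s|, |t|`; the equation
`kum` (`G2/Basic.lean`) gives `M < |κ|` and `|s² - 4 t| < M²`. So either
`M = |t| > 1, |s|`, then `φ = io (u/t)`, `n = t = u / t` (`u = qu s t`), or `M = 1`, `s`, `t` integral,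
`|w0| = |κ| > 1`, `w2`, `w1` integral, and `φ = Y' - e p`, `p = z (v1 x + v0)`, `norm φ = - u e w`,
`n = - e κ' u`, with `κ' = -w0`, and the last factor is `- w/w0 ≡ -1` up to sign. -/
def S_tripC : Prop :=
  ∀ (K : Type) [Field K] [CharZero K] (v : AbsoluteValue K ℝ) (h : IsNonarchimedean v) (q : ℝ)
    (a : Fin 5 → K) (r z e : K), Ctx v h q a r z e → ∀ s t v1 v0 w2 w1 w0 : K,
    a = co (z ^ 2 * e) s t v1 v0 w2 w1 w0 → 1 < v (w0 + t * w2) → v s < v (w0 + t * w2) →
    Concl v q a r z e (qu s t) (C (z ^ 2 * e) * lin v1 v0)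

/-- L5. Pairs of degree one and zero. Degree zero: the triple `(1, 0, f)`, `Kgood` by `case3`.
Degree one, `|x| ≤ 1`: the triple `(X - x, y z / d, (f - f(x)) / (X - x))`, `d = z² e`, as in L3.
Degree one, `|x| > 1`: first alternative, `φ = io ((X - x)/x)`. -/
def S_tripD : Prop :=
  ∀ (K : Type) [Field K] [CharZero K] (v : AbsoluteValue K ℝ) (h : IsNonarchimedean v) (q : ℝ)
    (a : Fin 5 → K) (r z e : K), Ctx v h q a r z e →
    Concl v q a r z e 1 0 ∧
    ∀ x y : K, y ^ 2 = (z ^ 2 * e) * fv a x → Concl v q a r z e (X - C x) (C y)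

/-! ## Heights of the triple of a point -/

/-- H1. The calculus of heights. -/
def S_calc : Prop :=
  ∀ N : ℕ, ∃ M : ℕ, N ≤ M ∧ ∀ (K : Type) [Field K] [NumberField K] (Z : ℝ),
    Real.log 2 * Module.finrank ℚ K ≤ Z → ∀ p q : K[X], PB Z N p → PB Z N q →
      PB Z M (p + q) ∧ PB Z M (p * q) ∧ PB Z M (-p) ∧ PB Z M (C q.leadingCoeff⁻¹ * p) ∧
      (q.Monic → PB Z M (p /ₘ q) ∧ PB Z M (p %ₘ q)) ∧
      (q.Monic → q.natDegree = 2 → IsCoprime q p → ∃ s, PB Z M s ∧ q ∣ s * p - 1)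

/-- H2. The triple of a generic point and its height. Steps: (1) Hensel: `T = V + u c₁ + u² c₂` with
`u³ ∣ g - T²`, `c₁, c₂` reduced modulo `u` (use the inverse of `2 V` modulo `u`); (2)
`MI g u V ^ 3 = MI g (u³) T`; (3) reduction: if `g = T² + u₀ w₀` then
`(w₀) MI g u₀ T = (Y - T) MI g w₀ (-T)`; apply it to `u³` (then `deg w₀ ≤ 4`), make `w₀` monic,
replace `-T` by its remainder modulo `w₀`, and apply it once more if `deg w₀ > 2`; (4) the heights of
all coefficients by `S_calc`, with `Z = h(kc) + C`; for the heights of the coefficients of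
`V = V₁ x + V₀` use `V₁² = d (κ + gg a s q)` and `V₀² = d (a₀ - q w₀)`, `w₂ = a₄ + s`,
`w₀ = -κ - q w₂`. `N` does not depend on anything; `C` may depend on `K`, `a`, `d`. -/
def S_triple : Prop :=
  ∃ N : ℕ, ∀ (K : Type) [Field K] [NumberField K] (a : Fin 5 → K) (d : K), d ≠ 0 → dis a ≠ 0 →
    ∃ C : ℝ, ∀ u V : K[X], Mum (rhs a d) u V → u.natDegree = 2 → IsCoprime u V →
      ∃ u' V' : K[X], Mum (rhs a d) u' V' ∧
        Same (MI (rhs a d) u' V') (MI (rhs a d) u V ^ 3) ∧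
        Height.logHeight (kc a d u' V') ≤ N * Height.logHeight (kc a d u V) + C

/-! ## Counting -/

/-- N1. The discriminant as a polynomial in the constant coefficient: degree four with leading
coefficient `5⁵`. (For example from `resultant (quin a) (derivative (quin a))` and
`Polynomial.resultant_eq_prod_eval` over an algebraic closure; or: `DP` has degree at most four
because it is a resultant whose first argument enters with degree four.) -/
def S_D1 : Prop :=
  ∀ a : Fin 5 → ℤ, (DP a).natDegree = 4 ∧ (DP a).leadingCoeff = 3125 ∧ (DP a).eval (a 0) = dis a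

/-- N2. The elimination of the constant coefficient: the resultant of `DP a` and its derivative.
It is isobaric of weight 60 (`a 1` has weight four), for `a = (0, 0, 0, a₁, a₀)` it is a constant
multiple of `a₁¹⁵`, the constant is not zero. The bound is the trivial bound for an isobaric
polynomial on the box. -/
def S_D2 : Prop :=
  ∃ (c : ℤ) (A : ℝ), c ≠ 0 ∧ 1 ≤ A ∧ ∀ a : Fin 5 → ℤ, ∃ E : ℤ[X], E.natDegree = 15 ∧
    E.leadingCoeff = c ∧ (∀ b : Fin 5 → ℤ, b 2 = a 2 → b 3 = a 3 → b 4 = a 4 →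
      (∀ m : ℤ, m ∣ dis b → m ∣ dis0 b → m ∣ E.eval (b 1)) ∧
      ∀ B : ℕ, 1 ≤ B → b ∈ Box B → |((E.eval (b 1) : ℤ) : ℝ)| ≤ A * B ^ 60)

/-- N3. The size of the discriminant. -/
def S_D3 : Prop :=
  ∃ A : ℝ, 1 ≤ A ∧ ∀ (B : ℕ) (a : Fin 5 → ℤ), 1 ≤ B → a ∈ Box B → |((dis a : ℤ) : ℝ)| ≤ A * B ^ 20

/-- N4. The count (assembly of the pieces below). -/
def S_count : Prop :=
  ∀ ε : ℝ, 0 < ε → Tendsto (fun B : ℕ =>
    ({a ∈ (Box B : Set (Fin 5 → ℤ)) | ¬ NiceQ ε B a}.ncard : ℝ) / (Box B).card) atTop (𝓝 0)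

/-- N4a. The archimedean part. For fixed `a₁, …, a₄` the discriminant is a polynomial `D(a₀)` of degree
four with leading coefficient `5⁵`. Lagrange: if `t₀, …, t₄` are distinct integers, then
`5⁵ = ∑ᵢ D(tᵢ) / ∏_{j ≠ i} (tᵢ - tⱼ)`. So the `a₀` with `|D(a₀)| < η⁴ B²⁰` lie in four intervals of
length `2 η B⁵`, hence there are at most `4 (2 η B⁵ + 1)` of them. -/
def S_cA : Prop := S_D1 → ∀ ε : ℝ, 0 < ε → Tendsto (fun B : ℕ =>
    ({a ∈ (Box B : Set (Fin 5 → ℤ)) | |((dis a : ℤ) : ℝ)| < (B : ℝ) ^ (20 - ε)}.ncard : ℝ) /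
      (Box B).card) atTop (𝓝 0)

/-- N4b. The small primes. By the same formula of Lagrange (multiplied by the product of all
`tᵢ - tⱼ`) the `a₀` with `p^(10 j + 6) ∣ D(a₀)` lie in four classes modulo `p^j`, so there are at most
`4 (2 B⁵ / p^j + 1)` of them. -/
def S_cB : Prop := S_D1 → ∀ (M : ℕ) (η : ℝ), 0 < η → ∃ j : ℕ, ∀ᶠ B : ℕ in atTop,
    ({a ∈ (Box B : Set (Fin 5 → ℤ)) | ∃ p ≤ M, p.Prime ∧ (p : ℤ) ^ j ∣ dis a}.ncard : ℝ) ≤
      η * (Box B).card

/-- N4c. The large primes at which the reduction is not nodal. If `p ∣ dis a` and `p ∣ dis0 a` then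
`p ∣ E(a₁)`, with `E` of `S_D2`. For `M < p ≤ B⁵`, `p` not dividing `c`, `5`: at most `15 (2 B⁴/p + 1)`
values `a₁`, for each at most `4 (2 B⁵/p + 1)` values `a₀`; sum over all integers `p > M`. For `p > B⁵`
and `E(a₁) ≠ 0` there are at most 13 such primes (`B` large, as `|E(a₁)| ≤ A B⁶⁰`), for each at most
`4 (2 B⁵/p + 1) ≤ 12` values `a₀`. And `E(a₁) = 0` for at most 15 values `a₁`. -/
def S_cC : Prop := S_D1 → S_D2 → ∀ η : ℝ, 0 < η → ∃ M : ℕ, ∀ᶠ B : ℕ in atTop,
    ({a ∈ (Box B : Set (Fin 5 → ℤ)) | ∃ p > M, p.Prime ∧ (p : ℤ) ∣ dis a ∧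
      (p : ℤ) ∣ dis0 a}.ncard : ℝ) ≤ η * (Box B).card

/-- N4d. The large primes with `p⁴ ∣ D ≠ 0`, `p ∤ dis0`: then `p⁴ ≤ A B²⁰`, so `p ≤ A B⁵`, and every
root of `D` modulo `p` which is simple lifts to at most one class modulo `p⁴`, so at most
`4 (2 B⁵/p⁴ + 1)` values `a₀`; the sum over `p` is `O(B⁵/M³) + O(π(A B⁵)) = O(B⁵/M³) + o(B⁵)`, from
Chebyshev's upper bound (for example `primorial_le_4_pow`). -/
def S_cD : Prop := S_D1 → S_D3 → ∀ η : ℝ, 0 < η → ∃ M : ℕ, ∀ᶠ B : ℕ in atTop,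
    ({a ∈ (Box B : Set (Fin 5 → ℤ)) | dis a ≠ 0 ∧ ∃ p > M, p.Prime ∧ ¬ (p : ℤ) ∣ dis0 a ∧
      (p : ℤ) ^ 4 ∣ dis a}.ncard : ℝ) ≤ η * (Box B).card

/-- N4e. The assembly: off small sets every bad prime is at most `M` and divides `D` at most to the
power `j`, so `badLog` is at most a constant. -/
def S_cE : Prop := S_D1 → S_D2 → S_D3 → S_cA → S_cB → S_cC → S_cD → S_count

/-- N5. The reduction at a prime with `D ≡ 0`, `dis0 ≢ 0`: exactly one node. Over an algebraic
closure `f = (x - r)² g` and the identity `dis0 = -4 g(r)³ disc(g)` (up to sign), and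
`∂D/∂a₁ = r ∂D/∂a₀`, so `r` lies in `F`. Other proof that `r ∈ F`: `gcd(f, f')` has the only root
`r`, with multiplicity one as `f'' (r) = 2 g(r) ≠ 0`, so it is linear. -/
def S_node : Prop :=
  ∀ (F : Type) [Field F] (a : Fin 5 → F), (2 : F) ≠ 0 → dis a = 0 → dis0 a ≠ 0 →
    ∃ (r : F) (g : F[X]), g.Monic ∧ g.natDegree = 3 ∧ quin a = (X - C r) ^ 2 * g ∧
      g.eval r ≠ 0 ∧ g.Separable

end Run7.h929.G3
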