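import Pool.Agent.Run7.h929.G3.Resid
import Pool.Agent.Run7.h929.G3.Iface

/-!
# A good class is not bad
-/

set_option autoImplicit false

namespace Run7.h929.G3

open Polynomial Run7.h929.G2

section
variable {K : Type} [Field K] {v : AbsoluteValue K ℝ} {h : IsNonarchimedean v} {a : Fin 5 → K}
  {r z e : K} {u p w : K[X]} {q : ℝ}

theorem exists_coord (hz : z ≠ 0) (T : Tri v a e u p w) {φ : QB (gz a z e)}
    (hφ : φ ∈ TI a z e u p) : ∃ A B : K[X],
      φ = io (gz a z e) A * io (gz a z e) u + io (gz a z e) B * bb a z e p := by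
  obtain ⟨α, β, hαβ⟩ := Ideal.mem_span_pair.1 hφ
  have hy : yy (gz a z e) = io (gz a z e) (C z) *
      (bb a z e p + io (gz a z e) (C e) * io (gz a z e) p) := by
    rw [bb, yz, map_mul]
    have : io (gz a z e) (C z) * io (gz a z e) (C z⁻¹) = 1 := by
      rw [← map_mul, ← C_mul, mul_inv_cancel₀ hz, C_1, map_one]
    linear_combination -(yy (gz a z e)) * this
  have hsp : ∀ x : QB (gz a z e), x = io (gz a z e) x.re + io (gz a z e) x.im * yy (gz a z e) := by
    intro x
    apply QuadraticAlgebra.ext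
    · simp [io, yy]
    · simp [io, yy]
  have hb := bb_sq hz T
  have hV : io (gz a z e) (C (z * e) * p) = io (gz a z e) (C z) * io (gz a z e) (C e) *
      io (gz a z e) p := by
    rw [map_mul, C_mul, map_mul]
  rw [hsp α, hsp β, hV] at hαβ
  refine ⟨α.re + α.im * C z * C e * p + β.im * C z ^ 2 * C e * w,
    α.im * C z * u + β.re * C z - β.im * C z ^ 2 * C e * p, ?_⟩
  simp only [map_add, map_sub, map_mul, map_pow]
  rw [← hαβ, hy]
  linear_combination (io (gz a z e) β.im * io (gz a z e) (C z) ^ 2) * hb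

theorem exists_max {P : K[X]} (hP : P ≠ 0) (v : AbsoluteValue K ℝ) :
    ∃ i, P.coeff i ≠ 0 ∧ ∀ j, v (P.coeff j) ≤ v (P.coeff i) := by
  obtain ⟨i, hi, hmax⟩ := P.support.exists_max_image (fun i => v (P.coeff i))
    (nonempty_support_iff.2 hP)
  refine ⟨i, mem_support_iff.1 hi, fun j => ?_⟩
  by_cases hj : P.coeff j = 0
  · rw [hj, map_zero]
    exact v.nonneg _
  · exact hmax j (mem_support_iff.2 hj)

theorem exists_scale {A B : K[X]} (hAB : A ≠ 0 ∨ B ≠ 0) (v : AbsoluteValue K ℝ) :
    ∃ l : K, l ≠ 0 ∧ Intg v (C l * A) ∧ Intg v (C l * B) ∧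
      ((∃ i, v ((C l * A).coeff i) = 1) ∨ ∃ i, v ((C l * B).coeff i) = 1) := by
  have main : ∀ P Q : K[X], ∀ i, P.coeff i ≠ 0 → (∀ j, v (P.coeff j) ≤ v (P.coeff i)) →
      (∀ j, v (Q.coeff j) ≤ v (P.coeff i)) → ∃ l : K, l ≠ 0 ∧ Intg v (C l * P) ∧
        Intg v (C l * Q) ∧ ∃ i, v ((C l * P).coeff i) = 1 := by
    intro P Q i h0 h1 h2
    have h3 : 0 < v (P.coeff i) := v.pos h0
    refine ⟨(P.coeff i)⁻¹, inv_ne_zero h0, ?_, ?_, i, ?_⟩
    · intro j
      rw [coeff_C_mul, map_mul, map_inv₀, inv_mul_le_iff₀ h3, mul_one]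
      exact h1 j
    · intro j
      rw [coeff_C_mul, map_mul, map_inv₀, inv_mul_le_iff₀ h3, mul_one]
      exact h2 j
    · rw [coeff_C_mul, map_mul, map_inv₀, inv_mul_cancel₀ h3.ne']
  by_cases hA : A = 0
  · have hB : B ≠ 0 := hAB.resolve_left (by push Not; exact hA)
    obtain ⟨i, hi, hmax⟩ := exists_max hB v
    obtain ⟨l, l0, l1, l2, l3⟩ := main B A i hi hmax (fun j => by
      rw [hA, coeff_zero, map_zero]; exact v.nonneg _)
    exact ⟨l, l0, l2, l1, Or.inr l3⟩
  · obtain ⟨i, hi, hmax⟩ := exists_max hA v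
    by_cases hB : B = 0
    · obtain ⟨l, l0, l1, l2, l3⟩ := main A B i hi hmax (fun j => by
        rw [hB, coeff_zero, map_zero]; exact v.nonneg _)
      exact ⟨l, l0, l1, l2, Or.inl l3⟩
    · obtain ⟨i', hi', hmax'⟩ := exists_max hB v
      rcases le_total (v (B.coeff i')) (v (A.coeff i)) with h1 | h1
      · obtain ⟨l, l0, l1, l2, l3⟩ := main A B i hi hmax (fun j => (hmax' j).trans h1)
        exact ⟨l, l0, l1, l2, Or.inl l3⟩
      · obtain ⟨l, l0, l1, l2, l3⟩ := main B A i' hi' hmax' (fun j => (hmax j).trans h1)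
        exact ⟨l, l0, l2, l1, Or.inr l3⟩

theorem max_at {P t : K[X]} {c : K} (ht : Intg v t) (htr : v (t.eval r) = 1) (hP : P = C c * t) :
    (∀ i, v (P.coeff i) ≤ v (P.eval r)) := by
  intro i
  rw [hP, coeff_C_mul, eval_mul, eval_C, map_mul, map_mul, htr, mul_one]
  exact mul_le_of_le_one_right (v.nonneg _) (ht i)

theorem bad : S_bad := by
  intro K _ _ v h q a r z e hc u p w T hu hG
  have hN := hc.node
  have hq := hc.disc
  have hq0 : 0 < q⁻¹ := inv_pos.2 (by linarith [hq.one_lt])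
  have hq1 : q⁻¹ < 1 := inv_lt_one_of_one_lt₀ hq.one_lt
  have he0 : e ≠ 0 := e_ne hq.one_lt hc.tw
  have he1 : v e ≤ 1 := by
    rcases hc.tw with h1 | h1
    · exact h1.le
    · rw [h1]
      exact hq1.le
  have hr := hN.r_int
  have hz := hc.z_ne
  have hodd : Odd (quin a).natDegree := by
    rw [natDegree_quin]
    decide
  have hodd' : Odd (gz a z e).natDegree := by
    rw [gz, natDegree_rhs (mul_ne_zero (pow_ne_zero _ hz) he0)]
    decide
  have hu0 := T.u_ne hodd
  by_contra hbad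
  push Not at hbad
  have b1 : v (u.eval r) < 1 := lt_of_le_of_ne (T.u_int.eval h hr) hbad.1
  have b2 : v (w.eval r) < 1 := lt_of_le_of_ne (T.w_int.eval h hr) hbad.2
  obtain ⟨n, t, x, hn, e1, hx, e2, ht, htr⟩ := hG
  -- the generator of the norm
  have e3 : Ideal.span {io (gz a z e) n} = Ideal.span {io (gz a z e) u} := by
    rw [← e1, TI_norm hz he0 hc.dis_ne T]
  have d2 : u ∣ n := by
    rw [← io_dvd_io (g := gz a z e), ← Ideal.span_singleton_le_span_singleton, e3]
  have d1 : n ∣ u := by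
    rw [← io_dvd_io (g := gz a z e), ← Ideal.span_singleton_le_span_singleton, e3]
  obtain ⟨m, hm⟩ := associated_of_dvd_dvd d2 d1
  obtain ⟨c, hc0, hcm⟩ := Polynomial.isUnit_iff.1 m.isUnit
  have hnc : n = C c * u := by
    rw [← hm, ← hcm, mul_comm]
  obtain ⟨A, B, hAB⟩ := exists_coord hz T hx
  have hQ : A ^ 2 * u - 2 * A * B * C e * p - B ^ 2 * C e * w = C c * t := by
    apply mul_left_cancel₀ hu0
    rw [← norm_el hz T, ← hAB, e2, hnc]
    ring
  have ht0 : t ≠ 0 := by
    rintro rfl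
    rw [eval_zero, map_zero] at htr
    norm_num at htr
  have hAB0 : A ≠ 0 ∨ B ≠ 0 := by
    by_contra hne
    push Not at hne
    rw [hne.1, hne.2] at hQ
    have h3 : C c * t = 0 := by
      rw [← hQ]
      ring
    exact mul_ne_zero (C_ne_zero.2 hc0.ne_zero) ht0 h3
  obtain ⟨l, l0, iA, iB, hprim⟩ := exists_scale hAB0 v
  -- lifts to the ring of integers
  obtain ⟨A', hA'⟩ := iA.lift h
  obtain ⟨B', hB'⟩ := iB.lift h
  obtain ⟨u', hu'⟩ := T.u_int.lift h
  obtain ⟨p', hp'⟩ := T.p_int.lift h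
  obtain ⟨w', hw'⟩ := T.w_int.lift h
  let e' : OO v h := ⟨e, he1⟩
  let r' : OO v h := ⟨r, hr⟩
  let a' : Fin 5 → OO v h := fun i => ⟨a i, hN.int i⟩
  have he' : (C e' : (OO v h)[X]).map (OO v h).subtype = C e := by simp [e']
  have hf' : quin a' = C e' * p' ^ 2 + u' * w' := by
    apply map_sub_inj
    rw [map_quin]
    simp only [Polynomial.map_add, Polynomial.map_mul, Polynomial.map_pow, hu', hp', hw', he']
    exact T.eq
  let Q' : (OO v h)[X] := A' ^ 2 * u' - 2 * A' * B' * C e' * p' - B' ^ 2 * C e' * w'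
  have hQ' : Q'.map (OO v h).subtype = C (l ^ 2 * c) * t := by
    simp only [Q', Polynomial.map_sub, Polynomial.map_mul, Polynomial.map_pow,
      Polynomial.map_ofNat, hu', hp', hw', he', hA', hB']
    rw [C_mul, C_pow]
    linear_combination (C l ^ 2) * hQ
  obtain ⟨F, _, _, φ, hφ⟩ := exists_res v h
  have hur : φ (u'.eval r') = 0 := by
    rw [hφ, ww, ← eval_sub, hu']
    exact b1
  have hwr : φ (w'.eval r') = 0 := by
    rw [hφ, ww, ← eval_sub, hw']
    exact b2
  have hepr : φ e' * φ (p'.eval r') = 0 := by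
    have h3 : φ (fv a' r') = 0 := by
      rw [hφ]
      exact hN.f_lt
    have h4 : fv a' r' = e' * p'.eval r' ^ 2 + u'.eval r' * w'.eval r' := by
      rw [← eval_quin, hf']
      simp
    rw [h4, map_add, map_mul, map_mul, map_pow, hur, zero_mul, add_zero] at h3
    rcases mul_eq_zero.1 h3 with h5 | h5
    · rw [h5, zero_mul]
    · rw [pow_eq_zero_iff (two_ne_zero)] at h5
      rw [h5, mul_zero]
  have hu1 : u'.map φ ≠ 0 := by
    intro h3
    rw [map_eq_zero_iff hφ] at h3
    obtain ⟨i, hi⟩ := hu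
    have h4 := h3 i
    rw [ww] at h4
    have h5 : ((u'.coeff i : OO v h) : K) = u.coeff i := by
      rw [← hu', coeff_map]
      rfl
    rw [h5, hi] at h4
    exact lt_irrefl _ h4
  have hprim' : A'.map φ ≠ 0 ∨ B'.map φ ≠ 0 := by
    rcases hprim with ⟨i, hi⟩ | ⟨i, hi⟩
    · left
      intro h3
      rw [map_eq_zero_iff hφ] at h3
      have h4 := h3 i
      rw [ww] at h4
      have h5 : ((A'.coeff i : OO v h) : K) = (C l * A).coeff i := by
        rw [← hA', coeff_map]
        rfl
      rw [h5, hi] at h4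
      exact lt_irrefl _ h4
    · right
      intro h3
      rw [map_eq_zero_iff hφ] at h3
      have h4 := h3 i
      rw [ww] at h4
      have h5 : ((B'.coeff i : OO v h) : K) = (C l * B).coeff i := by
        rw [← hB', coeff_map]
        rfl
      rw [h5, hi] at h4
      exact lt_irrefl _ h4
  -- a general principle
  have prin : ∀ (P : (OO v h)[X]) (c' : K), P.map (OO v h).subtype = C c' * t →
      φ (P.eval r') = 0 → P.map φ = 0 := by
    intro P c' hP hPr
    rw [map_eq_zero_iff hφ]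
    intro i
    rw [hφ] at hPr
    refine lt_of_le_of_lt ?_ hPr
    have h3 := max_at ht htr hP i
    rw [coeff_map] at h3
    rw [ww, ww, ← eval_sub]
    exact h3
  have hQr : φ (Q'.eval r') = 0 := by
    simp only [Q', eval_sub, eval_mul, eval_pow, eval_C, eval_ofNat, map_sub, map_mul, map_pow,
      map_ofNat]
    have h3 : eval r' (A' ^ 2 * u' - 2 * A' * B' * C e' * p' - B' ^ 2 * C e' * w') =
        A'.eval r' ^ 2 * u'.eval r' - 2 * A'.eval r' * B'.eval r' * (e' * p'.eval r') -
          B'.eval r' ^ 2 * e' * w'.eval r' := by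
      simp only [Polynomial.eval_sub, eval_mul, eval_pow, eval_C, eval_ofNat]
      ring
    rw [h3]
    simp only [map_sub, map_mul, map_pow, hur, hwr, mul_zero, sub_zero]
    rw [hepr]
    ring
  have hQ0 := prin Q' _ hQ' hQr
  have hQm : (A'.map φ) ^ 2 * u'.map φ - 2 * A'.map φ * B'.map φ * C (φ e') * p'.map φ -
      (B'.map φ) ^ 2 * C (φ e') * w'.map φ = 0 := by
    rw [← hQ0]
    simp only [Q', Polynomial.map_sub, Polynomial.map_mul, Polynomial.map_pow,
      Polynomial.map_ofNat, map_C]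
  have hfm : quin (fun i => φ (a' i)) = C (φ e') * (p'.map φ) ^ 2 + u'.map φ * w'.map φ := by
    rw [← map_quin, hf']
    simp only [Polynomial.map_add, Polynomial.map_mul, Polynomial.map_pow, map_C]
  rcases hc.tw with he | he
  · -- untwisted
    have hφe : φ e' ≠ 0 := by
      intro h3
      rw [hφ] at h3
      change v e < 1 at h3
      rw [he] at h3
      exact lt_irrefl _ h3
    let g : F[X] := C (φ e') * quin (fun i => φ (a' i))
    have hg : Odd g.natDegree := by
      rw [natDegree_C_mul hφe, natDegree_quin]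
      decide
    let y : QB g := ⟨A'.map φ * u'.map φ - B'.map φ * (C (φ e') * p'.map φ), B'.map φ⟩
    have hy : y.norm = 0 := by
      rw [QuadraticAlgebra.norm_def]
      simp only [y, g]
      rw [hfm]
      linear_combination (u'.map φ) * hQm
    have hy0 : y = 0 := by
      by_contra hne
      exact norm_ne_zero hg y hne hy
    have h3 : B'.map φ = 0 := congrArg QuadraticAlgebra.im hy0
    have h4 : A'.map φ * u'.map φ - B'.map φ * (C (φ e') * p'.map φ) = 0 :=
      congrArg QuadraticAlgebra.re hy0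
    rw [h3, zero_mul, sub_zero] at h4
    rcases hprim' with h5 | h5
    · exact mul_ne_zero h5 hu1 h4
    · exact h5 h3
  · -- twisted
    have hφe : φ e' = 0 := by
      rw [hφ]
      change v e < 1
      rw [he]
      exact hq1
    rw [hφe] at hQm hfm
    simp only [map_zero, mul_zero, zero_mul, sub_zero, zero_add] at hQm hfm
    have hA0 : A'.map φ = 0 := by
      rcases mul_eq_zero.1 hQm with h3 | h3
      · exact pow_eq_zero_iff (two_ne_zero) |>.1 h3
      · exact absurd h3 hu1
    have hB0 : B'.map φ ≠ 0 := hprim'.resolve_left (by push Not; exact hA0)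
    -- the polynomial `A / e`
    rw [map_eq_zero_iff hφ] at hA0
    have hA1 : Intg v (C e⁻¹ * (C l * A)) := by
      intro i
      rw [coeff_C_mul, map_mul, map_inv₀, he]
      have h3 := hq.ww_lt (hA0 i)
      have h5 : ww (A'.coeff i) = v ((C l * A).coeff i) := by
        rw [ww, ← hA', coeff_map]
        rfl
      rw [h5] at h3
      calc q⁻¹⁻¹ * v ((C l * A).coeff i) ≤ q⁻¹⁻¹ * q⁻¹ :=
            mul_le_mul_of_nonneg_left h3 (inv_nonneg.2 hq0.le)
        _ = 1 := inv_mul_cancel₀ hq0.ne'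
    obtain ⟨A2, hA2⟩ := hA1.lift h
    have hA3 : (C e * (C e⁻¹ * (C l * A)) : K[X]) = C l * A := by
      rw [← mul_assoc, ← C_mul, mul_inv_cancel₀ he0, C_1, one_mul]
    let R' : (OO v h)[X] := C e' * A2 ^ 2 * u' - 2 * C e' * A2 * B' * p' - B' ^ 2 * w'
    have hR' : R'.map (OO v h).subtype = C (l ^ 2 * c / e) * t := by
      simp only [R', Polynomial.map_sub, Polynomial.map_mul, Polynomial.map_pow,
        Polynomial.map_ofNat, hu', hp', hw', he', hA2, hB']
      have h3 : C (l ^ 2 * c / e) = C e⁻¹ * (C l ^ 2 * C c) := by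
        rw [← C_pow, ← C_mul, ← C_mul]
        congr 1
        field_simp
      have h4 : (C e⁻¹ * C e : K[X]) = 1 := by
        rw [← C_mul, inv_mul_cancel₀ he0, C_1]
      rw [h3]
      linear_combination (C e⁻¹ * C l ^ 2) * hQ +
        (C e⁻¹ * (C l * A) ^ 2 * u - 2 * (C l * A) * (C l * B) * C e⁻¹ * C e * p * 0 -
          2 * C l * A * C l * B * p * 0 + 0) * 0 +
        ((C e⁻¹ * (C l * A) ^ 2 * u) - 2 * (C l * A) * (C l * B) * p * 0) * h4 * 1 +
        0 * h4 + (- 2 * (C l * A) * (C l * B) * p + (C l * B) ^ 2 * w * (-1) + 0) * 0 +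
        (-(C l * B) ^ 2 * w * (-1)) * h4 + (2 * (C l * A) * (C l * B) * p) * (h4 * 0)
    have hRr : φ (R'.eval r') = 0 := by
      have h3 : R'.eval r' = e' * (A2.eval r' ^ 2 * u'.eval r' -
          2 * A2.eval r' * B'.eval r' * p'.eval r') - B'.eval r' ^ 2 * w'.eval r' := by
        simp only [R', Polynomial.eval_sub, eval_mul, eval_pow, eval_C, eval_ofNat]
        ring
      rw [h3]
      simp only [map_sub, map_mul, map_pow, hφe, hwr, mul_zero, zero_mul, sub_zero]
    have hR0 := prin R' _ hR' hRr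
    have hRm : -((B'.map φ) ^ 2 * w'.map φ) = 0 := by
      rw [← hR0]
      simp only [R', Polynomial.map_sub, Polynomial.map_mul, Polynomial.map_pow,
        Polynomial.map_ofNat, map_C, hφe, map_zero]
      ring
    rw [neg_eq_zero] at hRm
    rcases mul_eq_zero.1 hRm with h3 | h3
    · exact hB0 (pow_eq_zero_iff (two_ne_zero) |>.1 h3)
    · rw [h3, mul_zero] at hfm
      have h4 := monic_quin (fun i => φ (a' i))
      rw [hfm] at h4
      exact h4.ne_zero rfl

end

end Run7.h929.G3
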