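import Pool.Agent.Run7.h929.G3.Defs

/-!
# The good classes form a monoid
-/

set_option autoImplicit false

namespace Run7.h929.G3

open Polynomial Run7.h929.G2

section
variable {K : Type} [Field K] {v : AbsoluteValue K ℝ}

theorem Intg.mul (h : IsNonarchimedean v) {p s : K[X]} (hp : Intg v p) (hs : Intg v s) :
    Intg v (p * s) := by
  intro i
  rw [coeff_mul]
  have : ∑ x ∈ Finset.HasAntidiagonal.antidiagonal i, p.coeff x.1 * s.coeff x.2 ∈ OO v h :=
    Subring.sum_mem _ fun x _ => Subring.mul_mem _ (hp _) (hs _)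
  exact this

theorem Intg.add (h : IsNonarchimedean v) {p s : K[X]} (hp : Intg v p) (hs : Intg v s) :
    Intg v (p + s) := by
  intro i
  rw [coeff_add]
  have : p.coeff i + s.coeff i ∈ OO v h := Subring.add_mem _ (hp _) (hs _)
  exact this

theorem Intg.neg {p : K[X]} (hp : Intg v p) : Intg v (-p) := by
  intro i
  rw [coeff_neg, v.map_neg]
  exact hp i

theorem Intg.sub (h : IsNonarchimedean v) {p s : K[X]} (hp : Intg v p) (hs : Intg v s) :
    Intg v (p - s) := by
  rw [sub_eq_add_neg]
  exact hp.add h hs.neg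

theorem Intg.cst {c : K} (hc : v c ≤ 1) : Intg v (C c) := by
  intro i
  rw [coeff_C]
  split_ifs
  · exact hc
  · rw [map_zero]
    exact zero_le_one

theorem Intg.xx : Intg v (X : K[X]) := by
  intro i
  rw [coeff_X]
  split_ifs
  · rw [map_one]
  · rw [map_zero]
    exact zero_le_one

theorem Intg.pow (h : IsNonarchimedean v) {p : K[X]} (hp : Intg v p) (n : ℕ) :
    Intg v (p ^ n) := by
  induction n with
  | zero =>
    rw [pow_zero]
    exact Intg.cst (c := 1) (by rw [map_one])
  | succ n ih =>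
    rw [pow_succ]
    exact ih.mul h hp

theorem Intg.eval (h : IsNonarchimedean v) {p : K[X]} (hp : Intg v p) {x : K} (hx : v x ≤ 1) :
    v (p.eval x) ≤ 1 := by
  rw [eval_eq_sum_range]
  have : ∑ i ∈ Finset.range (p.natDegree + 1), p.coeff i * x ^ i ∈ OO v h :=
    Subring.sum_mem _ fun i _ => Subring.mul_mem _ (hp _) (Subring.pow_mem _ hx i)
  exact this

variable {g : K[X]} {r : K} {I J : Ideal (QB g)}

theorem GG.top (hv : v 1 = 1) : GG v r (⊤ : Ideal (QB g)) := by
  refine ⟨1, 1, 1, one_ne_zero, ?_, trivial, by simp, ?_, by simp⟩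
  · rw [Ideal.map_top, Ideal.top_mul, map_one, Ideal.span_singleton_one]
  · exact Intg.cst (c := 1) (by rw [hv])

theorem GG.mul (h : IsNonarchimedean v) (hI : GG v r I) (hJ : GG v r J) : GG v r (I * J) := by
  obtain ⟨n, t, φ, hn, e1, hφ, e2, ht, htr⟩ := hI
  obtain ⟨m, s, ψ, hm, f1, hψ, f2, hs, hsr⟩ := hJ
  refine ⟨n * m, t * s, φ * ψ, mul_ne_zero hn hm, ?_, Ideal.mul_mem_mul hφ hψ, ?_,
    ht.mul h hs, ?_⟩
  · rw [Ideal.map_mul, mul_mul_mul_comm, e1, f1, Ideal.span_singleton_mul_span_singleton, map_mul]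
  · rw [map_mul, e2, f2]
    ring
  · rw [eval_mul, map_mul, htr, hsr, one_mul]

theorem GG.pow (h : IsNonarchimedean v) (hI : GG v r I) (n : ℕ) : GG v r (I ^ n) := by
  induction n with
  | zero =>
    rw [pow_zero, Ideal.one_eq_top]
    exact GG.top (map_one v)
  | succ n ih =>
    rw [pow_succ]
    exact ih.mul h hI

theorem star_ne {x : QB g} (hx : x ≠ 0) : cj g x ≠ 0 := by
  intro h
  apply hx
  have : star x = 0 := h
  rwa [star_eq_zero] at this

theorem GG.same (hg : Odd g.natDegree) (hI : GG v r I) (hs : Same I J) : GG v r J := by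
  have := dom hg
  obtain ⟨n, t, φ, hn, e1, hφ, e2, ht, htr⟩ := hI
  obtain ⟨x, y, hx, hy, hxy⟩ := hs
  have hxy' := congrArg (Ideal.map (cj g)) hxy
  rw [Ideal.map_mul, Ideal.map_mul, Ideal.map_span, Ideal.map_span, Set.image_singleton,
    Set.image_singleton] at hxy'
  have hnx := norm_ne_zero hg x hx
  have hny := norm_ne_zero hg y hy
  have sx : io g x.norm = x * cj g x := norm_eq_mul_star x
  have sy : io g y.norm = y * cj g y := norm_eq_mul_star y
  have e3 : Ideal.span {io g y.norm} * (J * J.map (cj g)) = Ideal.span {io g (x.norm * n)} := by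
    rw [map_mul, ← Ideal.span_singleton_mul_span_singleton, ← e1, sx, sy,
      ← Ideal.span_singleton_mul_span_singleton, ← Ideal.span_singleton_mul_span_singleton]
    calc Ideal.span {y} * Ideal.span {cj g y} * (J * J.map (cj g)) =
          (Ideal.span {y} * J) * (Ideal.span {cj g y} * J.map (cj g)) := by ring
      _ = (Ideal.span {x} * I) * (Ideal.span {cj g x} * I.map (cj g)) := by rw [hxy, hxy']
      _ = _ := by ring
  have e4 : y.norm ∣ x.norm * n := by
    rw [← io_dvd_io (g := g), ← Ideal.mem_span_singleton]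
    have : io g (x.norm * n) ∈ Ideal.span {io g y.norm} * (J * J.map (cj g)) := by
      rw [e3]
      exact Ideal.mem_span_singleton_self _
    exact (Ideal.mul_le_left : Ideal.span {io g y.norm} * (J * J.map (cj g)) ≤
      Ideal.span {io g y.norm}) this
  obtain ⟨m, hm⟩ := e4
  have hm0 : m ≠ 0 := by
    rintro rfl
    rw [mul_zero] at hm
    exact mul_ne_zero hnx hn hm
  have hyi : io g y.norm ≠ 0 := by
    intro h0
    apply hny
    apply io_inj (g := g)
    rw [h0, map_zero]
  have e5 : J * J.map (cj g) = Ideal.span {io g m} := by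
    rw [← Ideal.span_singleton_mul_right_inj hyi, e3, hm, map_mul,
      Ideal.span_singleton_mul_span_singleton]
  have e6 : x * φ ∈ Ideal.span {y} * J := by
    rw [← hxy]
    exact Ideal.mul_mem_mul (Ideal.mem_span_singleton_self _) hφ
  rw [Ideal.mem_span_singleton_mul] at e6
  obtain ⟨ψ, hψ, hψ2⟩ := e6
  refine ⟨m, t, ψ, hm0, e5, hψ, ?_, ht, htr⟩
  have e7 : y.norm * ψ.norm = x.norm * φ.norm := by
    rw [← map_mul, ← map_mul, hψ2]
  apply mul_left_cancel₀ hny
  rw [e7, e2, ← mul_assoc, hm]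
  ring

end

end Run7.h929.G3
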