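import Pool.Agent.Run7.h929.G3.Sq

/-!
# The cube of a class
-/

set_option autoImplicit false

namespace Run7.h929.G3

open Polynomial Run7.h929.G2

section ident
variable {R : Type*} [CommRing R]

/-- a part of the norm -/
def cQ (x U1 P1 W2 c om rho E : R) : R :=
  -(x * U1 ^ 4 * W2 * rho ^ 2 * E) + 2 * x * U1 ^ 3 * W2 * om * rho * E -
    2 * x * U1 ^ 2 * W2 ^ 2 * rho * E - x * U1 ^ 2 * W2 * om ^ 2 * E +
    2 * x * U1 * W2 ^ 2 * om * E - x * W2 ^ 3 * E - U1 ^ 4 * c * om * rho ^ 2 * E +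
    2 * U1 ^ 3 * c * om ^ 2 * rho * E + 4 * U1 ^ 2 * P1 ^ 2 * om * rho * E ^ 2 -
    2 * U1 ^ 2 * W2 * c * om * rho * E - U1 ^ 2 * c * om ^ 3 * E -
    16 * U1 * P1 ^ 2 * W2 * rho * E ^ 2 + 2 * U1 * W2 * c * om ^ 2 * E +
    4 * P1 ^ 2 * W2 * om * E ^ 2 - W2 ^ 2 * c * om * E

/-- a part of the norm -/
def cR (U1 P1 W2 c om rho E : R) : R :=
  -(U1 ^ 4 * c * rho ^ 3 * E) + 2 * U1 ^ 3 * c * om * rho ^ 2 * E +
    8 * U1 ^ 2 * P1 ^ 2 * rho ^ 2 * E ^ 2 - 2 * U1 ^ 2 * W2 * c * rho ^ 2 * E -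
    U1 ^ 2 * c * om ^ 2 * rho * E - 8 * U1 * P1 ^ 2 * om * rho * E ^ 2 +
    2 * U1 * W2 * c * om * rho * E - 8 * P1 ^ 2 * W2 * rho * E ^ 2 +
    4 * P1 ^ 2 * om ^ 2 * E ^ 2 - W2 ^ 2 * c * rho * E

/-- the first coordinate of the element -/
def cA (u U1 P1 W1 c rho E : R) : R := 2 * E * P1 * (U1 * rho * (u + c) - W1)
/-- the second coordinate of the element -/
def cB (u U1 P1 W2 om rho E : R) : R := u * (U1 * U1 * rho - U1 * om) + u * W2 + 4 * E * P1 * P1

theorem cube_id (x U1 P1 W2 c om rho E u w W1 p : R) (hu : u = x * U1 + c)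
    (hW1 : W1 = x * W2 + c * om) (hw : w = x * W1 + c * c * rho) (hp : p = x * P1) :
    cA u U1 P1 W1 c rho E ^ 2 * u - 2 * cA u U1 P1 W1 c rho E * cB u U1 P1 W2 om rho E * E * p -
      cB u U1 P1 W2 om rho E ^ 2 * E * w =
    u ^ 2 * (x * cQ x U1 P1 W2 c om rho E + -(16 * P1 ^ 4 * rho * E ^ 3) +
      c * cR U1 P1 W2 c om rho E) := by
  subst hw hW1 hp hu
  simp only [cA, cB, cQ, cR]
  ring

/-- the element lies in the cube of the ideal -/
theorem cube_mem (u p w b x U1 P1 W1 W2 c c' om rho E E' : R) (hu : u = x * U1 + c)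
    (hW1 : W1 = x * W2 + c * om) (hw : w = x * W1 + c * c * rho) (hp : p = x * P1)
    (hc : c' * c = 1) (hE : E' * E = 1) (hb : b * b = E * (u * w) - 2 * E * p * b) :
    cA u U1 P1 W1 c rho E * u + cB u U1 P1 W2 om rho E * b =
      c' ^ 2 * ((-W1 * (u * u) + 2 * P1 * (u * b) + E' * U1 * (b * b)) *
        (2 * E * P1 * u + U1 * b)) + c' * W2 * (u * u * b) := by
  have h1 : -W1 * (u * u) + 2 * P1 * (u * b) + E' * U1 * (b * b) =
      c * (u * (U1 * (c * rho) - W1) + 2 * P1 * b) := by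
    have h2 : E' * U1 * (b * b) = U1 * (u * w) - 2 * U1 * p * b := by
      rw [hb]
      linear_combination (U1 * (u * w) - 2 * U1 * p * b) * hE
    rw [h2, hw, hp, hu]
    ring
  rw [h1]
  have h3 : c * ((u * (U1 * (c * rho) - W1) + 2 * P1 * b) * (2 * E * P1 * u + U1 * b)) +
      c * (W2 * (u * u * b)) = c * (c * (cA u U1 P1 W1 c rho E * u + cB u U1 P1 W2 om rho E * b)) := by
    have h4 : (u * (U1 * (c * rho) - W1) + 2 * P1 * b) * (2 * E * P1 * u + U1 * b) =
        2 * E * P1 * u * u * (U1 * (c * rho) - W1) + 4 * E * P1 ^ 2 * u * b +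
        U1 * (U1 * (c * rho) - W1) * u * b + 2 * P1 * U1 * (b * b) := by ring
    rw [h4, hb]
    simp only [cA, cB]
    subst hw hW1 hp hu
    ring
  set Z := cA u U1 P1 W1 c rho E * u + cB u U1 P1 W2 om rho E * b with hZ
  set Y := (u * (U1 * (c * rho) - W1) + 2 * P1 * b) * (2 * E * P1 * u + U1 * b) with hY
  calc Z = (c' * c) ^ 2 * Z := by rw [hc]; ring
    _ = c' ^ 2 * (c * (c * Z)) := by ring
    _ = c' ^ 2 * (c * Y + c * (W2 * (u * u * b))) := by rw [h3]
    _ = c' ^ 2 * (c * Y) + (c' * c) * (c' * W2 * (u * u * b)) := by ring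
    _ = c' ^ 2 * (c * Y) + c' * W2 * (u * u * b) := by rw [hc]; ring
    _ = _ := by rw [hY]; ring

end ident

section
variable {K : Type} [Field K] {v : AbsoluteValue K ℝ} {h : IsNonarchimedean v} {a : Fin 5 → K}
  {r z e : K} {u p w : K[X]}

theorem cQ_int (h : IsNonarchimedean v) {x U1 P1 W2 c om rho E : K[X]} (hx : Intg v x)
    (h1 : Intg v U1) (h2 : Intg v P1) (h3 : Intg v W2) (h4 : Intg v c) (h5 : Intg v om)
    (h6 : Intg v rho) (h7 : Intg v E) : Intg v (cQ x U1 P1 W2 c om rho E) := by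
  obtain ⟨x, rfl⟩ := hx.lift h
  obtain ⟨U1, rfl⟩ := h1.lift h
  obtain ⟨P1, rfl⟩ := h2.lift h
  obtain ⟨W2, rfl⟩ := h3.lift h
  obtain ⟨c, rfl⟩ := h4.lift h
  obtain ⟨om, rfl⟩ := h5.lift h
  obtain ⟨rho, rfl⟩ := h6.lift h
  obtain ⟨E, rfl⟩ := h7.lift h
  have : cQ (x.map (OO v h).subtype) (U1.map (OO v h).subtype) (P1.map (OO v h).subtype)
      (W2.map (OO v h).subtype) (c.map (OO v h).subtype) (om.map (OO v h).subtype)
      (rho.map (OO v h).subtype) (E.map (OO v h).subtype) =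
      (cQ x U1 P1 W2 c om rho E).map (OO v h).subtype := by
    simp only [cQ, Polynomial.map_add, Polynomial.map_sub, Polynomial.map_neg, Polynomial.map_mul,
      Polynomial.map_pow, Polynomial.map_ofNat]
  rw [this]
  exact Intg.of_lift _

theorem cR_int (h : IsNonarchimedean v) {U1 P1 W2 c om rho E : K[X]}
    (h1 : Intg v U1) (h2 : Intg v P1) (h3 : Intg v W2) (h4 : Intg v c) (h5 : Intg v om)
    (h6 : Intg v rho) (h7 : Intg v E) : Intg v (cR U1 P1 W2 c om rho E) := by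
  obtain ⟨U1, rfl⟩ := h1.lift h
  obtain ⟨P1, rfl⟩ := h2.lift h
  obtain ⟨W2, rfl⟩ := h3.lift h
  obtain ⟨c, rfl⟩ := h4.lift h
  obtain ⟨om, rfl⟩ := h5.lift h
  obtain ⟨rho, rfl⟩ := h6.lift h
  obtain ⟨E, rfl⟩ := h7.lift h
  have : cR (U1.map (OO v h).subtype) (P1.map (OO v h).subtype)
      (W2.map (OO v h).subtype) (c.map (OO v h).subtype) (om.map (OO v h).subtype)
      (rho.map (OO v h).subtype) (E.map (OO v h).subtype) =
      (cR U1 P1 W2 c om rho E).map (OO v h).subtype := by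
    simp only [cR, Polynomial.map_add, Polynomial.map_sub, Polynomial.map_neg, Polynomial.map_mul,
      Polynomial.map_pow, Polynomial.map_ofNat]
  rw [this]
  exact Intg.of_lift _

theorem v_sixteen (h2 : v 2 = 1) : v 16 = 1 := by
  have : (16 : K) = 2 * 2 * 2 * 2 := by norm_num
  rw [this]
  simp only [map_mul, h2]
  norm_num

/-- the cube, after a normalization -/
theorem cube_core [CharZero K] (h : IsNonarchimedean v) (h2 : v 2 = 1) (hz : z ≠ 0)
    (he : v e = 1) (hdis : dis a ≠ 0) (hr : v r ≤ 1) (T : Tri v a e u p w)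
    (hcp : p.eval r = 0) (c0 : u.eval r ≠ 0) (c1 : v (u.eval r) < 1)
    (hom : v ((w /ₘ (X - C r)).eval r) ≤ v (u.eval r))
    (hrho : v (w.eval r) = v (u.eval r) ^ 2)
    (hP : v ((p /ₘ (X - C r)).eval r) = 1) : GG v r ((TI a z e u p) ^ 3) := by
  have he0 : e ≠ 0 := by
    rintro rfl
    rw [map_zero] at he
    norm_num at he
  have hodd : Odd (quin a).natDegree := by
    rw [natDegree_quin]
    decide
  have hu := T.u_ne hodd
  have i1 := T.u_int.div h hr
  have i2 := T.p_int.div h hr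
  have i3 := T.w_int.div h hr
  have i4 := i3.div h hr
  have eU := split u r
  have eP := split p r
  have eW := split w r
  have eW1 := split (w /ₘ (X - C r)) r
  rw [hcp, C_0, add_zero] at eP
  set U1 := u /ₘ (X - C r) with hU1
  set P1 := p /ₘ (X - C r) with hP1
  set W1 := w /ₘ (X - C r) with hW1
  set W2 := W1 /ₘ (X - C r) with hW2
  set c := u.eval r with hcu
  have hc0 : 0 < v c := v.pos c0
  set om := W1.eval r / c with hom'
  set rho := w.eval r / (c * c) with hrho'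
  have v1 : v om ≤ 1 := by
    rw [hom', map_div₀, div_le_one hc0]
    exact hom
  have v2 : v rho = 1 := by
    rw [hrho', map_div₀, map_mul, hrho, pow_two, div_self (mul_pos hc0 hc0).ne']
  have eW1' : W1 = (X - C r) * W2 + C c * C om := by
    rw [← C_mul, hom', mul_div_cancel₀ _ c0]
    exact eW1
  have eW' : w = (X - C r) * W1 + C c * C c * C rho := by
    rw [← C_mul, ← C_mul, hrho', mul_div_cancel₀ _ (mul_ne_zero c0 c0)]
    exact eW
  have ix : Intg v (X - C r : K[X]) := Intg.xx.sub h (Intg.cst hr)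
  have ic : Intg v (C c : K[X]) := Intg.cst c1.le
  have io' : Intg v (C om : K[X]) := Intg.cst v1
  have ir : Intg v (C rho : K[X]) := Intg.cst v2.le
  have ie : Intg v (C e : K[X]) := Intg.cst he.le
  have i16 : Intg v (16 : K[X]) := Intg.ofNat h 16
  let Q : K[X] := cQ (X - C r) U1 P1 W2 (C c) (C om) (C rho) (C e)
  let R : K[X] := cR U1 P1 W2 (C c) (C om) (C rho) (C e)
  have hQ : Intg v Q := cQ_int h ix i1 i2 i4 ic io' ir ie
  have hR : Intg v R := cR_int h i1 i2 i4 ic io' ir ie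
  let t : K[X] := (X - C r) * Q + -(16 * P1 ^ 4 * C rho * C e ^ 3) + C c * R
  have ht : Intg v t := by
    refine Intg.add h (Intg.add h (ix.mul h hQ) (Intg.neg ?_)) (ic.mul h hR)
    exact ((i16.mul h (i2.pow h 4)).mul h ir).mul h (ie.pow h 3)
  have htr : v (t.eval r) = 1 := by
    have h5 : t.eval r = c * R.eval r + -(16 * P1.eval r ^ 4 * rho * e ^ 3) := by
      simp only [t, eval_add, eval_mul, eval_sub, eval_X, eval_C, sub_self, zero_mul, eval_neg,
        eval_pow, eval_ofNat, zero_add]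
      ring
    have h6 : v (-(16 * P1.eval r ^ 4 * rho * e ^ 3)) = 1 := by
      rw [v.map_neg]
      simp only [map_mul, map_pow, v_sixteen h2, hP, v2, he]
      norm_num
    have h7 := hR.evc h hr c1
    rw [h5, v_add_eq h (by rw [h6]; exact h7), h6]
  let A : K[X] := cA u U1 P1 W1 (C c) (C rho) (C e)
  let B : K[X] := cB u U1 P1 W2 (C om) (C rho) (C e)
  refine ⟨u ^ 3, t, io (gz a z e) A * io (gz a z e) u + io (gz a z e) B * bb a z e p,
    pow_ne_zero _ hu, norm_pow_TI hz he0 hdis T 3, ?_, ?_, ht, htr⟩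
  · have hb := bb_sq hz T
    have hE : io (gz a z e) (C e⁻¹) * io (gz a z e) (C e) = 1 := by
      rw [← map_mul, ← C_mul, inv_mul_cancel₀ he0, C_1, map_one]
    have hC : io (gz a z e) (C c⁻¹) * io (gz a z e) (C c) = 1 := by
      rw [← map_mul, ← C_mul, inv_mul_cancel₀ c0, C_1, map_one]
    have eU' := congrArg (io (gz a z e)) eU
    have eP' := congrArg (io (gz a z e)) eP
    have eW1'' := congrArg (io (gz a z e)) eW1'
    have eW'' := congrArg (io (gz a z e)) eW'
    simp only [map_add, map_mul] at eU' eP' eW1'' eW''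
    have hA : io (gz a z e) A = cA (io (gz a z e) u) (io (gz a z e) U1) (io (gz a z e) P1)
        (io (gz a z e) W1) (io (gz a z e) (C c)) (io (gz a z e) (C rho))
        (io (gz a z e) (C e)) := by
      simp only [A, cA, map_add, map_sub, map_mul, map_ofNat]
    have hB : io (gz a z e) B = cB (io (gz a z e) u) (io (gz a z e) U1) (io (gz a z e) P1)
        (io (gz a z e) W2) (io (gz a z e) (C om)) (io (gz a z e) (C rho))
        (io (gz a z e) (C e)) := by
      simp only [B, cB, map_add, map_sub, map_mul, map_ofNat]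
    rw [hA, hB, cube_mem (io (gz a z e) u) (io (gz a z e) p) (io (gz a z e) w) (bb a z e p)
      (io (gz a z e) (X - C r)) (io (gz a z e) U1) (io (gz a z e) P1) (io (gz a z e) W1)
      (io (gz a z e) W2) (io (gz a z e) (C c)) (io (gz a z e) (C c⁻¹)) (io (gz a z e) (C om))
      (io (gz a z e) (C rho)) (io (gz a z e) (C e)) (io (gz a z e) (C e⁻¹)) eU' eW1'' eW'' eP'
      hC hE hb]
    have n1 : io (gz a z e) u ∈ TI a z e u p := uu_mem
    have n2 : bb a z e p ∈ TI a z e u p := bb_mem hz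
    have m1 : io (gz a z e) u * io (gz a z e) u ∈ (TI a z e u p) ^ 2 := by
      rw [pow_two]
      exact Ideal.mul_mem_mul n1 n1
    have m2 : io (gz a z e) u * bb a z e p ∈ (TI a z e u p) ^ 2 := by
      rw [pow_two]
      exact Ideal.mul_mem_mul n1 n2
    have m3 : bb a z e p * bb a z e p ∈ (TI a z e u p) ^ 2 := by
      rw [pow_two]
      exact Ideal.mul_mem_mul n2 n2
    have e3 : (TI a z e u p) ^ 3 = (TI a z e u p) ^ 2 * TI a z e u p := pow_succ _ 2
    rw [e3]
    refine Ideal.add_mem _ (Ideal.mul_mem_left _ _ (Ideal.mul_mem_mul ?_ ?_))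
      (Ideal.mul_mem_left _ _ (Ideal.mul_mem_mul m1 n2))
    · exact comb3 m1 m2 m3 (-io (gz a z e) W1) (2 * io (gz a z e) P1)
        (io (gz a z e) (C e⁻¹) * io (gz a z e) U1) (by ring)
    · exact comb2 n1 n2 (2 * io (gz a z e) (C e) * io (gz a z e) P1) (io (gz a z e) U1) (by ring)
  · rw [norm_el hz T]
    have h5 := cube_id (X - C r) U1 P1 W2 (C c) (C om) (C rho) (C e) u w W1 p eU eW1' eW' eP
    have h6 : A ^ 2 * u - 2 * A * B * C e * p - B ^ 2 * C e * w = u ^ 2 * t := h5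
    rw [h6]
    ring

end

end Run7.h929.G3
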