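import Pool.Agent.Run7.h929.G2.Tors

/-!
# Definitions for the nodal places (stage 2)

`a : Fin 5 → K` are the coefficients of the monic quintic `f = quin a`, the curve is
`Y² = rhs a d = C d * quin a`, points of the Jacobian are the pairs of Mumford `Mum (rhs a d) u V`,
`MI (rhs a d) u V` is the ideal `(u, Y - V)` of `QB (rhs a d) = K[x, Y]`, `kc a d u V` are the
coordinates on the Kummer surface and `dup a` is the duplication map.
-/

set_option autoImplicit false

namespace Run7.h929.G3

open Polynomial Run7.h929.G2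

/-! ### Local part -/

section loc

variable {K : Type} [Field K]

/-- the coefficients are integral -/
def Intg (v : AbsoluteValue K ℝ) (p : K[X]) : Prop := ∀ i, v (p.coeff i) ≤ 1

/-- `r` is (an approximation of) the node of `f` modulo the maximal ideal: `f(r) ≡ 0`,
`f'(r)² ` is smaller than `f(r)`, `f''(r) / 2` is a unit and every multiple root of `f` in a field
over the residue field is the class of `r`. -/
structure Node (v : AbsoluteValue K ℝ) (h : IsNonarchimedean v) (a : Fin 5 → K) (r : K) :
    Prop where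
  int : ∀ i, v (a i) ≤ 1
  r_int : v r ≤ 1
  f_lt : v (fv a r) < 1
  fd_lt : v (fd a r) ^ 2 < v (fv a r)
  tay_unit : v ((tay a r).eval r) = 1
  uniq : ∀ (F : Type) [Field F] (φ : OO v h →+* F) (x : F), (∀ y, ww y < 1 → φ y = 0) →
    fv (fun i => φ ⟨a i, int i⟩) x = 0 → fd (fun i => φ ⟨a i, int i⟩) x = 0 →
    x = φ ⟨r, r_int⟩

/-- the hypotheses of the local statements; the twist is `d = z² e` with `e` of absolute value
`1` (untwisted) or `1/q` (twisted) -/
structure Ctx (v : AbsoluteValue K ℝ) (h : IsNonarchimedean v) (q : ℝ) (a : Fin 5 → K)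
    (r z e : K) : Prop where
  disc : Discrete v q
  two : v 2 = 1
  dis_ne : dis a ≠ 0
  node : Node v h a r
  z_ne : z ≠ 0
  tw : v e = 1 ∨ v e = q⁻¹

/-- the right hand side of the curve with the twist `z² e` -/
noncomputable def gz (a : Fin 5 → K) (z e : K) : K[X] := rhs a (z ^ 2 * e)

/-- an integral triple `f = e p² + u w` -/
structure Tri (v : AbsoluteValue K ℝ) (a : Fin 5 → K) (e : K) (u p w : K[X]) : Prop where
  u_int : Intg v u
  p_int : Intg v p
  w_int : Intg v w
  eq : quin a = C e * p ^ 2 + u * w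

/-- the ideal of an integral triple; note `gz a z e = (z e p)² + u (z² e w)` -/
noncomputable def TI (a : Fin 5 → K) (z e : K) (u p : K[X]) : Ideal (QB (gz a z e)) :=
  MI (gz a z e) u (C (z * e) * p)

/-- the ideal contains an element whose norm, divided by the norm of the ideal, has integral
coefficients and a unit value at `r` -/
def GG {g : K[X]} (v : AbsoluteValue K ℝ) (r : K) (I : Ideal (QB g)) : Prop :=
  ∃ (n t : K[X]) (φ : QB g), n ≠ 0 ∧ I * I.map (cj g) = Ideal.span {io g n} ∧ φ ∈ I ∧
    φ.norm = n * t ∧ Intg v t ∧ v (t.eval r) = 1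

/-- the duplication loses nothing at `v`, and if the twist is ramified, then the first three
coordinates of the double are smaller than the maximum -/
def Kgood (v : AbsoluteValue K ℝ) (q : ℝ) (a : Fin 5 → K) (d : K) (k : Fin 4 → K) : Prop :=
  (⨆ i, v (k i)) ^ 4 ≤ (⨆ i, v (dup a k i)) ∧
    ((∀ x, v d ≠ v x ^ 2) → ∀ i : Fin 3, q * v (dup a k i.castSucc) ≤ ⨆ i, v (dup a k i))

/-- the conclusion for the pair `(u₀, V₀)` of Mumford: either the class is good and the duplication
loses nothing, or there is a primitive integral triple for the same ideal, and if it is not bad,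
then the duplication loses nothing -/
def Concl (v : AbsoluteValue K ℝ) (q : ℝ) (a : Fin 5 → K) (r z e : K) (u₀ V₀ : K[X]) : Prop :=
  (GG v r (MI (gz a z e) u₀ V₀) ∧ Kgood v q a (z ^ 2 * e) (kc a (z ^ 2 * e) u₀ V₀)) ∨
  ∃ u p w : K[X], Tri v a e u p w ∧ (∃ i, v (u.coeff i) = 1) ∧
    TI a z e u p = MI (gz a z e) u₀ V₀ ∧
    (v (u.eval r) = 1 ∨ v (w.eval r) = 1 →
      Kgood v q a (z ^ 2 * e) (kc a (z ^ 2 * e) u₀ V₀))

end loc

/-! ### Heights -/

/-- bounded degree and bounded height of the coefficients -/
def PB {K : Type} [Field K] [NumberField K] (Z : ℝ) (N : ℕ) (p : K[X]) : Prop :=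
  p.natDegree ≤ N ∧ ∀ i, Height.logHeight₁ (p.coeff i) ≤ N * Z

/-! ### Counting -/

/-- the discriminant as a polynomial in the constant coefficient (`a 0` is not used) -/
noncomputable def DP {R : Type} [CommRing R] (a : Fin 5 → R) : R[X] :=
  dis ![X, C (a 1), C (a 2), C (a 3), C (a 4)]

/-- the derivative of the discriminant with respect to the constant coefficient -/
noncomputable def dis0 {R : Type} [CommRing R] (a : Fin 5 → R) : R :=
  (derivative (DP a)).eval (a 0)

/-- the box `|aᵢ| ≤ B^(5-i)` -/
noncomputable def Box (B : ℕ) : Finset (Fin 5 → ℤ) :=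
  Fintype.piFinset fun i : Fin 5 => Finset.Icc (-(B : ℤ) ^ (5 - (i : ℕ))) ((B : ℤ) ^ (5 - (i : ℕ)))

/-- the primes at which something may be lost: the prime 2, the primes dividing the discriminant
at which the reduction has not exactly one node, and the primes whose fourth power divides the
discriminant -/
def BadP (a : Fin 5 → ℤ) (p : ℕ) : Prop :=
  p = 2 ∨ ((p : ℤ) ∣ dis a ∧ ((p : ℤ) ∣ dis0 a ∨ (p : ℤ) ^ 4 ∣ dis a))

open scoped Classical in
/-- `log` of the part of the discriminant at the bad primes -/
noncomputable def badLog (a : Fin 5 → ℤ) : ℝ :=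
  ∑ p ∈ (dis a).natAbs.primeFactors with BadP a p,
    (padicValInt p (dis a) : ℝ) * Real.log p

/-- the good quintics in the box -/
def NiceQ (ε : ℝ) (B : ℕ) (a : Fin 5 → ℤ) : Prop :=
  dis a ≠ 0 ∧ (20 - ε) * Real.log B ≤ Real.log |((dis a : ℤ) : ℝ)| ∧ badLog a ≤ ε * Real.log B

end Run7.h929.G3
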