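import Pool.Agent.Run7.h929.G3.Main3

/-!
# The bridge to integral polynomials, and the torsion points
-/

set_option autoImplicit false

namespace Run7.h929.G3

open Polynomial NumberField IsDedekindDomain Filter Topology Run7.h929.G2

section fin
variable {K : Type} [Field K] [NumberField K]

theorem fin_cube (v : FinitePlace K) (x : 𝓞 K) (hx : x ≠ 0)
    (h : x ∉ v.maximalIdeal.asIdeal ^ 4) : (qq v)⁻¹ ^ 3 ≤ v (x : K) := by
  obtain ⟨n, hn, hd⟩ := fin_pow v x hx
  have h1 : n ≤ 3 := by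
    by_contra h2
    push Not at h2
    apply h
    rw [← Ideal.dvd_span_singleton]
    exact (pow_dvd_pow _ h2).trans hd
  have h0 : (0 : ℝ) < qq v := by linarith [one_lt_qq v]
  rw [hn, inv_pow]
  apply inv_anti₀ (pow_pos h0 _)
  exact pow_le_pow_right₀ (one_lt_qq v).le h1

theorem fin_lt (v : FinitePlace K) (x : 𝓞 K) (hx : v (x : K) ≠ 1) :
    x ∈ v.maximalIdeal.asIdeal := by
  rw [← FinitePlace.norm_lt_one_iff_mem K, v.norm_embedding_eq]
  exact lt_of_le_of_ne (fin_int v x) hx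

theorem placeOK_of (v : FinitePlace K) {f : (𝓞 K)[X]} {d : K} (hf : f.Monic)
    (h5 : f.natDegree = 5) (hdisc : f.discr ≠ 0) (h2 : v (2 : K) = 1)
    (h : v ((f.discr : 𝓞 K) : K) = 1 ∨ (NodalAt f v.maximalIdeal.asIdeal ∧
      (f.discr ∉ v.maximalIdeal.asIdeal ^ 4 ∨ ∀ z : K, v d ≠ v z ^ 2))) :
    PlaceOK (cf f) d v := by
  have hdis := (quin_cf (K := K) hf h5).2
  rcases h with h1 | ⟨h1, h3⟩
  · refine Or.inl ⟨h2, ?_, Or.inr ?_⟩
    · rw [hdis, h1]
      exact (inv_lt_one_of_one_lt₀ (one_lt_qq v)).le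
    · rw [hdis]
      exact h1
  · refine Or.inr ⟨h2, ?_, exists_node v hf h5 hdisc h2 h1⟩
    rcases h3 with h4 | h4
    · right
      rw [hdis]
      exact fin_cube v _ hdisc h4
    · exact Or.inl h4

theorem placeT_of (v : FinitePlace K) {f : (𝓞 K)[X]} {d : K} (hf : f.Monic)
    (h5 : f.natDegree = 5) (hdisc : f.discr ≠ 0) (h2 : v (2 : K) = 1)
    (hodd : ∀ z : K, v d ≠ v z ^ 2)
    (h : v ((f.discr : 𝓞 K) : K) = 1 ∨ NodalAt f v.maximalIdeal.asIdeal) :
    PlaceT (cf f) d v := by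
  refine ⟨h2, hodd, ?_⟩
  rcases h with h1 | h1
  · left
    rw [(quin_cf (K := K) hf h5).2]
    exact h1
  · obtain ⟨r, hr, -⟩ := exists_node v hf h5 hdisc h2 h1
    exact Or.inr ⟨r, hr⟩

end fin

section tors
variable {K : Type} [Field K] [NumberField K] {a : Fin 5 → K} {d : K} {H : InfinitePlace K → ℝ}

/-- the canonical height of a torsion point is zero -/
theorem lim_tors (h : Hyp0 a d H) (p : MP a d) {m : ℕ} (hm : 1 ≤ m)
    (ht : Same (MI (rhs a d) p.1.1 p.1.2 ^ m) ⊤) {c : ℝ}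
    (hc : Tendsto (fun n => hh h p n / 4 ^ n) atTop (𝓝 c)) : c = 0 := by
  have := rdom h
  have hP : ∀ n n', 2 ^ n % m = 2 ^ n' % m → hh h p n = hh h p n' := by
    intro n n' hn
    have h1 := same_mod ht (2 ^ n')
    have h2 := same_mod ht (2 ^ n)
    rw [← hn] at h1
    have h3 : dd h p n = dd h p n' :=
      mp_unique h (((dd_same h p n).trans (h2.trans h1.symm)).trans (dd_same h p n').symm)
    rw [hh, hh, h3]
  have hx0 : ∀ n, 0 ≤ hh h p n := fun n => Height.logHeight_nonneg _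
  have hB : ∃ B, ∀ n, hh h p n ≤ B := by
    classical
    let g : ℕ → ℝ := fun r => if hr : ∃ n, 2 ^ n % m = r then hh h p hr.choose else 0
    have hg0 : ∀ r, 0 ≤ g r := by
      intro r
      simp only [g]
      split_ifs
      · exact hx0 _
      · exact le_rfl
    refine ⟨∑ r ∈ Finset.range m, g r, fun n => ?_⟩
    have hr : ∃ n', 2 ^ n' % m = 2 ^ n % m := ⟨n, rfl⟩
    have h1 : hh h p n = g (2 ^ n % m) := by
      simp only [g]
      rw [dif_pos hr]
      exact hP n hr.choose hr.choose_spec.symm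
    rw [h1]
    exact Finset.single_le_sum (f := g) (fun r _ => hg0 r)
      (Finset.mem_range.2 (Nat.mod_lt _ (by omega)))
  obtain ⟨B, hB⟩ := hB
  have h1 : Tendsto (fun n : ℕ => B * (1 / 4 : ℝ) ^ n) atTop (𝓝 0) := by
    have := (tendsto_pow_atTop_nhds_zero_of_lt_one (r := (1 / 4 : ℝ)) (by norm_num)
      (by norm_num)).const_mul B
    rwa [mul_zero] at this
  have h0 : Tendsto (fun n => hh h p n / 4 ^ n) atTop (𝓝 0) := by
    refine squeeze_zero (fun n => div_nonneg (hx0 n) (by positivity)) (fun n => ?_) h1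
    rw [one_div, inv_pow, ← div_eq_mul_inv]
    exact div_le_div_of_nonneg_right (hB n) (by positivity)
  exact tendsto_nhds_unique hc h0

end tors

end Run7.h929.G3
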