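import Pool.Agent.Run7.h929.G2.Main

/-!
# Generic pairs
-/

set_option autoImplicit false

namespace Run7.h929.G3

open Polynomial Run7.h929.G2

variable {K : Type} [Field K] {a : Fin 5 → K} {d : K}

/-- the pairs of degree two with coprime polynomials -/
def Gnc (u V : K[X]) : Prop := u.natDegree = 2 ∧ IsCoprime u V

theorem sq_coprime {g u V : K[X]} (hg : Squarefree g) (hM : Mum g u V) {x : K}
    (hu : u = (X - C x) * (X - C x)) : IsCoprime u V := by
  have h1 : IsCoprime (X - C x) V := by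
    rw [(irreducible_X_sub_C x).coprime_iff_not_dvd]
    intro h2
    have h3 : (X - C x) * (X - C x) ∣ g := by
      have h4 : (X - C x) * (X - C x) ∣ V ^ 2 := by
        rw [pow_two]
        exact mul_dvd_mul h2 h2
      have h5 := hM.dvd
      rw [hu] at h5
      have h6 := dvd_add h5 h4
      rwa [sub_add_cancel] at h6
    exact not_isUnit_X_sub_C x (hg _ h3)
  rw [hu]
  exact h1.mul_left h1

theorem rv_coprime {s q v1 v0 : K} (hd : d ≠ 0) (hR : rv s q v1 v0 ≠ 0) :
    IsCoprime (qu s q) (C d * lin v1 v0) := by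
  refine ⟨C (rv s q v1 v0)⁻¹ * C v1 ^ 2,
    -(C (rv s q v1 v0)⁻¹ * C d⁻¹ * (C v1 * X - C (v0 + s * v1))), ?_⟩
  have h1 : (C (rv s q v1 v0)⁻¹ * C (rv s q v1 v0) : K[X]) = 1 := by
    rw [← C_mul, inv_mul_cancel₀ hR, C_1]
  have h2 : (C d⁻¹ * C d : K[X]) = 1 := by
    rw [← C_mul, inv_mul_cancel₀ hd, C_1]
  have h3 : (C (rv s q v1 v0) : K[X]) = C v0 ^ 2 + C s * C v0 * C v1 + C q * C v1 ^ 2 := by
    simp only [rv, C_add, C_mul, C_pow]
  simp only [qu, lin, C_add, C_mul]
  linear_combination h1 - (C (rv s q v1 v0)⁻¹ * (C v1 * X - C v0 - C s * C v1) *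
    (C v1 * X + C v0)) * h2 - C (rv s q v1 v0)⁻¹ * h3

/-- a pair or its double is generic -/
theorem gnc_or (h2 : (2 : K) ≠ 0) (h5 : (5 : K) ≠ 0) (hd : d ≠ 0)
    (hdis : dis a ≠ 0) {u V : K[X]} (h : Mum (rhs a d) u V) (hV0 : V ≠ 0) :
    Gnc u V ∨ ∀ u' V', Mum (rhs a d) u' V' →
      Same (MI (rhs a d) u' V') (MI (rhs a d) u V ^ 2) → Gnc u' V' := by
  have hsq := rhs_squarefree h5 hd hdis
  have hdeg : (rhs a d).natDegree = 5 := natDegree_rhs hd
  have := dom (g := rhs a d) (by rw [hdeg]; decide)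
  have hgen : ∀ x : K, ∀ V1 : K[X], Mum (rhs a d) (qu (2 * x) (x ^ 2)) V1 →
      Same (MI (rhs a d) (qu (2 * x) (x ^ 2)) V1) (MI (rhs a d) u V ^ 2) →
      ∀ u' V', Mum (rhs a d) u' V' →
      Same (MI (rhs a d) u' V') (MI (rhs a d) u V ^ 2) → Gnc u' V' := by
    intro x V1 hM1 hS1 u' V' hM' hS'
    obtain ⟨e1, e2⟩ := Mum.unique h2 hsq hdeg hM1 hM' (hS1.trans hS'.symm)
    rw [← e1, ← e2]
    exact ⟨natDegree_qu _ _, sq_coprime hsq hM1 (qu_sq x)⟩
  rcases normal_form hd h with ⟨hu, hV⟩ | ⟨x, y, hu, hV, hy⟩ |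
    ⟨s, q, v1, v0, w2, w1, w0, hu, hV, ha⟩
  · exact absurd hV hV0
  · have hy0 : y ≠ 0 := by
      rintro rfl
      apply hV0
      rw [hV, C_0]
    obtain ⟨m1, m2, m3⟩ := dou_one h2 hd hy0 hy (d * fd a x / (2 * y)) (by field_simp)
    right
    apply hgen x _ m1
    rw [m2, hu, hV]
    exact Same.refl _
  · by_cases hR : rv s q v1 v0 = 0
    · have hv1 : v1 ≠ 0 := by
        intro h0
        rw [h0] at hR
        have h1 : v0 ^ 2 = 0 := by
          rw [← hR]
          simp only [rv]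
          ring
        have h3 : v0 = 0 := pow_eq_zero_iff (two_ne_zero) |>.1 h1
        apply hV0
        rw [hV, h0, h3, lin]
        simp
      set x0 := -v0 / v1 with hx0
      have e1 : v0 = -(v1 * x0) := by
        rw [hx0]
        field_simp
      have e2 : q = x0 * (s - x0) := by
        have : v1 ^ 2 * (q - x0 * (s - x0)) = 0 := by
          rw [← hR, e1]
          simp only [rv]
          ring
        exact sub_eq_zero.1 ((mul_eq_zero.1 this).resolve_left (pow_ne_zero _ hv1))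
      have e3 : s = x0 + (s - x0) := by ring
      set x2 := s - x0 with hx2
      rw [e1, e2, e3] at ha
      obtain ⟨t, y, hD⟩ := dou_two h2 h5 d x0 x2 v1 w2 w1 w0 hd hv1 (by rw [← ha]; exact hdis)
      rw [← ha] at hD
      right
      apply hgen x2 _ hD.1
      have h6 := hD.2.1
      rw [← e2, ← e1, ← e3] at h6
      rw [hu, hV]
      exact h6
    · left
      rw [hu, hV]
      exact ⟨natDegree_qu _ _, rv_coprime hd hR⟩

end Run7.h929.G3
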