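import Pool.Agent.Run7.h929.G2.Main

/-!
# The lower bound for a sequence of doubles without loss at most places
-/

set_option autoImplicit false

namespace Run7.h929.G3

open NumberField IsDedekindDomain Filter Topology Run7.h929.G2

variable {K : Type} [Field K] [NumberField K]

section
variable {H : InfinitePlace K → ℝ}

theorem step_low' (hH : ∀ v, 1 ≤ H v) (a : Fin 5 → K) (ha : ∀ (v : FinitePlace K) i, v (a i) ≤ 1)
    (haH : ∀ (v : InfinitePlace K) (i : Fin 5), v (a i) ≤ H v ^ (5 - (i : ℕ)))
    (hdis : dis a ≠ 0) (S : Finset (FinitePlace K)) {k : Fin 4 → K} (hk0 : k ≠ 0)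
    (hkum : kum a k = 0) (hS : ∀ v ∉ S, (⨆ i, v (k i)) ^ 4 ≤ ⨆ i, v (dup a k i)) :
    loss a H S * Hw H k ^ 4 ≤ Hw H (dup a k) := by
  classical
  have hdup := dup_ne hdis hkum hk0
  obtain ⟨s1, s2⟩ := fin_ite S fun v => v (2 * dis a) ^ NN
  have s3 : (fun v : FinitePlace K => (⨆ i, v (k i)) ^ 4).HasFiniteMulSupport :=
    (fin_supp k hk0).pow 4
  have e : loss a H S * Hw H k ^ 4 =
      (∏ v : InfinitePlace K, ((CC⁻¹ * (v (dis a) / H v ^ 20) ^ NN) *
        (wn (H v) fun i => v.embedding (k i)) ^ 4) ^ v.mult) *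
      ∏ᶠ v : FinitePlace K, (if v ∈ S then v (2 * dis a) ^ NN else 1) * (⨆ i, v (k i)) ^ 4 := by
    rw [finprod_mul_distrib s1 s3, s2, ← finprod_pow (fin_supp k hk0)]
    simp only [mul_pow, Finset.prod_mul_distrib]
    rw [loss, Hw]
    simp only [mul_pow, Finset.prod_mul_distrib]
    have : ∀ v : InfinitePlace K, ((wn (H v) fun i => v.embedding (k i)) ^ 4) ^ v.mult =
      ((wn (H v) fun i => v.embedding (k i)) ^ v.mult) ^ 4 := fun v => by
        rw [← pow_mul, ← pow_mul, mul_comm]
    simp only [this, Finset.prod_pow]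
    ring
  rw [e]
  apply mul_le_mul
  · apply Finset.prod_le_prod
    · intro v _
      have := wn_nonneg (h := H v) (by linarith [hH v]) fun i => v.embedding (k i)
      have := one_le_CC
      have := hH v
      positivity
    · intro v _
      apply pow_le_pow_left₀
      · have := wn_nonneg (h := H v) (by linarith [hH v]) fun i => v.embedding (k i)
        have := one_le_CC
        have := hH v
        positivity
      · obtain ⟨-, -, h3⟩ := CC_spec (fun i => v.embedding (a i)) (fun i => v.embedding (k i)) (H v)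
          (by linarith [hH v]) (fun i => by
            rw [InfinitePlace.norm_embedding_eq]
            exact haH v i) (emb_ne hk0 v) (emb_kum hkum v)
        rw [emb_dup, mul_assoc, inv_mul_le_iff₀ (by linarith [one_le_CC])]
        rw [← map_dis, InfinitePlace.norm_embedding_eq] at h3
        exact h3
  · apply finprod_le_finprod
    · exact s1.mul s3
    · intro v
      have : 0 ≤ ⨆ i, v (k i) := (fin_iSup_pos hk0 v).le
      split_ifs
      · positivity
      · positivity
    · exact fin_supp _ hdup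
    · intro v
      simp only
      split_ifs with hv
      · exact fin_bad (v := v.val) (fin_nonarch v) a (ha v) k hkum hk0
      · rw [one_mul]
        exact hS v hv
  · apply finprod_nonneg
    intro v
    have : 0 ≤ ⨆ i, v (k i) := (fin_iSup_pos hk0 v).le
    split_ifs
    · positivity
    · positivity
  · apply Finset.prod_nonneg
    intro v _
    exact pow_nonneg (wn_nonneg (by linarith [hH v]) _) _

theorem start_low' (hH : ∀ v, 1 ≤ H v) (a : Fin 5 → K)
    (hdis : dis a ≠ 0) (T : Finset (FinitePlace K))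
    {k : Fin 4 → K} (hk0 : k ≠ 0) (hkum : kum a k = 0) (i : Fin 3) (hi : (i : ℕ) ≤ 1)
    (hT : ∀ v ∈ T, qq v * v (dup a k i.castSucc) ≤ ⨆ i, v (dup a k i))
    (hne : dup a k i.castSucc ≠ 0) :
    (∏ v : InfinitePlace K, (H v ^ 2) ^ v.mult) * ∏ v ∈ T, qq v ≤ Hw H (dup a k) := by
  classical
  have hdup := dup_ne hdis hkum hk0
  obtain ⟨s1, s2⟩ := fin_ite T fun v => qq v
  set x := dup a k i.castSucc with hx
  have e : (∏ v : InfinitePlace K, (H v ^ 2) ^ v.mult) * ∏ v ∈ T, qq v =
      (∏ v : InfinitePlace K, (v x * H v ^ 2) ^ v.mult) *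
      ∏ᶠ v : FinitePlace K, (if v ∈ T then qq v else 1) * v x := by
    rw [finprod_mul_distrib s1 (FinitePlace.hasFiniteMulSupport hne), s2]
    have h3 := prod_abs_eq_one hne
    simp only [mul_pow, Finset.prod_mul_distrib]
    calc _ = (∏ v : InfinitePlace K, (H v ^ 2) ^ v.mult) * (∏ v ∈ T, qq v) *
          ((∏ w : InfinitePlace K, w x ^ w.mult) * ∏ᶠ w : FinitePlace K, w x) := by
            rw [h3, mul_one]
      _ = _ := by ring
  rw [e, Hw]
  have hq : ∀ v : FinitePlace K, 0 < qq v := fun v => by linarith [one_lt_qq v]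
  apply mul_le_mul
  · apply Finset.prod_le_prod
    · intro v _
      have := hH v
      positivity
    · intro v _
      apply pow_le_pow_left₀
      · have := hH v
        positivity
      · refine le_trans ?_ (le_sup4 (fun j : Fin 4 => ‖v.embedding (dup a k j)‖ *
          H v ^ (3 - (j : ℕ))) i.castSucc)
        rw [InfinitePlace.norm_embedding_eq]
        exact mul_le_mul_of_nonneg_left (pow_le_pow_right₀ (hH v) (by simp; omega))
          (apply_nonneg v _)
  · have s4 : (fun v : FinitePlace K => (if v ∈ T then qq v else 1) * v x).HasFiniteMulSupport :=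
      s1.mul (FinitePlace.hasFiniteMulSupport hne)
    apply finprod_le_finprod s4 _ (fin_supp _ hdup)
    · intro v
      simp only
      split_ifs with hv
      · exact hT v hv
      · rw [one_mul]
        exact le_sup4 (fun j : Fin 4 => v (dup a k j)) i.castSucc
    · intro v
      have := hq v
      have := apply_nonneg v x
      split_ifs
      · positivity
      · positivity
  · apply finprod_nonneg
    intro v
    have := hq v
    have := apply_nonneg v x
    split_ifs
    · positivity
    · positivity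
  · apply Finset.prod_nonneg
    intro v _
    exact pow_nonneg (wn_nonneg (by linarith [hH v]) _) _

end

/-- the hypotheses on the curve and on the two sets of places -/
structure Hyp0 (a : Fin 5 → K) (d : K) (H : InfinitePlace K → ℝ) : Prop where
  one_le : ∀ v, 1 ≤ H v
  int : ∀ (v : FinitePlace K) i, v (a i) ≤ 1
  size : ∀ (v : InfinitePlace K) (i : Fin 5), v (a i) ≤ H v ^ (5 - (i : ℕ))
  dis_ne : dis a ≠ 0
  d_ne : d ≠ 0

/-- a sequence of vectors, each a multiple of the double of the one before -/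
structure SeqN (a : Fin 5 → K) (d : K) (S T : Finset (FinitePlace K)) (k : ℕ → Fin 4 → K) :
    Prop where
  rep : ∀ n, Rep a d (k n)
  dbl : ∀ n, ∃ c : K, c ≠ 0 ∧ k (n + 1) = fun i => c * dup a (k n) i
  noloss : ∀ n, ∀ v ∉ S, (⨆ i, v (k n i)) ^ 4 ≤ ⨆ i, v (dup a (k n) i)
  odd : ∀ v ∈ T, ∀ i : Fin 3, qq v * v (dup a (k 0) i.castSucc) ≤ ⨆ i, v (dup a (k 0) i)

variable {a : Fin 5 → K} {d : K} {H : InfinitePlace K → ℝ} {S T : Finset (FinitePlace K)}

theorem Hyp0.pos (h : Hyp0 a d H) (v : InfinitePlace K) : 0 < H v := by linarith [h.one_le v]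

theorem Hyp0.loss_pos (h : Hyp0 a d H) (S : Finset (FinitePlace K)) : 0 < loss a H S := by
  have hC := one_le_CC
  apply mul_pos
  · apply Finset.prod_pos
    intro v _
    have h1 := h.pos v
    have h2 : 0 < v (dis a) := InfinitePlace.pos_iff.2 h.dis_ne
    positivity
  · apply Finset.prod_pos
    intro v _
    exact pow_pos (FinitePlace.pos_iff.2 (mul_ne_zero two_ne_zero h.dis_ne)) _

theorem Hyp0.log_loss (h : Hyp0 a d H) (S : Finset (FinitePlace K)) : -Real.log (loss a H S) =
    NN * defect a H S + Real.log CC * Module.finrank ℚ K := by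
  have hC := one_le_CC
  have hv : ∀ v : InfinitePlace K, 0 < v (dis a) := fun v => InfinitePlace.pos_iff.2 h.dis_ne
  have hf : ∀ v : InfinitePlace K, 0 < CC⁻¹ * (v (dis a) / H v ^ 20) ^ NN := by
    intro v
    have h1 := h.pos v
    have h2 := hv v
    positivity
  have h2 : ∀ v : FinitePlace K, 0 < v (2 * dis a) := fun v =>
    FinitePlace.pos_iff.2 (mul_ne_zero two_ne_zero h.dis_ne)
  rw [loss, Real.log_mul (Finset.prod_pos fun v _ => pow_pos (hf v) _).ne'
    (Finset.prod_pos fun v _ => pow_pos (h2 v) _).ne', logHw_eq hf,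
    Real.log_prod fun v _ => (pow_pos (h2 v) _).ne']
  have e1 : ∀ v : InfinitePlace K, Real.log (CC⁻¹ * (v (dis a) / H v ^ 20) ^ NN) =
      -(Real.log CC + NN * (20 * Real.log (H v) - Real.log (v (dis a)))) := by
    intro v
    have h1 := h.pos v
    have h3 := hv v
    rw [Real.log_mul (by positivity) (by positivity), Real.log_inv, Real.log_pow,
      Real.log_div h3.ne' (by positivity), Real.log_pow]
    push_cast
    ring
  simp only [e1, Real.log_pow]
  rw [← InfinitePlace.sum_mult_eq, defect]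
  push_cast
  rw [mul_add, Finset.mul_sum, Finset.mul_sum, Finset.mul_sum]
  simp only [mul_neg, mul_add, Finset.sum_neg_distrib, Finset.sum_add_distrib]
  have e2 : ∑ v : InfinitePlace K, (v.mult : ℝ) * Real.log CC =
      ∑ v : InfinitePlace K, Real.log CC * (v.mult : ℝ) :=
    Finset.sum_congr rfl fun v _ => mul_comm _ _
  have e3 : ∑ v : InfinitePlace K, (v.mult : ℝ) * (NN * (20 * Real.log (H v) - Real.log (v (dis a))))
      = ∑ v : InfinitePlace K, (NN : ℝ) * (v.mult * (20 * Real.log (H v) - Real.log (v (dis a)))) :=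
    Finset.sum_congr rfl fun v _ => by ring
  rw [e2, e3]
  ring

theorem Hyp0.loss_le (h : Hyp0 a d H) (S : Finset (FinitePlace K)) {k : Fin 4 → K} (hk : Rep a d k) : loss a H S ≤ 1 := by
  have hC := one_le_CC
  have hv : ∀ v : InfinitePlace K, 0 < v (dis a) := fun v => InfinitePlace.pos_iff.2 h.dis_ne
  apply mul_le_one₀
  · apply Finset.prod_le_one
    · intro v _
      have h1 := h.pos v
      have h2 := hv v
      positivity
    · intro v _
      have h1 := h.pos v
      have h2 := hv v
      apply pow_le_one₀ (by positivity)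
      obtain ⟨-, h3, -⟩ := CC_spec (fun i => v.embedding (a i)) (fun i => v.embedding (k i)) (H v)
        (h.pos v) (fun i => by
          rw [InfinitePlace.norm_embedding_eq]
          exact h.size v i) (emb_ne hk.ne_zero v) (emb_kum hk.kum_eq v)
      rw [← map_dis, InfinitePlace.norm_embedding_eq] at h3
      rw [inv_mul_le_iff₀ (by linarith), mul_one]
      exact h3
  · apply Finset.prod_nonneg
    intro v _
    exact pow_nonneg (apply_nonneg v _) _
  · apply Finset.prod_le_one
    · intro v _
      exact pow_nonneg (apply_nonneg v _) _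
    · intro v _
      apply pow_le_one₀ (apply_nonneg v _)
      have h1 : v (dis a) ≤ 1 := by
        let a' : Fin 5 → OO v.val (fin_nonarch v) := fun i => ⟨a i, h.int v i⟩
        have := ww_le (dis a')
        rw [sub_hom_dis] at this
        exact this
      have h2 : v (2 : K) ≤ 1 := by
        have := fin_int v (2 : 𝓞 K)
        have e : ((2 : 𝓞 K) : K) = 2 := map_ofNat (algebraMap (𝓞 K) K) 2
        rwa [e] at this
      rw [map_mul]
      exact mul_le_one₀ h2 (apply_nonneg v _) h1

theorem logHw_dup' {k : ℕ → Fin 4 → K} (h : Hyp0 a d H) (hk : SeqN a d S T k) (n : ℕ) :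
    Hw H (k (n + 1)) = Hw H (dup a (k n)) := by
  obtain ⟨c, hc, he⟩ := hk.dbl n
  rw [he, Hw_smul hc (dup_ne h.dis_ne (hk.rep n).kum_eq (hk.rep n).ne_zero)]

theorem seq_low' {k : ℕ → Fin 4 → K} (h : Hyp0 a d H) (hk : SeqN a d S T k) (n : ℕ) :
    4 * Real.log (Hw H (k n)) + Real.log (loss a H S) ≤ Real.log (Hw H (k (n + 1))) := by
  have h1 := step_low' h.one_le a h.int h.size h.dis_ne S (hk.rep n).ne_zero (hk.rep n).kum_eq
    (hk.noloss n)
  have h2 := (h.loss_pos S)
  have h3 := Hw_pos (H := H) h.pos (hk.rep n).ne_zero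
  rw [logHw_dup' h hk]
  have h4 := Real.log_le_log (by positivity) h1
  rw [Real.log_mul h2.ne' (by positivity), Real.log_pow] at h4
  push_cast at h4
  linarith

theorem seq_up' {k : ℕ → Fin 4 → K} (h : Hyp0 a d H) (hk : SeqN a d S T k) (n : ℕ) :
    Real.log (Hw H (k (n + 1))) ≤
      4 * Real.log (Hw H (k n)) + Real.log CC * Module.finrank ℚ K := by
  have h1 := step_up h.one_le a h.int h.size h.dis_ne (hk.rep n).ne_zero (hk.rep n).kum_eq
  have h2 : 0 < ∏ v : InfinitePlace K, CC ^ v.mult :=
    Finset.prod_pos fun v _ => pow_pos (by linarith [one_le_CC]) _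
  have h3 := Hw_pos (H := H) h.pos (hk.rep n).ne_zero
  have h5 := Hw_pos (H := H) h.pos (hk.rep (n + 1)).ne_zero
  rw [logHw_dup' h hk] at h5 ⊢
  have h4 := Real.log_le_log h5 h1
  rw [Real.log_mul h2.ne' (by positivity), Real.log_pow, CC_prod] at h4
  push_cast at h4
  linarith

theorem seq_start' {k : ℕ → Fin 4 → K} (h : Hyp0 a d H) (hk : SeqN a d S T k)
    (h01 : k 1 0 ≠ 0 ∨ k 1 1 ≠ 0) :
    2 * logH H + ∑ v ∈ T, Real.log (qq v) ≤ Real.log (Hw H (k 1)) := by
  have hq : ∀ v : FinitePlace K, 0 < qq v := fun v => by linarith [one_lt_qq v]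
  have key : (∏ v : InfinitePlace K, (H v ^ 2) ^ v.mult) * ∏ v ∈ T, qq v ≤ Hw H (k 1) := by
    obtain ⟨c, hc, he⟩ := hk.dbl 0
    rw [zero_add] at he
    rw [logHw_dup' h hk 0]
    rcases h01 with h0 | h0
    · refine start_low' h.one_le a h.dis_ne T (hk.rep 0).ne_zero (hk.rep 0).kum_eq 0 (by simp)
        (fun v hv => hk.odd v hv 0) ?_
      intro h1
      apply h0
      rw [he]
      beta_reduce
      have : dup a (k 0) 0 = 0 := h1
      rw [this, mul_zero]
    · refine start_low' h.one_le a h.dis_ne T (hk.rep 0).ne_zero (hk.rep 0).kum_eq 1 (by simp)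
        (fun v hv => hk.odd v hv 1) ?_
      intro h1
      apply h0
      rw [he]
      beta_reduce
      have : dup a (k 0) 1 = 0 := h1
      rw [this, mul_zero]
  have h2 : 0 < ∏ v : InfinitePlace K, (H v ^ 2) ^ v.mult :=
    Finset.prod_pos fun v _ => by
      have := h.pos v
      positivity
  have h3 : 0 < ∏ v ∈ T, qq v := Finset.prod_pos fun v _ => hq v
  have h4 := Real.log_le_log (mul_pos h2 h3) key
  rw [Real.log_mul h2.ne' h3.ne', Real.log_prod fun v _ => (hq v).ne',
    logHw_eq fun v => pow_pos (h.pos v) _] at h4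
  have e : ∑ v : InfinitePlace K, v.mult * Real.log (H v ^ 2) = 2 * logH H := by
    rw [logH, Finset.mul_sum]
    refine Finset.sum_congr rfl fun v _ => ?_
    rw [Real.log_pow]
    push_cast
    ring
  rw [e] at h4
  exact h4

theorem seq_iter' {k : ℕ → Fin 4 → K} (h : Hyp0 a d H) (hk : SeqN a d S T k)
    (h01 : k 1 0 ≠ 0 ∨ k 1 1 ≠ 0) (n : ℕ) :
    4 ^ n * (2 * logH H + ∑ v ∈ T, Real.log (qq v) - (NN / 3) * defect a H S -
      (Real.log CC / 3) * Module.finrank ℚ K) ≤ Real.log (Hw H (k (n + 1))) := by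
  have hB : 0 ≤ -Real.log (loss a H S) := by
    have := Real.log_nonpos (h.loss_pos S).le (h.loss_le S (hk.rep 0))
    linarith
  have key : ∀ n : ℕ, 4 ^ n * (2 * logH H + ∑ v ∈ T, Real.log (qq v) +
      Real.log (loss a H S) / 3) - Real.log (loss a H S) / 3 ≤ Real.log (Hw H (k (n + 1))) := by
    intro n
    induction n with
    | zero =>
      have := seq_start' h hk h01
      simp only [pow_zero, one_mul, zero_add]
      linarith
    | succ n ih =>
      have := seq_low' h hk (n + 1)
      rw [pow_succ]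
      linarith
  have h1 := key n
  have h2 := (h.log_loss S)
  have e : 2 * logH H + ∑ v ∈ T, Real.log (qq v) - (NN / 3) * defect a H S -
      (Real.log CC / 3) * Module.finrank ℚ K = 2 * logH H + ∑ v ∈ T, Real.log (qq v) +
      Real.log (loss a H S) / 3 := by linarith
  rw [e]
  linarith

theorem seq_height_low' {k : ℕ → Fin 4 → K} (h : Hyp0 a d H) (hk : SeqN a d S T k) (n : ℕ) :
    Real.log (Hw H (k n)) ≤ Height.logHeight (k n) + 3 * logH H := by
  have h1 := Hw_le (H := H) h.one_le (hk.rep n).ne_zero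
  have h2 := Real.log_le_log (Hw_pos h.pos (hk.rep n).ne_zero) h1
  have h3 : 0 < ∏ v : InfinitePlace K, (H v ^ 3) ^ v.mult :=
    Finset.prod_pos fun v _ => by
      have := h.pos v
      positivity
  rw [Real.log_mul (Height.mulHeight_pos _).ne' h3.ne', logHw_eq fun v => pow_pos (h.pos v) _] at h2
  have e : ∑ v : InfinitePlace K, v.mult * Real.log (H v ^ 3) = 3 * logH H := by
    rw [logH, Finset.mul_sum]
    refine Finset.sum_congr rfl fun v _ => ?_
    rw [Real.log_pow]
    push_cast
    ring
  rw [e] at h2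
  exact h2

theorem seq_height_up' {k : ℕ → Fin 4 → K} (h : Hyp0 a d H) (hk : SeqN a d S T k) (n : ℕ) :
    Height.logHeight (k n) ≤ Real.log (Hw H (k n)) :=
  Real.log_le_log (Height.mulHeight_pos _) (le_Hw h.one_le (hk.rep n).ne_zero)

/-- the limit -/
theorem seq_limit' {k : ℕ → Fin 4 → K} (h : Hyp0 a d H) (hk : SeqN a d S T k) :
    ∃ c : ℝ, Tendsto (fun n => Height.logHeight (k n) / 4 ^ n) atTop (𝓝 c) := by
  let x : ℕ → ℝ := fun n => Real.log (Hw H (k n)) / 4 ^ n
  set M := max (-Real.log (loss a H S)) (Real.log CC * Module.finrank ℚ K) with hM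
  have hx : ∀ n, dist (x n) (x (n + 1)) ≤ (M / 4) * (1 / 4) ^ n := by
    intro n
    have h1 := seq_low' h hk n
    have h2 := seq_up' h hk n
    have h3 : -Real.log (loss a H S) ≤ M := le_max_left _ _
    have h4 : Real.log CC * Module.finrank ℚ K ≤ M := le_max_right _ _
    have e : x n - x (n + 1) =
        (4 * Real.log (Hw H (k n)) - Real.log (Hw H (k (n + 1)))) / 4 ^ (n + 1) := by
      simp only [x]
      rw [pow_succ]
      field_simp
    rw [Real.dist_eq, e, abs_div, abs_of_pos (by positivity : (0 : ℝ) < 4 ^ (n + 1)),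
      div_le_iff₀ (by positivity)]
    have e2 : M / 4 * (1 / 4) ^ n * 4 ^ (n + 1) = M := by
      rw [pow_succ, one_div, inv_pow]
      field_simp
    rw [e2, abs_le]
    constructor <;> linarith
  have hc := cauchySeq_of_le_geometric (1 / 4) (M / 4) (by norm_num) hx
  obtain ⟨c, hc⟩ := cauchySeq_tendsto_of_complete hc
  refine ⟨c, ?_⟩
  have h0 : Tendsto (fun n : ℕ => 3 * logH H * (1 / 4 : ℝ) ^ n) atTop (𝓝 0) := by
    have := (tendsto_pow_atTop_nhds_zero_of_lt_one (r := (1 / 4 : ℝ)) (by norm_num)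
      (by norm_num)).const_mul (3 * logH H)
    rwa [mul_zero] at this
  have h1 : Tendsto (fun n => x n - 3 * logH H * (1 / 4 : ℝ) ^ n) atTop (𝓝 c) := by
    have := hc.sub h0
    rwa [sub_zero] at this
  refine tendsto_of_tendsto_of_tendsto_of_le_of_le h1 hc ?_ ?_
  · intro n
    have h2 := seq_height_low' h hk n
    simp only [x]
    rw [one_div, inv_pow, ← div_eq_mul_inv, ← sub_div]
    apply div_le_div_of_nonneg_right _ (by positivity)
    linarith
  · intro n
    exact div_le_div_of_nonneg_right (seq_height_up' h hk n) (by positivity)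

theorem seq_main' {k : ℕ → Fin 4 → K} (h : Hyp0 a d H) (hk : SeqN a d S T k)
    (h01 : k 1 0 ≠ 0 ∨ k 1 1 ≠ 0) :
    ∃ c : ℝ, Tendsto (fun n => Height.logHeight (k n) / 4 ^ n) atTop (𝓝 c) ∧
      (2 * logH H + ∑ v ∈ T, Real.log (qq v) - (NN / 3) * defect a H S -
        (Real.log CC / 3) * Module.finrank ℚ K) / 4 ≤ c := by
  obtain ⟨c, hc⟩ := seq_limit' h hk
  refine ⟨c, hc, ?_⟩
  set L := 2 * logH H + ∑ v ∈ T, Real.log (qq v) - (NN / 3) * defect a H S -
        (Real.log CC / 3) * Module.finrank ℚ K with hL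
  have h0 : Tendsto (fun n : ℕ => L / 4 - 3 * logH H * (1 / 4 : ℝ) ^ n) atTop (𝓝 (L / 4)) := by
    have := (tendsto_pow_atTop_nhds_zero_of_lt_one (r := (1 / 4 : ℝ)) (by norm_num)
      (by norm_num)).const_mul (3 * logH H)
    rw [mul_zero] at this
    have := (tendsto_const_nhds (x := L / 4)).sub this
    rwa [sub_zero] at this
  refine le_of_tendsto_of_tendsto h0 hc ?_
  filter_upwards [eventually_ge_atTop 1] with n hn
  obtain ⟨m, rfl⟩ := Nat.exists_eq_add_of_le' hn
  have h1 := seq_iter' h hk h01 m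
  have h2 := seq_height_low' h hk (m + 1)
  rw [one_div, inv_pow, ← div_eq_mul_inv, le_div_iff₀ (by positivity), sub_mul,
    div_mul_cancel₀ _ (by positivity)]
  rw [← hL] at h1
  have e : L / 4 * 4 ^ (m + 1) = 4 ^ m * L := by
    rw [pow_succ]
    ring
  rw [e]
  linarith

end Run7.h929.G3
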