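import Pool.Agent.Run7.h929.G3.Resid
import Pool.Agent.Run7.h929.G3.Iface

/-!
# Tools for the duplication at a node
-/

set_option autoImplicit false

namespace Run7.h929.G3

open Polynomial Run7.h929.G2

section field
variable {F : Type} [Field F]

/-- a common zero of `u`, `w` and `e p` -/
theorem common_zero [IsAlgClosed F] (h2 : (2 : F) ≠ 0) (E S T V1 V0 W2 W1 W0 : F)
    (hD : (E ≠ 0 ∧ ∀ i, dup (co E S T V1 V0 W2 W1 W0) (kv S T W2 W0) i = 0) ∨
      (E = 0 ∧ D3 (co E S T V1 V0 W2 W1 W0) (kv S T W2 W0) = 0)) :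
    ∃ x : F, x ^ 2 - S * x + T = 0 ∧ x ^ 3 + W2 * x ^ 2 + W1 * x + W0 = 0 ∧
      E * (V1 * x + V0) = 0 := by
  -- a common zero from the resultant
  have res : rw' S T W2 W1 W0 = 0 → ∃ x : F, x ^ 2 - S * x + T = 0 ∧
      x ^ 3 + W2 * x ^ 2 + W1 * x + W0 = 0 := by
    intro h0
    obtain ⟨x1, hx1⟩ := IsAlgClosed.exists_root (qu S T) (by
      rw [degree_eq_natDegree (qu_monic S T).ne_zero, natDegree_qu]
      norm_num)
    have e1 : x1 ^ 2 - S * x1 + T = 0 := by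
      have := hx1
      simpa [qu, IsRoot] using this
    have e2 : (S - x1) ^ 2 - S * (S - x1) + T = 0 := by linear_combination e1
    have e3 : rw' S T W2 W1 W0 = (Wa S T W2 W1 * x1 + Wb S T W2 W0) *
        (Wa S T W2 W1 * (S - x1) + Wb S T W2 W0) := by
      simp only [rw']
      linear_combination (Wa S T W2 W1 ^ 2) * e1
    rw [e3] at h0
    rcases mul_eq_zero.1 h0 with h3 | h3
    · exact ⟨x1, e1, by rw [w_div S T, e1, h3]; ring⟩
    · exact ⟨S - x1, e2, by rw [w_div S T, e2, h3]; ring⟩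
  rcases hD with ⟨hE, hD⟩ | ⟨hE, hD⟩
  · have h4 : (4 : F) ≠ 0 := by
      have : (4 : F) = 2 * 2 := by norm_num
      rw [this]
      exact mul_ne_zero h2 h2
    have h16 := sixteen h2
    have e0 : D0 (co E S T V1 V0 W2 W1 W0) (kv S T W2 W0) = 0 := hD 0
    have e1 : D1 (co E S T V1 V0 W2 W1 W0) (kv S T W2 W0) = 0 := hD 1
    have e3 : D3 (co E S T V1 V0 W2 W1 W0) (kv S T W2 W0) = 0 := hD 3
    rw [D0_co] at e0
    have hvw : vw S T V1 V0 W2 W1 W0 = 0 := by
      rcases mul_eq_zero.1 e0 with h | h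
      · exact absurd h (mul_ne_zero h4 hE)
      · exact pow_eq_zero_iff (two_ne_zero) |>.1 h
    rw [D1_co, hvw] at e1
    have hrv : rv S T V1 V0 = 0 := by
      have : 16 * E ^ 2 * rv S T V1 V0 ^ 2 = 0 := by linear_combination e1
      rcases mul_eq_zero.1 this with h | h
      · exact absurd h (mul_ne_zero h16 (pow_ne_zero _ hE))
      · exact pow_eq_zero_iff (two_ne_zero) |>.1 h
    by_cases hv : V1 = 0
    · have hv0 : V0 = 0 := by
        have : V0 ^ 2 = 0 := by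
          rw [hv] at hrv
          simpa [rv] using hrv
        exact pow_eq_zero_iff (two_ne_zero) |>.1 this
      rw [hv, hv0, D3_co_zero] at e3
      obtain ⟨x, hx1, hx2⟩ := res (pow_eq_zero_iff (two_ne_zero) |>.1 e3)
      exact ⟨x, hx1, hx2, by rw [hv, hv0]; ring⟩
    · have hu : (-V0 / V1) ^ 2 - S * (-V0 / V1) + T = 0 := by
        have : (-V0 / V1) ^ 2 - S * (-V0 / V1) + T = rv S T V1 V0 / V1 ^ 2 := by
          simp only [rv]
          field_simp
          ring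
        rw [this, hrv, zero_div]
      have hw : Wa S T W2 W1 * (-V0 / V1) + Wb S T W2 W0 = 0 := by
        have : Wa S T W2 W1 * (-V0 / V1) + Wb S T W2 W0 = vw S T V1 V0 W2 W1 W0 / V1 := by
          simp only [vw]
          field_simp
          ring
        rw [this, hvw, zero_div]
      refine ⟨-V0 / V1, hu, ?_, ?_⟩
      · rw [w_div S T, hu, hw]
        ring
      · field_simp
        ring
  · rw [hE, D3_co_zero'] at hD
    obtain ⟨x, hx1, hx2⟩ := res (pow_eq_zero_iff (two_ne_zero) |>.1 hD)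
    exact ⟨x, hx1, hx2, by rw [hE, zero_mul]⟩

end field

section
variable {K : Type} [Field K] {v : AbsoluteValue K ℝ} {h : IsNonarchimedean v} {a : Fin 5 → K}
  {r z e d : K} {q : ℝ}

theorem not_ram (he : v e = 1) (x : Prop) : (∀ x, v (z ^ 2 * e) ≠ v x ^ 2) → x := by
  intro h1
  exact absurd (by rw [map_mul, map_pow, he, mul_one]) (h1 z)

theorem sup_one {k : Fin 4 → K} (h1 : ∀ i, v (k i) ≤ 1) (h2 : ∃ i, v (k i) = 1) :
    (⨆ i, v (k i)) = 1 := by
  apply le_antisymm (sup4_le _ _ h1)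
  obtain ⟨i, hi⟩ := h2
  rw [← hi]
  exact le_sup4 (fun i => v (k i)) i

/-- the criterion for a normalized vector -/
theorem Kgood_of (hq : Discrete v q) {k : Fin 4 → K} (h1 : ∀ i, v (k i) ≤ 1)
    (h2 : ∃ i, v (k i) = 1) (h3 : ∃ i, v (dup a k i) = 1)
    (h4 : (∀ x, v d ≠ v x ^ 2) → ∀ i : Fin 3, v (dup a k i.castSucc) < 1) :
    Kgood v q a d k := by
  have hq0 : 0 < q := by linarith [hq.one_lt]
  obtain ⟨j, hj⟩ := h3
  have h5 : 1 ≤ ⨆ i, v (dup a k i) := by
    rw [← hj]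
    exact le_sup4 (fun i => v (dup a k i)) j
  constructor
  · rw [sup_one h1 h2, one_pow]
    exact h5
  · intro h6 i
    have h7 := hq.lt_one (h4 h6 i)
    calc q * v (dup a k i.castSucc) ≤ q * q⁻¹ := mul_le_mul_of_nonneg_left h7 hq0.le
      _ = 1 := mul_inv_cancel₀ hq0.ne'
      _ ≤ _ := h5

theorem Kgood.smul {k : Fin 4 → K} (hk : Kgood v q a d k) (t : K) :
    Kgood v q a d (fun i => t * k i) := by
  obtain ⟨h1, h2⟩ := hk
  have e1 : (⨆ i, v (dup a (fun i => t * k i) i)) = v t ^ 4 * ⨆ i, v (dup a k i) := by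
    rw [dup_smul, ← sup4_mul _ _ (pow_nonneg (v.nonneg _) _)]
    simp only [map_mul, map_pow]
  have e2 : (⨆ i, v (t * k i)) = v t * ⨆ i, v (k i) := by
    rw [← sup4_mul _ _ (v.nonneg _)]
    simp only [map_mul]
  constructor
  · rw [e1, e2, mul_pow]
    exact mul_le_mul_of_nonneg_left h1 (pow_nonneg (v.nonneg _) _)
  · intro h3 i
    rw [e1]
    have h4 : dup a (fun i => t * k i) i.castSucc = t ^ 4 * dup a k i.castSucc := by
      rw [dup_smul]
    rw [h4, map_mul, map_pow]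
    calc q * (v t ^ 4 * v (dup a k i.castSucc)) = v t ^ 4 * (q * v (dup a k i.castSucc)) := by ring
      _ ≤ _ := mul_le_mul_of_nonneg_left (h2 h3 i) (pow_nonneg (v.nonneg _) _)

theorem Kgood.smul_iff {k : Fin 4 → K} {t : K} (ht : t ≠ 0)
    (hk : Kgood v q a d (fun i => t * k i)) : Kgood v q a d k := by
  have h1 := hk.smul t⁻¹
  have h2 : (fun i => t⁻¹ * (t * k i)) = k := by
    funext i
    field_simp
  rwa [h2] at h1

/-- vectors which are `(0, 0, 0, 1)` modulo `v` -/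
theorem Kgood_zero (h : IsNonarchimedean v) (hq : Discrete v q) (ha : ∀ i, v (a i) ≤ 1)
    {k : Fin 4 → K} (hk : kum a k = 0)
    (h0 : v (k 0) < 1) (h1 : v (k 1) < 1) (hmax : ∀ i, v (k i) ≤ 1) (hex : ∃ i, v (k i) = 1) :
    Kgood v q a d k := by
  let a' : Fin 5 → OO v h := fun i => ⟨a i, ha i⟩
  let k' : Fin 4 → OO v h := fun i => ⟨k i, hmax i⟩
  have hkum : kum a' k' = 0 := sub_hom_kum a' k' hk
  have hdup : ∀ i, ww (dup a' k' i) = v (dup a k i) := fun i => sub_hom_dup a' k' i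
  obtain ⟨h3, h4⟩ := case3 hq a' k' hkum h0 h1 hex
  exact Kgood_of hq hmax hex ⟨3, by rw [← hdup]; exact h3⟩ fun _ i => by
    rw [← hdup]
    exact h4 i

theorem quin_co (E s t V1 V0 w2 w1 w0 : K) : quin (co E s t V1 V0 w2 w1 w0) =
    C E * lin V1 V0 ^ 2 + qu s t * qw w2 w1 w0 := by
  have h2 : (C 2 : K[X]) = 2 := map_ofNat C 2
  simp [quin, co, lin, qu, qw, h2]
  ring

theorem two_res {F : Type} [Field F] {φ : OO v h →+* F} (hφ : ∀ x, φ x = 0 ↔ ww x < 1)
    (h2 : v 2 = 1) : (2 : F) ≠ 0 := by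
  intro h0
  have h1 : φ 2 = 0 := by
    rw [map_ofNat]
    exact h0
  rw [hφ] at h1
  change v 2 < 1 at h1
  rw [h2] at h1
  exact lt_irrefl _ h1

theorem Intg.qu (h : IsNonarchimedean v) {s t : K} (hs : v s ≤ 1) (ht : v t ≤ 1) :
    Intg v (qu s t) := by
  rw [G2.qu]
  exact ((Intg.xx.pow h 2).sub h ((Intg.cst hs).mul h Intg.xx)).add h (Intg.cst ht)

theorem Intg.qw (h : IsNonarchimedean v) {w2 w1 w0 : K} (h2 : v w2 ≤ 1) (h1 : v w1 ≤ 1)
    (h0 : v w0 ≤ 1) : Intg v (qw w2 w1 w0) := by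
  rw [G2.qw]
  exact (((Intg.xx.pow h 3).add h ((Intg.cst h2).mul h (Intg.xx.pow h 2))).add h
    ((Intg.cst h1).mul h Intg.xx)).add h (Intg.cst h0)

theorem Intg.lin (h : IsNonarchimedean v) {v1 v0 : K} (h1 : v v1 ≤ 1) (h0 : v v0 ≤ 1) :
    Intg v (lin v1 v0) := by
  rw [G2.lin]
  exact ((Intg.cst h1).mul h Intg.xx).add h (Intg.cst h0)

/-- integrality from `|e x²| ≤ 1` -/
theorem int_of_e (hq : Discrete v q) (he : v e = 1 ∨ v e = q⁻¹) {x : K}
    (hx : v (e * x ^ 2) ≤ 1) : v x ≤ 1 := by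
  have hq0 : 0 < q := by linarith [hq.one_lt]
  have h4 : q⁻¹ ≤ v e := by
    rcases he with h1 | h1
    · rw [h1]
      exact (inv_lt_one_of_one_lt₀ hq.one_lt).le
    · exact h1.ge
  apply hq.int_of_sq
  rw [map_mul, map_pow] at hx
  have h5 : q⁻¹ * v x ^ 2 ≤ 1 := (mul_le_mul_of_nonneg_right h4 (sq_nonneg _)).trans hx
  have h6 : v x ^ 2 ≤ q := by
    rw [inv_mul_le_iff₀ hq0, mul_one] at h5
    exact h5
  nlinarith [hq.one_lt]

end

end Run7.h929.G3
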