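import Pool.Agent.Run7.h929.G3.Cube

/-!
# The sixth power of a class
-/

set_option autoImplicit false

namespace Run7.h929.G3

open Polynomial Run7.h929.G2

section
variable {K : Type} [Field K] {v : AbsoluteValue K ℝ} {h : IsNonarchimedean v} {a : Fin 5 → K}
  {r z e : K} {u p w : K[X]} {q : ℝ}

theorem Discrete.lt_pow (hq : Discrete v q) {x : K} {n : ℕ} (hx : v x < q⁻¹ ^ n) :
    v x ≤ q⁻¹ ^ (n + 1) := by
  have hq0 : 0 < q := by linarith [hq.one_lt]
  by_cases h0 : x = 0
  · rw [h0, map_zero]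
    positivity
  · obtain ⟨m, hm⟩ := hq.val x h0
    have e1 : ∀ k : ℕ, q⁻¹ ^ k = q ^ (-(k : ℤ)) := fun k => by
      rw [zpow_neg, zpow_natCast, inv_pow]
    rw [hm, e1] at hx ⊢
    have h1 : m < -(n : ℤ) := by
      by_contra h2
      push Not at h2
      exact absurd hx (not_lt.2 (zpow_le_zpow_right₀ hq.one_lt.le h2))
    exact zpow_le_zpow_right₀ hq.one_lt.le (by push_cast; omega)

theorem Discrete.no_half3 (hq : Discrete v q) (x : K) : v x ^ 2 ≠ q⁻¹ ^ 3 := by
  intro h1
  have hq0 : 0 < q := by linarith [hq.one_lt]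
  obtain ⟨π, hπ⟩ := hq.uni
  apply hq.no_half (x / π)
  rw [map_div₀, hπ, div_pow, h1]
  field_simp

theorem Discrete.half_sq (hq : Discrete v q) {x : K} (hx : v x ^ 2 < q⁻¹ ^ 3) :
    v x ≤ q⁻¹ ^ 2 := by
  have hq0 : 0 < q := by linarith [hq.one_lt]
  have h1 : q⁻¹ < 1 := inv_lt_one_of_one_lt₀ hq.one_lt
  have h0 : 0 < q⁻¹ := inv_pos.2 hq0
  apply Discrete.lt_pow hq
  rw [pow_one]
  by_contra h2
  push Not at h2
  have h3 : q⁻¹ ^ 2 ≤ v x ^ 2 := pow_le_pow_left₀ h0.le h2 2
  have h4 : q⁻¹ ^ 3 < q⁻¹ ^ 2 := pow_lt_pow_right_of_lt_one₀ h0 h1 (by norm_num)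
  linarith

theorem Tri.swap (T : Tri v a e u p w) : Tri v a e w (-p) u where
  u_int := T.w_int
  p_int := T.p_int.neg
  w_int := T.u_int
  eq := by
    rw [T.eq]
    ring

theorem Same_swap (hz : z ≠ 0) (he : e ≠ 0) (T : Tri v a e u p w) :
    Same (TI a z e w (-p)) (TI a z e u p) := by
  have hodd : Odd (quin a).natDegree := by
    rw [natDegree_quin]
    decide
  have hw := T.swap.u_ne hodd
  set g := gz a z e with hg
  set V : K[X] := C (z * e) * p with hV
  have hd : z ^ 2 * e ≠ 0 := mul_ne_zero (pow_ne_zero _ hz) he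
  have e1 : TI a z e w (-p) = MI g (C (z ^ 2 * e) * w) (-V) := by
    rw [MI_unit hd, TI, hV, mul_neg]
  rw [e1]
  have e2 : io g g = io g V ^ 2 + io g u * io g (C (z ^ 2 * e) * w) := by
    rw [← map_pow, ← map_mul, ← map_add]
    congr 1
    rw [hg, gz, rhs, T.eq, hV]
    simp only [map_mul, map_pow]
    ring
  refine ⟨yy g - io g V, io g (C (z ^ 2 * e) * w), ?_, ?_, ?_⟩
  · intro h0
    have := congrArg QuadraticAlgebra.im h0
    simp [io, yy] at this
  · intro h0
    apply mul_ne_zero (C_ne_zero.2 hd) hw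
    apply io_inj (g := g)
    rw [h0, map_zero]
  · rw [TI, MI, MI, single_mul_pair, single_mul_pair]
    have e3 : (yy g - io g V) * (yy g - io g (-V)) = io g (C (z ^ 2 * e) * w) * io g u := by
      rw [map_neg]
      have := yy_sq (g := g)
      linear_combination this + e2
    rw [e3]
    rw [mul_comm (yy g - io g V)]
    exact Ideal.span_pair_comm

theorem TI_shift (c : K) : TI a z e u (p + C c * u) = TI a z e u p := by
  rw [TI, TI, MI, MI]
  apply pair_congr _ _ _ _ (io (gz a z e) (C (z * e) * C c))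
  rw [← map_sub, ← map_mul]
  congr 1
  ring

theorem Tri.shift (h : IsNonarchimedean v) (T : Tri v a e u p w) (he : v e ≤ 1) {c : K}
    (hc : v c ≤ 1) :
    Tri v a e u (p + C c * u) (w - 2 * C e * C c * p - C e * C c ^ 2 * u) where
  u_int := T.u_int
  p_int := T.p_int.add h ((Intg.cst hc).mul h T.u_int)
  w_int := by
    have h2i : Intg v (2 : K[X]) := Intg.ofNat h 2
    have hei : Intg v (C e : K[X]) := Intg.cst he
    have hci : Intg v (C c : K[X]) := Intg.cst hc
    exact (T.w_int.sub h (((h2i.mul h hei).mul h hci).mul h T.p_int)).sub h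
      ((hei.mul h (hci.pow h 2)).mul h T.u_int)
  eq := by
    rw [T.eq]
    ring

theorem GG_cube' [CharZero K] (hN : Node v h a r) (hq : Discrete v q) (h2 : v 2 = 1) (hz : z ≠ 0)
    (he : v e = 1) (hdis : dis a ≠ 0) (T : Tri v a e u p w) (b1 : v (u.eval r) = q⁻¹)
    (b2 : v (w.eval r) < 1) (hf : v (fv a r) = q⁻¹ ^ 3) : GG v r ((TI a z e u p) ^ 3) := by
  have hq0 : 0 < q⁻¹ := inv_pos.2 (by linarith [hq.one_lt])
  have hq1 : q⁻¹ < 1 := inv_lt_one_of_one_lt₀ hq.one_lt
  have hr := hN.r_int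
  have he0 : e ≠ 0 := e_ne hq.one_lt (Or.inl he)
  have hcu : u.eval r ≠ 0 := by
    intro h0
    rw [h0, map_zero] at b1
    exact hq0.ne b1
  have hp1 : v (p.eval r) < 1 := by
    have h3 : e * p.eval r ^ 2 = fv a r - u.eval r * w.eval r := by
      rw [fv_tri T r]
      ring
    have h4 : v (e * p.eval r ^ 2) < 1 := by
      rw [h3]
      refine (na_sub h _ _).trans_lt (max_lt hN.f_lt ?_)
      rw [map_mul, b1]
      nlinarith [v.nonneg (w.eval r)]
    rw [map_mul, he, one_mul, map_pow] at h4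
    by_contra h5
    push Not at h5
    exact absurd h4 (not_lt.2 (one_le_pow₀ h5))
  set c : K := -(p.eval r) / u.eval r with hc
  have hc1 : v c ≤ 1 := by
    rw [hc, map_div₀, v.map_neg, b1, div_le_one hq0]
    exact hq.lt_one hp1
  have T' := T.shift h he.le hc1
  have hcc : c * u.eval r = -(p.eval r) := by
    rw [hc, div_mul_cancel₀ _ hcu]
  have hp' : (p + C c * u).eval r = 0 := by
    rw [eval_add, eval_mul, eval_C, hcc]
    ring
  rw [← TI_shift c]
  set p' := p + C c * u with hp'def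
  set w' := w - 2 * C e * C c * p - C e * C c ^ 2 * u with hw'def
  have hfv := fv_tri T' r
  rw [hp'] at hfv
  have hw' : v (w'.eval r) = q⁻¹ ^ 2 := by
    have h3 : fv a r = u.eval r * w'.eval r := by
      rw [hfv]
      ring
    rw [h3, map_mul, b1] at hf
    have h4 : q⁻¹ * v (w'.eval r) = q⁻¹ * q⁻¹ ^ 2 := by
      rw [hf]
      ring
    exact mul_left_cancel₀ hq0.ne' h4
  have hfd := fd_tri T' r
  rw [hp'] at hfd
  have hom : v ((w' /ₘ (X - C r)).eval r) ≤ v (u.eval r) := by
    have h3 : (w' /ₘ (X - C r)).eval r * u.eval r =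
        fd a r - (u /ₘ (X - C r)).eval r * w'.eval r := by
      rw [hfd]
      ring
    have h4 : v (fd a r) ≤ q⁻¹ ^ 2 := by
      apply Discrete.half_sq hq
      have := hN.fd_lt
      rwa [hf] at this
    have h5 : v ((w' /ₘ (X - C r)).eval r * u.eval r) ≤ q⁻¹ ^ 2 := by
      rw [h3]
      refine (na_sub h _ _).trans (max_le h4 ?_)
      rw [map_mul, hw']
      exact mul_le_of_le_one_left (by positivity) ((T.u_int.div h hr).eval h hr)
    rw [map_mul, b1] at h5
    rw [b1]
    have h6 : v ((w' /ₘ (X - C r)).eval r) * q⁻¹ ≤ q⁻¹ * q⁻¹ := by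
      rw [← pow_two]
      exact h5
    exact le_of_mul_le_mul_right h6 hq0
  have hg2 := g2_unit hN h2 T' (by rw [b1]; exact hq1)
    (by rw [hw']; exact pow_lt_one₀ hq0.le hq1 (by norm_num)) (by
      rw [hp', mul_zero, map_zero]
      exact zero_lt_one)
  have hP : v ((p' /ₘ (X - C r)).eval r) = 1 := by
    have h3 : v ((u /ₘ (X - C r)).eval r * (w' /ₘ (X - C r)).eval r) < 1 := by
      rw [map_mul]
      refine (mul_le_of_le_one_left (v.nonneg _) ((T.u_int.div h hr).eval h hr)).trans_lt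
        (hom.trans_lt ?_)
      rw [b1]
      exact hq1
    have h4 : v (e * (p' /ₘ (X - C r)).eval r ^ 2) = 1 := by
      rw [← hg2]
      have h5 : e * (p' /ₘ (X - C r)).eval r ^ 2 =
          -((u /ₘ (X - C r)).eval r * (w' /ₘ (X - C r)).eval r) +
          (e * (p' /ₘ (X - C r)).eval r ^ 2 +
            (u /ₘ (X - C r)).eval r * (w' /ₘ (X - C r)).eval r) := by ring
      rw [h5, v_add_eq h]
      · ring_nf
      · rw [hg2, v.map_neg]
        exact h3
    rw [map_mul, he, one_mul, map_pow] at h4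
    exact (pow_eq_one_iff_of_nonneg (v.nonneg _) (by norm_num)).1 h4
  refine cube_core h h2 hz he hdis hr T' hp' hcu (by rw [b1]; exact hq1) hom ?_ hP
  rw [hw', b1]

/-- the cube of a bad class of thickness three -/
theorem GG_cube [CharZero K] (hN : Node v h a r) (hq : Discrete v q) (h2 : v 2 = 1) (hz : z ≠ 0)
    (he : v e = 1) (hdis : dis a ≠ 0) (T : Tri v a e u p w) (b1 : v (u.eval r) < 1)
    (b2 : v (w.eval r) < 1) (hf : v (fv a r) = q⁻¹ ^ 3) : GG v r ((TI a z e u p) ^ 3) := by
  have hq0 : 0 < q⁻¹ := inv_pos.2 (by linarith [hq.one_lt])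
  have hq1 : q⁻¹ < 1 := inv_lt_one_of_one_lt₀ hq.one_lt
  have he0 : e ≠ 0 := e_ne hq.one_lt (Or.inl he)
  have hodd : Odd (gz a z e).natDegree := by
    rw [gz, natDegree_rhs (mul_ne_zero (pow_ne_zero _ hz) he0)]
    decide
  have b1' := hq.lt_one b1
  have b2' := hq.lt_one b2
  rcases b1'.lt_or_eq with c1 | c1
  · rcases b2'.lt_or_eq with c2 | c2
    · exfalso
      have d1 : v (u.eval r) ≤ q⁻¹ ^ 2 := Discrete.lt_pow hq (by rw [pow_one]; exact c1)
      have d2 : v (w.eval r) ≤ q⁻¹ ^ 2 := Discrete.lt_pow hq (by rw [pow_one]; exact c2)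
      have d3 : v (u.eval r * w.eval r) < q⁻¹ ^ 3 := by
        rw [map_mul]
        calc v (u.eval r) * v (w.eval r) ≤ q⁻¹ ^ 2 * q⁻¹ ^ 2 :=
              mul_le_mul d1 d2 (v.nonneg _) (by positivity)
          _ = q⁻¹ ^ 4 := by ring
          _ < q⁻¹ ^ 3 := pow_lt_pow_right_of_lt_one₀ hq0 hq1 (by norm_num)
      have d4 : v (e * p.eval r ^ 2) = q⁻¹ ^ 3 := by
        have h5 : e * p.eval r ^ 2 = -(u.eval r * w.eval r) + fv a r := by
          rw [fv_tri T r]
          ring
        rw [h5, v_add_eq h (by rw [hf, v.map_neg]; exact d3), hf]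
      rw [map_mul, he, one_mul, map_pow] at d4
      exact Discrete.no_half3 hq _ d4
    · have h5 := GG_cube' (h := h) hN hq h2 hz he hdis T.swap c2 b1 hf
      have := dom hodd
      exact h5.same hodd ((Same_swap hz he0 T).pow 3)
  · exact GG_cube' hN hq h2 hz he hdis T c1 b2 hf

/-- the sizes of the values at a node of a ramified twist -/
theorem size_tw (hN : Node v h a r) (hq : Discrete v q) (h2 : v 2 = 1) (he : v e = q⁻¹)
    (T : Tri v a e u p w) (b1 : v (u.eval r) < 1) (b2 : v (w.eval r) < 1) :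
    v (u.eval r) ^ 2 ≤ v (fv a r) ∧ v (w.eval r) ^ 2 ≤ v (fv a r) ∧
      v (e * p.eval r) ^ 2 ≤ v (fv a r) := by
  have hq0 : 0 < q⁻¹ := inv_pos.2 (by linarith [hq.one_lt])
  have hq1 : q⁻¹ < 1 := inv_lt_one_of_one_lt₀ hq.one_lt
  have hr := hN.r_int
  have b3 : v (e * p.eval r) < 1 := by
    rw [map_mul, he]
    exact (mul_le_of_le_one_right hq0.le (T.p_int.eval h hr)).trans_lt hq1
  have hg2 := g2_unit hN h2 T b1 b2 b3
  have hfd := fd_tri T r
  have hfv := fv_tri T r
  have i1 := (T.u_int.div h hr).eval h hr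
  have i2 := (T.p_int.div h hr).eval h hr
  have i3 := (T.w_int.div h hr).eval h hr
  set U1 := (u /ₘ (X - C r)).eval r with hU1
  set P1 := (p /ₘ (X - C r)).eval r with hP1
  set W1 := (w /ₘ (X - C r)).eval r with hW1
  set cu := u.eval r with hcu
  set cp := p.eval r with hcp
  set cw := w.eval r with hcw
  set c := fv a r with hc
  have hc0 : 0 < v c := lt_of_le_of_lt (sq_nonneg _) hN.fd_lt
  -- the units
  have hUW : v (U1 * W1) = 1 := by
    have h3 : v (-(e * P1 ^ 2)) < 1 := by
      rw [v.map_neg, map_mul, he, map_pow]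
      have : v P1 ^ 2 ≤ 1 := pow_le_one₀ (v.nonneg _) i2
      nlinarith
    have h4 : U1 * W1 = -(e * P1 ^ 2) + (e * P1 ^ 2 + U1 * W1) := by ring
    rw [h4, v_add_eq h (by rw [hg2]; exact h3), hg2]
  have hU : v U1 = 1 := by
    rw [map_mul] at hUW
    nlinarith [v.nonneg U1, v.nonneg W1]
  have hW : v W1 = 1 := by
    rw [map_mul, hU, one_mul] at hUW
    exact hUW
  set δ := v (e * cp ^ 2) with hδ
  have hδ' : δ = q⁻¹ * v cp ^ 2 := by rw [hδ, map_mul, he, map_pow]
  have hδ2 : v (e * cp) ^ 2 = q⁻¹ * δ := by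
    rw [hδ', map_mul, he]
    ring
  have hδ0 : 0 ≤ δ := v.nonneg _
  have key : v cu ^ 2 ≤ v c ∧ v cw ^ 2 ≤ v c ∧ δ ≤ v c := by
    by_cases hne : v cu = v cw
    · -- equal sizes
      have h3 : v (cu * cw) ≠ δ := by
        rw [map_mul, ← hne, hδ']
        intro h4
        by_cases hcp0 : cp = 0
        · rw [hcp0, map_zero] at h4
          have h5 : v cu = 0 := by nlinarith [v.nonneg cu]
          have h6 : v c = 0 := by
            have h7 : cu = 0 := (map_eq_zero v).1 h5
            rw [hfv, hcp0, h7]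
            simp
          exact hc0.ne' h6
        · apply hq.no_half (cu / cp)
          have h8 : 0 < v cp := v.pos hcp0
          rw [map_div₀, div_pow, pow_two (v cu), h4]
          field_simp
      have h4 : v c = max δ (v (cu * cw)) := by
        rw [hfv, hδ]
        exact v_add_ne h h3.symm
      have h5 : v (cu * cw) = v cu ^ 2 := by rw [map_mul, ← hne, pow_two]
      rw [h5] at h4
      refine ⟨?_, ?_, ?_⟩
      · rw [h4]
        exact le_max_right _ _
      · rw [h4, ← hne]
        exact le_max_right _ _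
      · rw [h4]
        exact le_max_left _ _
    · have h3 : v (U1 * cw) ≠ v (W1 * cu) := by
        rw [map_mul, map_mul, hU, hW, one_mul, one_mul]
        exact fun h4 => hne h4.symm
      have h4 : max (v cw) (v cu) = v (U1 * cw + W1 * cu) := by
        rw [v_add_ne h h3, map_mul, map_mul, hU, hW, one_mul, one_mul]
      have h5 : U1 * cw + W1 * cu = fd a r - 2 * e * cp * P1 := by
        rw [hfd]
        ring
      have h6 : v (2 * e * cp * P1) ≤ v (e * cp) := by
        have h7 : 2 * e * cp * P1 = 2 * (e * cp) * P1 := by ring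
        rw [h7, map_mul, map_mul, h2, one_mul]
        exact mul_le_of_le_one_right (v.nonneg _) i2
      have h7 : max (v cw) (v cu) ≤ max (v (fd a r)) (v (e * cp)) := by
        rw [h4, h5]
        exact (na_sub h _ _).trans (max_le_max le_rfl h6)
      have h8 : v cw ≤ max (v (fd a r)) (v (e * cp)) := (le_max_left _ _).trans h7
      have h9 : v cu ≤ max (v (fd a r)) (v (e * cp)) := (le_max_right _ _).trans h7
      -- the product is smaller
      have hmain : v (cu * cw) < v c ∧ v cu ^ 2 ≤ v c ∧ v cw ^ 2 ≤ v c ∨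
          v cu ^ 2 ≤ q⁻¹ * δ ∧ v cw ^ 2 ≤ q⁻¹ * δ := by
        rcases le_total (v (fd a r)) (v (e * cp)) with k1 | k1
        · right
          rw [max_eq_right k1] at h8 h9
          rw [← hδ2]
          exact ⟨pow_le_pow_left₀ (v.nonneg _) h9 2, pow_le_pow_left₀ (v.nonneg _) h8 2⟩
        · left
          rw [max_eq_left k1] at h8 h9
          have k2 : v cu ^ 2 ≤ v (fd a r) ^ 2 := pow_le_pow_left₀ (v.nonneg _) h9 2
          have k3 : v cw ^ 2 ≤ v (fd a r) ^ 2 := pow_le_pow_left₀ (v.nonneg _) h8 2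
          refine ⟨?_, (k2.trans_lt hN.fd_lt).le, (k3.trans_lt hN.fd_lt).le⟩
          rw [map_mul]
          refine lt_of_le_of_lt ?_ hN.fd_lt
          nlinarith [v.nonneg cu, v.nonneg cw, sq_nonneg (v cu - v cw)]
      rcases hmain with ⟨m1, m2, m3⟩ | ⟨m1, m2⟩
      · refine ⟨m2, m3, ?_⟩
        have h10 : e * cp ^ 2 = c - cu * cw := by
          rw [hfv]
          ring
        rw [hδ, h10]
        exact (na_sub h _ _).trans (max_le le_rfl m1.le)
      · have h10 : v (cu * cw) ≤ q⁻¹ * δ := by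
          rw [map_mul]
          nlinarith [v.nonneg cu, v.nonneg cw, sq_nonneg (v cu - v cw)]
        have hδ1 : 0 < δ := by
          by_contra h11
          push Not at h11
          have h12 : δ = 0 := le_antisymm h11 hδ0
          have h13 : v c ≤ 0 := by
            rw [hfv]
            refine (h _ _).trans (max_le ?_ ?_)
            · rw [← hδ, h12]
            · rw [h12, mul_zero] at h10
              exact h10
          exact absurd hc0 (not_lt.2 h13)
        have h14 : q⁻¹ * δ < δ := by nlinarith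
        have h15 : v c = δ := by
          rw [hfv, v_add_eq' h (by rw [← hδ]; exact h10.trans_lt h14)]
        rw [h15]
        exact ⟨m1.trans h14.le, m2.trans h14.le, le_rfl⟩
  refine ⟨key.1, key.2.1, ?_⟩
  rw [hδ2]
  exact (mul_le_of_le_one_left hδ0 hq1.le).trans key.2.2

/-- the sixth power of every class is good, if the twist is ramified or the thickness is at most
three -/
theorem GG_six [CharZero K] (hc : Ctx v h q a r z e)
    (ht : v e = q⁻¹ ∨ q⁻¹ ^ 3 ≤ v (fv a r)) (T : Tri v a e u p w) :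
    GG v r ((TI a z e u p) ^ 6) := by
  have hN := hc.node
  have hq := hc.disc
  have hq0 : 0 < q⁻¹ := inv_pos.2 (by linarith [hq.one_lt])
  have hq1 : q⁻¹ < 1 := inv_lt_one_of_one_lt₀ hq.one_lt
  have he0 : e ≠ 0 := e_ne hq.one_lt hc.tw
  have he1 : v e ≤ 1 := by
    rcases hc.tw with h1 | h1
    · exact h1.le
    · rw [h1]
      exact hq1.le
  have hr := hN.r_int
  by_cases hbad : v (u.eval r) = 1 ∨ v (w.eval r) = 1
  · exact (GG_of_not_bad hc.z_ne he0 hc.dis_ne T hbad).pow h 6
  · push Not at hbad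
    have b1 : v (u.eval r) < 1 := lt_of_le_of_ne (T.u_int.eval h hr) hbad.1
    have b2 : v (w.eval r) < 1 := lt_of_le_of_ne (T.w_int.eval h hr) hbad.2
    have hsq : ∀ (_ : GG v r ((TI a z e u p) ^ 2)), GG v r ((TI a z e u p) ^ 6) := by
      intro h1
      have h2 := h1.pow h 3
      rwa [← pow_mul] at h2
    rcases hc.tw with he | he
    · -- untwisted
      have hc3 : q⁻¹ ^ 3 ≤ v (fv a r) := by
        rcases ht with h1 | h1
        · rw [he] at h1
          exact absurd h1.symm hq1.ne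
        · exact h1
      have b3 : v (p.eval r) < 1 := by
        have h3 : e * p.eval r ^ 2 = fv a r - u.eval r * w.eval r := by
          rw [fv_tri T r]
          ring
        have h4 : v (e * p.eval r ^ 2) < 1 := by
          rw [h3]
          refine (na_sub h _ _).trans_lt (max_lt hN.f_lt ?_)
          rw [map_mul]
          nlinarith [v.nonneg (w.eval r), v.nonneg (u.eval r)]
        rw [map_mul, he, one_mul, map_pow] at h4
        by_contra h5
        push Not at h5
        exact absurd h4 (not_lt.2 (one_le_pow₀ h5))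
      have c1 := hq.lt_one b1
      have c2 := hq.lt_one b2
      have c3 := hq.lt_one b3
      have hsm : ∀ x : K, v x ≤ q⁻¹ → v x ^ 2 ≤ q⁻¹ ^ 2 := fun x hx =>
        pow_le_pow_left₀ (v.nonneg _) hx 2
      have hf2 : v (fv a r) ≤ q⁻¹ ^ 2 := by
        rw [fv_tri T r]
        refine (h _ _).trans (max_le ?_ ?_)
        · rw [map_mul, he, one_mul, map_pow]
          exact hsm _ c3
        · rw [map_mul, pow_two]
          exact mul_le_mul c1 c2 (v.nonneg _) hq0.le
      rcases le_or_gt (q⁻¹ ^ 2) (v (fv a r)) with d1 | d1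
      · apply hsq
        refine GG_sq hN hc.two hc.z_ne he0 he1 hc.dis_ne T ((hsm _ c1).trans d1)
          ((hsm _ c2).trans d1) ?_
        rw [map_mul, he, one_mul]
        exact (hsm _ c3).trans d1
      · have d2 : v (fv a r) ≤ q⁻¹ ^ 3 := Discrete.lt_pow hq d1
        have d3 := le_antisymm d2 hc3
        have h2 := (GG_cube hN hq hc.two hc.z_ne he hc.dis_ne T b1 b2 d3).pow h 2
        rwa [← pow_mul] at h2
    · apply hsq
      obtain ⟨s1, s2, s3⟩ := size_tw hN hq hc.two he T b1 b2
      exact GG_sq hN hc.two hc.z_ne he0 he1 hc.dis_ne T s1 s2 s3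

end

end Run7.h929.G3
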