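import Pool.Agent.Run7.h929.G3.TripB
import Pool.Agent.Run7.h929.G3.Six

/-!
# The local theorem at a node
-/

set_option autoImplicit false

namespace Run7.h929.G3

open Polynomial Run7.h929.G2

section
variable {K : Type} [Field K] [CharZero K] {v : AbsoluteValue K ℝ} {h : IsNonarchimedean v}
  {a : Fin 5 → K} {r z e : K} {q : ℝ}

theorem concl_all (hc : Ctx v h q a r z e) {u V : K[X]} (hM : Mum (gz a z e) u V) :
    Concl v q a r z e u V := by
  have hN := hc.node
  have hq := hc.disc
  have he0 : e ≠ 0 := e_ne hq.one_lt hc.tw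
  have hd : z ^ 2 * e ≠ 0 := mul_ne_zero (pow_ne_zero _ hc.z_ne) he0
  rcases normal_form hd hM with ⟨hu, hV⟩ | ⟨x, y, hu, hV, hy⟩ |
    ⟨s, t, v1, v0, w2, w1, w0, hu, hV, ha⟩
  · rw [hu, hV]
    exact (tripD K v h q a r z e hc).1
  · rw [hu, hV]
    exact (tripD K v h q a r z e hc).2 x y hy
  · rw [hu, hV]
    by_cases hA : v s ≤ 1 ∧ v t ≤ 1 ∧ v (w0 + t * w2) ≤ 1
    · exact tripA K v h q a r z e hc s t v1 v0 w2 w1 w0 ha hA.1 hA.2.1 hA.2.2
    by_cases hB : 1 < v s ∧ v t ≤ v s ∧ v (w0 + t * w2) ≤ v s
    · exact tripB K v h q a r z e hc s t v1 v0 w2 w1 w0 ha hB.1 hB.2.1 hB.2.2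
    -- the remaining case
    have hkum : kum a (kv s t w2 w0) = 0 := by
      rw [ha]
      exact kum_co _ _ _ _ _ _ _ _
    have hkv : kv s t w2 w0 = ![1, s, t, -(w0 + t * w2)] := rfl
    set κ := w0 + t * w2 with hκ
    -- the third coordinate is not the only largest one
    have hsmall : ¬ (1 < v t ∧ v s < v t ∧ v κ ≤ v t) := by
      rintro ⟨g1, g2, g3⟩
      have ht0 : t ≠ 0 := by
        intro h0
        rw [h0, map_zero] at g1
        norm_num at g1
      have htp : 0 < v t := v.pos ht0
      have h1 : kum a (fun i => t⁻¹ * kv s t w2 w0 i) = 0 := by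
        rw [kum_smul, hkum, mul_zero]
      have h2 := third_small h hN.int h1 (by
        rw [hkv]
        simp only [Matrix.cons_val_zero, mul_one, map_inv₀]
        exact inv_lt_one_of_one_lt₀ g1) (by
        rw [hkv]
        simp only [Matrix.cons_val_one, Matrix.cons_val_zero, map_mul, map_inv₀]
        rw [inv_mul_lt_iff₀ htp, mul_one]
        exact g2) (by
        intro i
        rw [hkv, map_mul, map_inv₀, inv_mul_le_iff₀ htp, mul_one]
        fin_cases i
        · change v 1 ≤ v t
          rw [map_one]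
          exact g1.le
        · exact g2.le
        · exact le_rfl
        · change v (-κ) ≤ v t
          rw [v.map_neg]
          exact g3)
      have h3 : (t⁻¹ * kv s t w2 w0 2) = 1 := by
        rw [hkv]
        change t⁻¹ * t = 1
        exact inv_mul_cancel₀ ht0
      rw [h3, map_one] at h2
      exact lt_irrefl _ h2
    have key : 1 < v κ ∧ v s < v κ := by
      by_contra hcon
      have h1 : ¬ (v s ≤ 1 ∧ v t ≤ 1 ∧ v κ ≤ 1) := hA
      have h2 : ¬ (1 < v s ∧ v t ≤ v s ∧ v κ ≤ v s) := hB
      by_cases c1 : 1 < v κ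
      · have c2 : v κ ≤ v s := by
          by_contra c3
          push Not at c3
          exact hcon ⟨c1, c3⟩
        have c3 : 1 < v s := c1.trans_le c2
        have c4 : v s < v t := by
          by_contra c5
          push Not at c5
          exact h2 ⟨c3, c5, c2⟩
        exact hsmall ⟨c3.trans c4, c4, c2.trans c4.le⟩
      · push Not at c1
        by_cases c2 : 1 < v s
        · have c4 : v s < v t := by
            by_contra c5
            push Not at c5
            exact h2 ⟨c2, c5, c1.trans c2.le⟩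
          exact hsmall ⟨c2.trans c4, c4, c1.trans (c2.trans c4).le⟩
        · push Not at c2
          have c4 : 1 < v t := by
            by_contra c5
            push Not at c5
            exact h1 ⟨c2, c5, c1⟩
          exact hsmall ⟨c4, c2.trans_lt c4, c1.trans c4.le⟩
    exact tripC K v h q a r z e hc s t v1 v0 w2 w1 w0 ha key.1 key.2

/-- the duplication loses nothing at the points in good classes -/
theorem Kgood_of_GG (hc : Ctx v h q a r z e) {u V : K[X]} (hM : Mum (gz a z e) u V)
    (hG : GG v r (MI (gz a z e) u V)) : Kgood v q a (z ^ 2 * e) (kc a (z ^ 2 * e) u V) := by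
  rcases concl_all hc hM with ⟨-, h1⟩ | ⟨u', p, w, T, hu, hI, h1⟩
  · exact h1
  · apply h1
    rw [← hI] at hG
    exact bad K v h q a r z e hc u' p w T hu hG

/-- the sixth power of every class is good -/
theorem GG_six_mum (hc : Ctx v h q a r z e) (ht : v e = q⁻¹ ∨ q⁻¹ ^ 3 ≤ v (fv a r))
    {u V : K[X]} (hM : Mum (gz a z e) u V) : GG v r ((MI (gz a z e) u V) ^ 6) := by
  rcases concl_all hc hM with ⟨h1, -⟩ | ⟨u', p, w, T, hu, hI, -⟩
  · exact h1.pow h 6
  · rw [← hI]
    exact GG_six hc ht T

end

end Run7.h929.G3
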