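import Pool.Agent.Run7.h929.G3.NodeFin
import Pool.Agent.Run7.h929.G3.Loc
import Pool.Agent.Run7.h929.G3.Glob2
import Pool.Agent.Run7.h929.G3.Gen

/-!
# The lower bound at nodal places
-/

set_option autoImplicit false

namespace Run7.h929.G3

open Polynomial NumberField IsDedekindDomain Filter Topology Run7.h929.G2

variable {K : Type} [Field K] [NumberField K] {a : Fin 5 → K} {d : K} {H : InfinitePlace K → ℝ}
  {S T : Finset (FinitePlace K)}

/-- the places at which the sixth powers lose nothing -/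
def PlaceOK (a : Fin 5 → K) (d : K) (v : FinitePlace K) : Prop :=
  Good a d v ∨ (v 2 = 1 ∧ ((∀ z, v d ≠ v z ^ 2) ∨ (qq v)⁻¹ ^ 3 ≤ v (dis a)) ∧
    ∃ r, Node v.val (fin_nonarch v) a r ∧ v (dis a) ≤ v (fv a r))

/-- the places at which something is gained -/
def PlaceT (a : Fin 5 → K) (d : K) (v : FinitePlace K) : Prop :=
  v 2 = 1 ∧ (∀ z, v d ≠ v z ^ 2) ∧ (v (dis a) = 1 ∨ ∃ r, Node v.val (fin_nonarch v) a r)

theorem exists_ze (v : FinitePlace K) (hd : d ≠ 0) : ∃ z e : K, z ≠ 0 ∧ d = z ^ 2 * e ∧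
    (v e = 1 ∨ v e = (qq v)⁻¹) ∧ ((∀ z, v d ≠ v z ^ 2) → v e = (qq v)⁻¹) := by
  by_cases hev : ∃ z, v d = v z ^ 2
  · obtain ⟨z, hz⟩ := hev
    have hd0 : 0 < v d := FinitePlace.pos_iff.2 hd
    have hz0 : z ≠ 0 := by
      rintro rfl
      rw [hz, map_zero] at hd0
      norm_num at hd0
    have h1 : v (d / z ^ 2) = 1 := by
      rw [map_div₀, map_pow, ← hz, div_self hd0.ne']
    exact ⟨z, d / z ^ 2, hz0, by field_simp, Or.inl h1, fun h => absurd hz (h z)⟩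
  · push Not at hev
    obtain ⟨z, hz, h1⟩ := (fin_discrete v).odd hd hev
    exact ⟨z, d / z ^ 2, hz, by field_simp, Or.inr h1, fun _ => h1⟩

theorem GG_of_six (v : FinitePlace K) (hd : d ≠ 0) (hdis : dis a ≠ 0) (h2 : v 2 = 1)
    (ht : (∀ z, v d ≠ v z ^ 2) ∨ (qq v)⁻¹ ^ 3 ≤ v (dis a)) {r : K}
    (hN : Node v.val (fin_nonarch v) a r) (hr : v (dis a) ≤ v (fv a r) ∨ ∀ z, v d ≠ v z ^ 2)
    {u V u0 V0 : K[X]}
    (hM : Mum (rhs a d) u V) (hM0 : Mum (rhs a d) u0 V0) {m : ℕ}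
    (hs : Same (MI (rhs a d) u V) ((MI (rhs a d) u0 V0) ^ (6 * m))) :
    Kgood v.val (qq v) a d (kc a d u V) := by
  obtain ⟨z, e, hz, hde, he, hetw⟩ := exists_ze v hd
  have hc : Ctx v.val (fin_nonarch v) (qq v) a r z e := ⟨fin_discrete v, h2, hdis, hN, hz, he⟩
  have hg : gz a z e = rhs a d := by rw [gz, ← hde]
  have hodd : Odd (gz a z e).natDegree := by
    rw [hg, natDegree_rhs hd]
    decide
  rw [← hg] at hM hM0 hs
  have h1 : v.val e = (qq v)⁻¹ ∨ (qq v)⁻¹ ^ 3 ≤ v.val (fv a r) := by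
    rcases ht with h3 | h3
    · exact Or.inl (hetw h3)
    · rcases hr with h4 | h4
      · exact Or.inr (h3.trans h4)
      · exact Or.inl (hetw h4)
  have h3 := (GG_six_mum hc h1 hM0).pow (fin_nonarch v) m
  rw [← pow_mul] at h3
  have h4 := Kgood_of_GG hc hM (h3.same hodd hs.symm)
  rw [← hde] at h4
  exact h4

theorem noloss_of (v : FinitePlace K) (hd : d ≠ 0) (hdis : dis a ≠ 0)
    (ha : ∀ i, v (a i) ≤ 1) (hv : PlaceOK a d v)
    {u V u0 V0 : K[X]}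
    (hM : Mum (rhs a d) u V) (hM0 : Mum (rhs a d) u0 V0) {m : ℕ}
    (hs : Same (MI (rhs a d) u V) ((MI (rhs a d) u0 V0) ^ (6 * m))) :
    (⨆ i, v (kc a d u V i)) ^ 4 ≤ ⨆ i, v (dup a (kc a d u V) i) := by
  rcases hv with ⟨g1, g2, g3⟩ | ⟨g1, g2, r, hN, hr⟩
  · exact fin_good (v := v.val) (fin_nonarch v) (fin_discrete v) g1 a ha g2 d hd _
      (kc_rep hd hM) g3
  · exact (GG_of_six v hd hdis g1 g2 hN (Or.inl hr) hM hM0 hs).1

theorem gain_of (v : FinitePlace K) (hd : d ≠ 0) (hdis : dis a ≠ 0)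
    (ha : ∀ i, v (a i) ≤ 1) (hv : PlaceT a d v)
    {u V u0 V0 : K[X]}
    (hM : Mum (rhs a d) u V) (hM0 : Mum (rhs a d) u0 V0) {m : ℕ}
    (hs : Same (MI (rhs a d) u V) ((MI (rhs a d) u0 V0) ^ (6 * m))) (i : Fin 3) :
    qq v * v (dup a (kc a d u V) i.castSucc) ≤ ⨆ i, v (dup a (kc a d u V) i) := by
  obtain ⟨g1, g2, g3 | ⟨r, hN⟩⟩ := hv
  · exact fin_odd (v := v.val) (fin_nonarch v) (fin_discrete v) g1 a ha g3 d hd _
      (kc_rep hd hM) g2 i
  · exact (GG_of_six v hd hdis g1 (Or.inl g2) hN (Or.inr g2) hM hM0 hs).2 g2 i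

/-- the bound for the points in the classes of sixth powers -/
theorem main_six (h : Hyp0 a d H) (hS : ∀ v ∉ S, PlaceOK a d v) (hT : ∀ v ∈ T, PlaceT a d v)
    {u V u0 V0 : K[X]} (hM : Mum (rhs a d) u V) (hM0 : Mum (rhs a d) u0 V0)
    (hs : Same (MI (rhs a d) u V) ((MI (rhs a d) u0 V0) ^ 6)) (hV : V ≠ 0) :
    ∃ c : ℝ, Tendsto (fun n => Height.logHeight (kc a d
      (dbls two_ne_zero (by norm_num) h.d_ne h.dis_ne (⟨(u, V), hM⟩ : MP a d) n).1.1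
      (dbls two_ne_zero (by norm_num) h.d_ne h.dis_ne (⟨(u, V), hM⟩ : MP a d) n).1.2) / 4 ^ n)
        atTop (𝓝 c) ∧ lowb K a H S T / 4 ≤ c := by
  have h2 : (2 : K) ≠ 0 := two_ne_zero
  have h5 : (5 : K) ≠ 0 := by norm_num
  have hdis := h.dis_ne
  have hd := h.d_ne
  have hdeg : (rhs a d).natDegree = 5 := natDegree_rhs hd
  have := dom (g := rhs a d) (by rw [hdeg]; decide)
  let p : MP a d := ⟨(u, V), hM⟩
  let P : ℕ → K[X] × K[X] := fun n => (dbls h2 h5 hd hdis p n).1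
  have hPM : ∀ n, Mum (rhs a d) (P n).1 (P n).2 := fun n => (dbls h2 h5 hd hdis p n).2
  have hPS : ∀ n, Same (MI (rhs a d) (P n).1 (P n).2) (MI (rhs a d) u V ^ (2 ^ n)) :=
    dbls_same h2 h5 hd hdis p
  have hPS6 : ∀ n, Same (MI (rhs a d) (P n).1 (P n).2)
      (MI (rhs a d) u0 V0 ^ (6 * 2 ^ n)) := by
    intro n
    rw [pow_mul]
    exact (hPS n).trans (hs.pow _)
  have hseq : SeqN a d S T fun n => kc a d (P n).1 (P n).2 :=
    ⟨fun n => kc_rep hd (hPM n), fun n => (dbls_dou h2 h5 hd hdis p n).2.2,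
      fun n v hv => noloss_of v hd hdis (h.int v) (hS v hv) (hPM n) hM0 (hPS6 n),
      fun v hv i => gain_of v hd hdis (h.int v) (hT v hv) (hPM 0) hM0 (hPS6 0) i⟩
  exact seq_main' h hseq (kc_zero_or (hPM 1).deg (dbls_deg h2 h5 hd hdis p hV))

end Run7.h929.G3
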