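import Pool.Agent.Run7.h929.G3.Main2

/-!
# The lower bound for all points of order not dividing 24
-/

set_option autoImplicit false

namespace Run7.h929.G3

open Polynomial NumberField IsDedekindDomain Filter Topology Run7.h929.G2

variable {K : Type} [Field K] [NumberField K] {a : Fin 5 → K} {d : K} {H : InfinitePlace K → ℝ}
  {S T : Finset (FinitePlace K)}

theorem five_ne (K : Type) [Field K] [NumberField K] : (5 : K) ≠ 0 := by norm_num

/-- the sequence of the doubles -/
noncomputable def dd (h : Hyp0 a d H) (p : MP a d) : ℕ → MP a d :=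
  dbls two_ne_zero (five_ne K) h.d_ne h.dis_ne p

/-- the heights of the doubles -/
noncomputable def hh (h : Hyp0 a d H) (p : MP a d) (n : ℕ) : ℝ :=
  Height.logHeight (kc a d (dd h p n).1.1 (dd h p n).1.2)

theorem dd_mum (h : Hyp0 a d H) (p : MP a d) (n : ℕ) :
    Mum (rhs a d) (dd h p n).1.1 (dd h p n).1.2 := (dd h p n).2

theorem dd_same (h : Hyp0 a d H) (p : MP a d) (n : ℕ) :
    Same (MI (rhs a d) (dd h p n).1.1 (dd h p n).1.2) (MI (rhs a d) p.1.1 p.1.2 ^ (2 ^ n)) :=
  dbls_same two_ne_zero (five_ne K) h.d_ne h.dis_ne p n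

theorem rdom (h : Hyp0 a d H) : IsDomain (QB (rhs a d)) :=
  dom (by rw [natDegree_rhs h.d_ne]; decide)

theorem mp_unique (h : Hyp0 a d H) {p p' : MP a d}
    (hs : Same (MI (rhs a d) p.1.1 p.1.2) (MI (rhs a d) p'.1.1 p'.1.2)) : p = p' := by
  obtain ⟨e1, e2⟩ := Mum.unique two_ne_zero (rhs_squarefree (five_ne K) h.d_ne h.dis_ne)
    (natDegree_rhs h.d_ne) p.2 p'.2 hs
  exact Subtype.ext (Prod.ext e1 e2)

theorem mp_eq_dd (h : Hyp0 a d H) {p p' : MP a d} {n : ℕ}
    (hs : Same (MI (rhs a d) p'.1.1 p'.1.2) (MI (rhs a d) p.1.1 p.1.2 ^ (2 ^ n))) :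
    p' = dd h p n := by
  have := rdom h
  exact mp_unique h (hs.trans (dd_same h p n).symm)

theorem dd_add (h : Hyp0 a d H) (p : MP a d) (m n : ℕ) : dd h (dd h p m) n = dd h p (m + n) := by
  have := rdom h
  apply mp_eq_dd h
  rw [pow_add, pow_mul]
  exact (dd_same h (dd h p m) n).trans ((dd_same h p m).pow _)

theorem dis_int (h : Hyp0 a d H) (v : FinitePlace K) : v (dis a) ≤ 1 := by
  let a' : Fin 5 → OO v.val (fin_nonarch v) := fun i => ⟨a i, h.int v i⟩
  have := ww_le (dis a')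
  rw [sub_hom_dis] at this
  exact this

theorem two_int (v : FinitePlace K) : v (2 : K) ≤ 1 := by
  have := fin_int v (2 : 𝓞 K)
  have e : ((2 : 𝓞 K) : K) = 2 := map_ofNat (algebraMap (𝓞 K) K) 2
  rwa [e] at this

theorem exists_lim (h : Hyp0 a d H) (p : MP a d) :
    ∃ c : ℝ, Tendsto (fun n => hh h p n / 4 ^ n) atTop (𝓝 c) ∧ 0 ≤ c := by
  classical
  have hne : (2 * dis a : K) ≠ 0 := mul_ne_zero two_ne_zero h.dis_ne
  have hfin : (Function.mulSupport fun v : FinitePlace K => v (2 * dis a)).Finite :=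
    FinitePlace.hasFiniteMulSupport hne
  have hy : Hyp a d H hfin.toFinset ∅ := by
    refine ⟨h.one_le, h.int, h.size, h.dis_ne, h.d_ne, ?_, by simp⟩
    intro v hv
    have h1 : v (2 * dis a) = 1 := by
      by_contra h2
      apply hv
      rw [Set.Finite.mem_toFinset]
      exact h2
    rw [map_mul] at h1
    have h2 := two_int v
    have h3 := dis_int h v
    have h4 := apply_nonneg v (2 : K)
    have h5 := apply_nonneg v (dis a)
    have h6 : v (2 : K) = 1 := by nlinarith
    have h7 : v (dis a) = 1 := by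
      rw [h6, one_mul] at h1
      exact h1
    refine ⟨h6, ?_, Or.inr h7⟩
    rw [h7]
    exact (inv_lt_one_of_one_lt₀ (one_lt_qq v)).le
  have hseq : Seq a d fun n => kc a d (dd h p n).1.1 (dd h p n).1.2 :=
    ⟨fun n => kc_rep h.d_ne (dd_mum h p n),
      fun n => (dbls_dou two_ne_zero (five_ne K) h.d_ne h.dis_ne p n).2.2⟩
  obtain ⟨c, hc⟩ := seq_limit hy hseq
  refine ⟨c, hc, ge_of_tendsto' hc fun n => ?_⟩
  exact div_nonneg (Height.logHeight_nonneg _) (by positivity)

theorem lim_shift (h : Hyp0 a d H) {p : MP a d} {m : ℕ} {c c' : ℝ}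
    (hc : Tendsto (fun n => hh h p n / 4 ^ n) atTop (𝓝 c))
    (hc' : Tendsto (fun n => hh h (dd h p m) n / 4 ^ n) atTop (𝓝 c')) : c' = 4 ^ m * c := by
  have h1 : Tendsto (fun n => hh h p (n + m) / 4 ^ (n + m)) atTop (𝓝 c) :=
    hc.comp (tendsto_add_atTop_nat m)
  have h2 : Tendsto (fun n => 4 ^ m * (hh h p (n + m) / 4 ^ (n + m))) atTop (𝓝 (4 ^ m * c)) :=
    h1.const_mul _
  refine tendsto_nhds_unique hc' (h2.congr fun n => ?_)
  have h3 : hh h (dd h p m) n = hh h p (n + m) := by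
    rw [hh, hh, dd_add, add_comm m n]
  rw [h3, pow_add]
  field_simp

/-- the comparison of the heights of a point and its triple -/
theorem triple_le (h : Hyp0 a d H) {N : ℕ} {C : ℝ}
    (hN : ∀ u V : K[X], Mum (rhs a d) u V → u.natDegree = 2 → IsCoprime u V →
      ∃ u' V' : K[X], Mum (rhs a d) u' V' ∧
        Same (MI (rhs a d) u' V') (MI (rhs a d) u V ^ 3) ∧
        Height.logHeight (kc a d u' V') ≤ N * Height.logHeight (kc a d u V) + C)
    {p w : MP a d} (hw : Same (MI (rhs a d) w.1.1 w.1.2) (MI (rhs a d) p.1.1 p.1.2 ^ 3))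
    {c c' : ℝ} (hc : Tendsto (fun n => hh h p n / 4 ^ n) atTop (𝓝 c)) (hc0 : 0 ≤ c)
    (hc' : Tendsto (fun n => hh h w n / 4 ^ n) atTop (𝓝 c')) : c' ≤ N * c := by
  have := rdom h
  have hw3 : ∀ n, Same (MI (rhs a d) (dd h w n).1.1 (dd h w n).1.2)
      (MI (rhs a d) (dd h p n).1.1 (dd h p n).1.2 ^ 3) := by
    intro n
    have h1 := (dd_same h w n).trans (hw.pow (2 ^ n))
    have h2 := ((dd_same h p n).pow 3).symm
    rw [← pow_mul] at h1 h2
    rw [mul_comm] at h2
    exact h1.trans h2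
  by_cases hV : ∃ n, (dd h p n).1.2 = 0
  · -- the point has finite order
    obtain ⟨n, hn⟩ := hV
    have h1 : ∀ m, hh h w (m + (n + 1)) = Height.logHeight (kc a d 1 0) := by
      intro m
      have h2 : Same (MI (rhs a d) (dd h p n).1.1 (dd h p n).1.2 ^ 2) ⊤ := by
        by_contra h3
        exact two_torsion h.d_ne h.dis_ne (dd_mum h p n) h3 hn
      have h3 : Same (MI (rhs a d) (dd h w (m + (n + 1))).1.1 (dd h w (m + (n + 1))).1.2)
          (MI (rhs a d) 1 0) := by
        rw [MI_one]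
        have h4 := (dd_same h w (m + (n + 1))).trans (hw.pow (2 ^ (m + (n + 1))))
        have h5 : (MI (rhs a d) p.1.1 p.1.2 ^ 3) ^ (2 ^ (m + (n + 1))) =
            (MI (rhs a d) p.1.1 p.1.2 ^ (2 ^ n)) ^ (2 * (2 ^ m * 3)) := by
          rw [← pow_mul, ← pow_mul]
          congr 1
          ring
        rw [h5] at h4
        refine h4.trans (((dd_same h p n).symm.pow _).trans ?_)
        rw [pow_mul]
        have h6 := h2.pow (2 ^ m * 3)
        rwa [← Ideal.one_eq_top, one_pow, Ideal.one_eq_top] at h6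
      have h4 : dd h w (m + (n + 1)) = ⟨(1, 0), mum_one _⟩ := mp_unique h h3
      rw [hh, h4]
    have h2 : Tendsto (fun m => hh h w (m + (n + 1)) / 4 ^ (m + (n + 1))) atTop (𝓝 c') :=
      hc'.comp (tendsto_add_atTop_nat (n + 1))
    have h3 : Tendsto (fun m : ℕ => Height.logHeight (kc a d 1 0) / 4 ^ (n + 1) *
        (1 / 4 : ℝ) ^ m) atTop (𝓝 0) := by
      have := (tendsto_pow_atTop_nhds_zero_of_lt_one (r := (1 / 4 : ℝ)) (by norm_num)
        (by norm_num)).const_mul (Height.logHeight (kc a d 1 0) / 4 ^ (n + 1))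
      rwa [mul_zero] at this
    have h4 : c' = 0 := by
      refine tendsto_nhds_unique h2 (h3.congr fun m => ?_)
      rw [h1, pow_add 4 m, one_div, inv_pow]
      field_simp
    rw [h4]
    positivity
  · push Not at hV
    -- infinitely many generic pairs
    have hfr : ∃ᶠ n in atTop, hh h w n / 4 ^ n - N * (hh h p n / 4 ^ n) - C * (1 / 4) ^ n ≤ 0 := by
      rw [Filter.frequently_atTop]
      intro m
      have hg : ∃ n, m ≤ n ∧ Gnc (dd h p n).1.1 (dd h p n).1.2 := by
        rcases gnc_or two_ne_zero (five_ne K) h.d_ne h.dis_ne (dd_mum h p m) (hV m) with h1 | h1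
        · exact ⟨m, le_rfl, h1⟩
        · refine ⟨m + 1, by omega, h1 _ _ (dd_mum h p (m + 1)) ?_⟩
          have h2 := dd_same h (dd h p m) 1
          rw [dd_add, pow_one] at h2
          exact h2
      obtain ⟨n, hmn, hg1, hg2⟩ := hg
      refine ⟨n, hmn, ?_⟩
      obtain ⟨u', V', hM', hS', hle⟩ := hN _ _ (dd_mum h p n) hg1 hg2
      have h1 : (⟨(u', V'), hM'⟩ : MP a d) = dd h w n :=
        mp_unique h (hS'.trans (hw3 n).symm)
      have h2 : hh h w n ≤ N * hh h p n + C := by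
        rw [hh, ← h1]
        exact hle
      have h3 : (0 : ℝ) < 4 ^ n := by positivity
      have h4 : hh h w n / 4 ^ n - N * (hh h p n / 4 ^ n) - C * (1 / 4) ^ n =
          (hh h w n - N * hh h p n - C) / 4 ^ n := by
        rw [one_div, inv_pow]
        field_simp
      rw [h4]
      exact div_nonpos_of_nonpos_of_nonneg (by linarith) h3.le
    have h0 : Tendsto (fun n : ℕ => C * (1 / 4 : ℝ) ^ n) atTop (𝓝 0) := by
      have := (tendsto_pow_atTop_nhds_zero_of_lt_one (r := (1 / 4 : ℝ)) (by norm_num)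
        (by norm_num)).const_mul C
      rwa [mul_zero] at this
    have h1 := (hc'.sub (hc.const_mul (N : ℝ))).sub h0
    rw [sub_zero] at h1
    have h2 := le_of_tendsto_of_frequently h1 hfr
    linarith

/-- the lower bound, for points of order not dividing 24 -/
theorem main24 (hTr : S_triple) : ∃ κ : ℝ, 0 < κ ∧ ∀ (K : Type) [Field K] [NumberField K]
    (a : Fin 5 → K) (d : K) (H : InfinitePlace K → ℝ) (S T : Finset (FinitePlace K))
    (h : Hyp0 a d H), (∀ v ∉ S, PlaceOK a d v) → (∀ v ∈ T, PlaceT a d v) → ∀ p : MP a d,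
    ¬ Same (MI (rhs a d) p.1.1 p.1.2 ^ 24) ⊤ →
    ∃ c : ℝ, Tendsto (fun n => hh h p n / 4 ^ n) atTop (𝓝 c) ∧ κ * lowb K a H S T ≤ c := by
  obtain ⟨N, hN⟩ := hTr
  refine ⟨1 / (64 * (N + 1)), by positivity, ?_⟩
  intro K _ _ a d H S T h hS hT p hp
  have := rdom h
  obtain ⟨C, hC⟩ := hN K a d h.d_ne h.dis_ne
  obtain ⟨c, hc, hc0⟩ := exists_lim h p
  refine ⟨c, hc, ?_⟩
  -- from a generic pair
  have key : ∀ R : MP a d, Gnc R.1.1 R.1.2 → ¬ Same (MI (rhs a d) R.1.1 R.1.2 ^ 12) ⊤ →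
      ∀ cR, Tendsto (fun n => hh h R n / 4 ^ n) atTop (𝓝 cR) → 0 ≤ cR →
      lowb K a H S T / 16 ≤ N * cR := by
    intro R hR h12 cR hcR hcR0
    obtain ⟨u', V', hM', hS', -⟩ := hC _ _ R.2 hR.1 hR.2
    let w : MP a d := ⟨(u', V'), hM'⟩
    obtain ⟨cw, hcw, -⟩ := exists_lim h w
    have h1 := triple_le h hC (p := R) (w := w) hS' hcR hcR0 hcw
    -- the double of the triple
    have h2 : Same (MI (rhs a d) (dd h w 1).1.1 (dd h w 1).1.2)
        (MI (rhs a d) R.1.1 R.1.2 ^ 6) := by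
      have h3 := (dd_same h w 1).trans (hS'.pow (2 ^ 1))
      rw [← pow_mul] at h3
      exact h3
    have hV : (dd h w 1).1.2 ≠ 0 := by
      apply two_torsion h.d_ne h.dis_ne (dd_mum h w 1)
      intro h3
      apply h12
      have h4 := (h2.pow 2).symm
      rw [← pow_mul] at h4
      exact h4.trans h3
    obtain ⟨c6, hc6, hlow⟩ := main_six h hS hT (dd_mum h w 1) R.2 h2 hV
    have h5 : Tendsto (fun n => hh h (dd h w 1) n / 4 ^ n) atTop (𝓝 c6) := hc6
    have h6 := lim_shift h hcw h5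
    rw [pow_one] at h6
    linarith
  have hV : p.1.2 ≠ 0 := by
    apply two_torsion h.d_ne h.dis_ne p.2
    intro h3
    apply hp
    have h4 := h3.pow 12
    rwa [← pow_mul, ← Ideal.one_eq_top, one_pow, Ideal.one_eq_top] at h4
  have hle : lowb K a H S T / 64 ≤ N * c := by
    rcases gnc_or two_ne_zero (five_ne K) h.d_ne h.dis_ne p.2 hV with h1 | h1
    · have h2 := key p h1 (by
        intro h3
        apply hp
        have h4 := h3.pow 2
        rwa [← pow_mul, ← Ideal.one_eq_top, one_pow, Ideal.one_eq_top] at h4) c hc hc0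
      have h3 : 0 ≤ N * c := by positivity
      linarith
    · obtain ⟨c2, hc2, hc20⟩ := exists_lim h (dd h p 1)
      have h2 : Same (MI (rhs a d) (dd h p 1).1.1 (dd h p 1).1.2)
          (MI (rhs a d) p.1.1 p.1.2 ^ 2) := dd_same h p 1
      have h3 := key (dd h p 1) (h1 _ _ (dd_mum h p 1) h2) (by
        intro h3
        apply hp
        have h4 := (h2.pow 12).symm.trans h3
        rw [← pow_mul] at h4
        exact h4) c2 hc2 hc20
      rw [lim_shift h hc hc2, pow_one] at h3
      linarith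
  have h1 : (0 : ℝ) < 64 * (N + 1) := by positivity
  rw [div_mul_eq_mul_div, one_mul, div_le_iff₀ h1]
  nlinarith

end Run7.h929.G3
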