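import Pool.Agent.Run7.h929.G3.Resid

/-!
# Nodes at the finite places of a number field
-/

set_option autoImplicit false

namespace Run7.h929.G3

open Polynomial NumberField Run7.h929.G2

section newton
variable {K : Type} [Field K] {v : AbsoluteValue K ℝ} {h : IsNonarchimedean v} {a : Fin 5 → K}
  {q : ℝ}

/-- half of the second derivative -/
def tt {R : Type*} [CommRing R] (a : Fin 5 → R) (x : R) : R :=
  10 * x ^ 3 + 6 * a 4 * x ^ 2 + 3 * a 3 * x + a 2

theorem tay_eval (x : K) : (tay a x).eval x = tt a x := by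
  simp [tay, tt]
  ring

theorem fd_add {R : Type*} [CommRing R] (a : Fin 5 → R) (x t : R) : fd a (x + t) =
    fd a x + 2 * tt a x * t + t * t * (30 * x ^ 2 + 20 * x * t + 5 * t ^ 2 + 12 * a 4 * x +
      4 * a 4 * t + 3 * a 3) := by
  simp only [fd, tt]
  ring

theorem tt_add {R : Type*} [CommRing R] (a : Fin 5 → R) (x t : R) : tt a (x + t) =
    tt a x + t * (30 * x ^ 2 + 30 * x * t + 10 * t ^ 2 + 12 * a 4 * x + 6 * a 4 * t + 3 * a 3) := by
  simp only [tt]
  ring

theorem newton (h : IsNonarchimedean v) (hq : Discrete v q) (h2 : v 2 = 1)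
    (ha : ∀ i, v (a i) ≤ 1) {r : K} (hr : v r ≤ 1) (h1 : v (fd a r) < 1) (h3 : v (tt a r) = 1)
    (n : ℕ) : ∃ x, v x ≤ 1 ∧ v (x - r) < 1 ∧ v (fd a x) ≤ q⁻¹ ^ (n + 1) ∧ v (tt a x) = 1 := by
  have hq0 : 0 < q⁻¹ := inv_pos.2 (by linarith [hq.one_lt])
  have hq1 : q⁻¹ < 1 := inv_lt_one_of_one_lt₀ hq.one_lt
  induction n with
  | zero =>
    refine ⟨r, hr, ?_, ?_, h3⟩
    · rw [sub_self, map_zero]
      exact zero_lt_one
    · rw [zero_add, pow_one]
      exact hq.lt_one h1
  | succ n ih =>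
    obtain ⟨x, x1, x2, x3, x4⟩ := ih
    have htt : tt a x ≠ 0 := by
      intro h0
      rw [h0, map_zero] at x4
      norm_num at x4
    have h20 : (2 : K) ≠ 0 := by
      intro h0
      rw [h0, map_zero] at h2
      norm_num at h2
    set t := -(fd a x / (2 * tt a x)) with ht
    have ht1 : v t = v (fd a x) := by
      rw [ht, v.map_neg, map_div₀, map_mul, h2, x4]
      norm_num
    have hlt : q⁻¹ ^ (n + 1) < 1 := pow_lt_one₀ hq0.le hq1 (by omega)
    have ht2 : v t < 1 := by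
      rw [ht1]
      exact x3.trans_lt hlt
    -- integrality of the remainders
    let a' : Fin 5 → OO v h := fun i => ⟨a i, ha i⟩
    let x' : OO v h := ⟨x, x1⟩
    let t' : OO v h := ⟨t, ht2.le⟩
    have i1 : v (30 * x ^ 2 + 20 * x * t + 5 * t ^ 2 + 12 * a 4 * x + 4 * a 4 * t + 3 * a 3) ≤ 1 :=
      (30 * x' ^ 2 + 20 * x' * t' + 5 * t' ^ 2 + 12 * a' 4 * x' + 4 * a' 4 * t' + 3 * a' 3).2
    have i2 : v (30 * x ^ 2 + 30 * x * t + 10 * t ^ 2 + 12 * a 4 * x + 6 * a 4 * t + 3 * a 3) ≤ 1 :=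
      (30 * x' ^ 2 + 30 * x' * t' + 10 * t' ^ 2 + 12 * a' 4 * x' + 6 * a' 4 * t' + 3 * a' 3).2
    refine ⟨x + t, (h _ _).trans (max_le x1 ht2.le), ?_, ?_, ?_⟩
    · have e1 : x + t - r = (x - r) + t := by ring
      rw [e1]
      exact (h _ _).trans_lt (max_lt x2 ht2)
    · have e1 : fd a x + 2 * tt a x * t = 0 := by
        rw [ht]
        field_simp
        ring
      rw [fd_add, e1, zero_add, map_mul, map_mul, ht1]
      calc v (fd a x) * v (fd a x) * _ ≤ v (fd a x) * v (fd a x) :=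
            mul_le_of_le_one_right (mul_nonneg (v.nonneg _) (v.nonneg _)) i1
        _ ≤ q⁻¹ ^ (n + 1) * q⁻¹ ^ (n + 1) :=
            mul_le_mul x3 x3 (v.nonneg _) (by positivity)
        _ = q⁻¹ ^ (2 * n + 2) := by rw [← pow_add]; congr 1; ring
        _ ≤ q⁻¹ ^ (n + 1 + 1) := pow_le_pow_of_le_one hq0.le hq1.le (by omega)
    · rw [tt_add, v_add_eq' h, x4]
      rw [x4, map_mul]
      exact (mul_le_of_le_one_right (v.nonneg _) i2).trans_lt ht2

end newton

section fin
variable {K : Type} [Field K] [NumberField K]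

/-- The reduction of `f` has exactly one multiple root, and it is a double root. -/
def NodalAt (f : (𝓞 K)[X]) (P : Ideal (𝓞 K)) : Prop :=
  ∃ (r : 𝓞 K ⧸ P) (g : (𝓞 K ⧸ P)[X]), f.map (Ideal.Quotient.mk P) = (X - C r) ^ 2 * g ∧
    g.eval r ≠ 0 ∧ g.Separable

/-- the integers of `K` are integral at `v` -/
noncomputable def toO (v : FinitePlace K) : 𝓞 K →+* OO v.val (fin_nonarch v) where
  toFun x := ⟨(x : K), fin_int v x⟩
  map_one' := by
    apply Subtype.ext
    exact map_one (algebraMap (𝓞 K) K)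
  map_mul' x y := by
    apply Subtype.ext
    exact map_mul (algebraMap (𝓞 K) K) x y
  map_zero' := by
    apply Subtype.ext
    exact map_zero (algebraMap (𝓞 K) K)
  map_add' x y := by
    apply Subtype.ext
    exact map_add (algebraMap (𝓞 K) K) x y

theorem toO_lt (v : FinitePlace K) {x : 𝓞 K} (hx : x ∈ v.maximalIdeal.asIdeal) :
    ww (toO v x) < 1 := by
  change v (x : K) < 1
  rw [← v.norm_embedding_eq]
  exact (FinitePlace.norm_lt_one_iff_mem K _ x).2 hx

theorem res_shape (v : FinitePlace K) {f : (𝓞 K)[X]} (hf : f.Monic) (h5 : f.natDegree = 5)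
    {r0 : 𝓞 K} {g : (𝓞 K ⧸ v.maximalIdeal.asIdeal)[X]}
    (e1 : f.map (Ideal.Quotient.mk v.maximalIdeal.asIdeal) =
      (X - C (Ideal.Quotient.mk v.maximalIdeal.asIdeal r0)) ^ 2 * g)
    (e2 : g.eval (Ideal.Quotient.mk v.maximalIdeal.asIdeal r0) ≠ 0) (e3 : g.Separable)
    {F : Type} [Field F] (φ : OO v.val (fin_nonarch v) →+* F) (hφ : ∀ y, ww y < 1 → φ y = 0) :
    ∃ G : F[X], quin (fun i => φ ⟨cf f i, fin_int v (f.coeff i)⟩) =
      (X - C (φ (toO v r0))) ^ 2 * G ∧ G.eval (φ (toO v r0)) ≠ 0 ∧ G.Separable := by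
  let ψ : 𝓞 K ⧸ v.maximalIdeal.asIdeal →+* F :=
    Ideal.Quotient.lift _ (φ.comp (toO v)) fun x hx => hφ _ (toO_lt v hx)
  have hψ : ψ.comp (Ideal.Quotient.mk v.maximalIdeal.asIdeal) = φ.comp (toO v) := by
    apply RingHom.ext
    intro x
    exact Ideal.Quotient.lift_mk v.maximalIdeal.asIdeal (φ.comp (toO v))
      fun x hx => hφ _ (toO_lt v hx)
  have hψr : ψ (Ideal.Quotient.mk v.maximalIdeal.asIdeal r0) = φ (toO v r0) :=
    Ideal.Quotient.lift_mk v.maximalIdeal.asIdeal (φ.comp (toO v))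
      fun x hx => hφ _ (toO_lt v hx)
  refine ⟨g.map ψ, ?_, ?_, e3.map⟩
  · have h1 := congrArg (Polynomial.map ψ) e1
    rw [Polynomial.map_map, hψ] at h1
    rw [Polynomial.map_mul, Polynomial.map_pow, Polynomial.map_sub, map_X, map_C, hψr] at h1
    rw [← h1]
    have h2 : quin (fun i : Fin 5 => f.coeff i) = f := by
      ext n
      congr 1
      rcases lt_trichotomy n 5 with h | h | h
      · exact coeff_quin (fun i : Fin 5 => f.coeff i) ⟨n, h⟩
      · rw [h, coeff_quin_five, ← h5]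
        exact hf.symm
      · rw [coeff_eq_zero_of_natDegree_lt (by rw [natDegree_quin]; exact h),
          coeff_eq_zero_of_natDegree_lt (by rw [h5]; exact h)]
    conv_rhs => rw [← h2]
    rw [map_quin]
    rfl
  · have hmax := v.maximalIdeal.isMaximal
    let _ : Field (𝓞 K ⧸ v.maximalIdeal.asIdeal) := Ideal.Quotient.field _
    rw [← hψr, eval_map, eval₂_hom]
    intro h0
    exact e2 ((map_eq_zero ψ).1 h0)

theorem exists_node (v : FinitePlace K) {f : (𝓞 K)[X]} (hf : f.Monic) (h5 : f.natDegree = 5)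
    (hdisc : f.discr ≠ 0) (h2 : v (2 : K) = 1) (hn : NodalAt f v.maximalIdeal.asIdeal) :
    ∃ r : K, Node v.val (fin_nonarch v) (cf f) r ∧ v (dis (cf f)) ≤ v (fv (cf f) r) := by
  obtain ⟨rb, g, e1, e2, e3⟩ := hn
  obtain ⟨r0, hr0⟩ := Ideal.Quotient.mk_surjective rb
  rw [← hr0] at e1 e2
  have hq := fin_discrete v
  have h := fin_nonarch v
  have hq0 : 0 < (qq v)⁻¹ := inv_pos.2 (by linarith [hq.one_lt])
  have hq1 : (qq v)⁻¹ < 1 := inv_lt_one_of_one_lt₀ hq.one_lt
  have ha : ∀ i, v.val (cf f i) ≤ 1 := fun i => fin_int v (f.coeff i)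
  let a' : Fin 5 → OO v.val (fin_nonarch v) := fun i => ⟨cf f i, ha i⟩
  obtain ⟨F, _, _, φ, hφ⟩ := exists_res v.val (fin_nonarch v)
  have key := fun (F : Type) [Field F] (φ : OO v.val (fin_nonarch v) →+* F)
    (hφ : ∀ y, ww y < 1 → φ y = 0) => res_shape v hf h5 e1 e2 e3 φ hφ
  -- values at the first approximation
  obtain ⟨G, g1, g2, g3⟩ := key F φ fun y hy => (hφ y).2 hy
  have hfd0 : ∀ x, φ (fd a' x) = fd (fun i => φ (a' i)) (φ x) := fun x => by
    simp only [fd, map_add, map_mul, map_pow, map_ofNat]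
  have hfv0 : ∀ x, φ (fv a' x) = fv (fun i => φ (a' i)) (φ x) := fun x => by
    simp only [fv, map_add, map_mul, map_pow]
  have htt0 : ∀ x, φ (tt a' x) = tt (fun i => φ (a' i)) (φ x) := fun x => by
    simp only [tt, map_add, map_mul, map_pow, map_ofNat]
  have hfdr : v.val (fd (cf f) (r0 : K)) < 1 := by
    have h1 : φ (fd a' (toO v r0)) = 0 := by
      rw [hfd0, ← eval_deriv]
      have h3 : quin (fun i => φ (a' i)) = (X - C (φ (toO v r0))) ^ 2 * G := g1
      rw [h3]
      simp only [derivative_mul, pow_two, eval_add, eval_mul, derivative_sub, derivative_X,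
        derivative_C, Polynomial.eval_sub, eval_X, eval_C, sub_self]
      ring
    exact (hφ _).1 h1
  have httr : v.val (tt (cf f) (r0 : K)) = 1 := by
    have h1 : φ (tt a' (toO v r0)) ≠ 0 := by
      rw [htt0, ← tay_eval]
      have h3 : quin (fun i => φ (a' i)) = (X - C (φ (toO v r0))) ^ 2 * G := g1
      have h4 := taylor2 (fun i => φ (a' i)) (φ (toO v r0))
      have h6 : fv (fun i => φ (a' i)) (φ (toO v r0)) = 0 := by
        rw [← eval_quin, h3]
        simp
      have h7 : fd (fun i => φ (a' i)) (φ (toO v r0)) = 0 := by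
        rw [← hfd0, hφ]
        exact hfdr
      rw [h3, h6, h7] at h4
      have h8 : G = tay (fun i => φ (a' i)) (φ (toO v r0)) := by
        apply mul_left_cancel₀ (pow_ne_zero 2 (X_sub_C_ne_zero (φ (toO v r0))))
        rw [h4]
        simp only [map_zero]
        ring
      rw [← h8]
      exact g2
    rw [Ne, hφ, not_lt] at h1
    exact le_antisymm (tt a' (toO v r0)).2 h1
  have hdis : dis (cf (K := K) f) ≠ 0 := by
    rw [(quin_cf hf h5).2]
    exact fun h0 => hdisc (RingOfIntegers.ext h0)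
  have hdisp : 0 < v.val (dis (cf (K := K) f)) := v.val.pos hdis
  obtain ⟨n, hn⟩ := exists_pow_lt_of_lt_one hdisp hq1
  obtain ⟨r, r1, r2, r3, r4⟩ := newton h hq h2 ha (fin_int v r0) hfdr httr n
  have hsmall : v.val (fd (cf f) r) ^ 2 < v.val (dis (cf f)) := by
    calc v.val (fd (cf f) r) ^ 2 ≤ ((qq v)⁻¹ ^ (n + 1)) ^ 2 :=
          pow_le_pow_left₀ (v.val.nonneg _) r3 2
      _ = (qq v)⁻¹ ^ (2 * n + 2) := by rw [← pow_mul]; congr 1; ring
      _ ≤ (qq v)⁻¹ ^ n := pow_le_pow_of_le_one hq0.le hq1.le (by omega)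
      _ < _ := hn
  have hle : v.val (dis (cf f)) ≤ v.val (fv (cf f) r) := by
    obtain ⟨A, B, hAB⟩ := dis_comb a' ⟨r, r1⟩
    have h1 : ww (dis a') ≤ max (ww (fv a' ⟨r, r1⟩)) (ww (fd a' ⟨r, r1⟩) ^ 2) := by
      rw [hAB]
      refine (ww_add _ _).trans (max_le_max (ww_mul_le' _ _) ?_)
      rw [← ww_pow]
      exact ww_mul_le' _ _
    rw [sub_hom_dis] at h1
    have h3 : v.val (dis (cf f)) ≤ max (v.val (fv (cf f) r)) (v.val (fd (cf f) r) ^ 2) := h1
    rcases le_max_iff.1 h3 with h4 | h4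
    · exact h4
    · exact absurd hsmall (not_lt.2 h4)
  have hrr : ∀ (F : Type) [Field F] (φ : OO v.val (fin_nonarch v) →+* F)
      (_ : ∀ y, ww y < 1 → φ y = 0), φ ⟨r, r1⟩ = φ (toO v r0) := by
    intro F _ φ hφ
    rw [← sub_eq_zero, ← map_sub]
    apply hφ
    exact r2
  refine ⟨r, ⟨ha, r1, ?_, hsmall.trans_le hle, ?_, ?_⟩, hle⟩
  · have h1 : φ (fv a' ⟨r, r1⟩) = 0 := by
      rw [hfv0, hrr F φ fun y hy => (hφ y).2 hy, ← eval_quin]
      have h3 : quin (fun i => φ (a' i)) = (X - C (φ (toO v r0))) ^ 2 * G := g1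
      rw [h3]
      simp
    exact (hφ _).1 h1
  · rw [tay_eval]
    exact r4
  · intro F' _ φ' x hφ' hx1 hx2
    rw [hrr F' φ' hφ']
    obtain ⟨G', g1', g2', g3'⟩ := key F' φ' hφ'
    rw [← eval_quin, g1'] at hx1
    rw [← eval_deriv, g1'] at hx2
    by_contra hne
    have hne' : x - φ' (toO v r0) ≠ 0 := sub_ne_zero.2 hne
    simp only [eval_mul, eval_pow, Polynomial.eval_sub, eval_X, eval_C] at hx1
    have hG0 : G'.eval x = 0 := (mul_eq_zero.1 hx1).resolve_left (pow_ne_zero _ hne')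
    simp only [derivative_mul, pow_two, eval_add, eval_mul, derivative_sub, derivative_X,
        derivative_C, Polynomial.eval_sub, eval_X, eval_C, eval_one, sub_zero, hG0, mul_zero,
        zero_add] at hx2
    have hG1 : (derivative G').eval x = 0 :=
      (mul_eq_zero.1 hx2).resolve_left (mul_ne_zero hne' hne')
    obtain ⟨A, B, hAB⟩ := g3'
    have h1 := congrArg (eval x) hAB
    simp only [eval_add, eval_mul, hG0, hG1, mul_zero, add_zero, eval_one] at h1
    exact zero_ne_one h1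

end fin

end Run7.h929.G3
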