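import Pool.Agent.Run7.h929.G3.Fin2

/-!
# The lower bound in a form for the results
-/

set_option autoImplicit false

namespace Run7.h929.G3

open Polynomial NumberField IsDedekindDomain Filter Topology Run7.h929.G2

/-- `c` is the limit for the point `(u, V)`, with all the data -/
def Lim {K : Type} [Field K] [NumberField K] (a : Fin 5 → K) (d : K) (u V : K[X]) (c : ℝ) : Prop :=
  ∃ P : ℕ → K[X] × K[X], (∀ n, Mum (rhs a d) (P n).1 (P n).2) ∧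
    (∀ n, Same (MI (rhs a d) (P n).1 (P n).2) (MI (rhs a d) u V ^ (2 ^ n))) ∧
    (∀ n u' V', Mum (rhs a d) u' V' → Same (MI (rhs a d) u' V') (MI (rhs a d) u V ^ (2 ^ n)) →
      (u', V') = P n) ∧
    Tendsto (fun n => Height.logHeight (kc a d (P n).1 (P n).2) / 4 ^ n) atTop (𝓝 c)

/-- the hypotheses on the places -/
structure Places {K : Type} [Field K] [NumberField K] (f : (𝓞 K)[X]) (d : K)
    (S T : Finset (FinitePlace K)) : Prop where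
  outside : ∀ v ∉ S, v (2 : K) = 1 ∧ (v ((f.discr : 𝓞 K) : K) = 1 ∨
    (NodalAt f v.maximalIdeal.asIdeal ∧
      (f.discr ∉ v.maximalIdeal.asIdeal ^ 4 ∨ ∀ z : K, v d ≠ v z ^ 2)))
  odd : ∀ v ∈ T, v (2 : K) = 1 ∧ (∀ z : K, v d ≠ v z ^ 2) ∧
    (v ((f.discr : 𝓞 K) : K) = 1 ∨ NodalAt f v.maximalIdeal.asIdeal)

theorem pub (hTr : S_triple) : ∃ κ : ℝ, 0 < κ ∧ ∀ (K : Type) [Field K] [NumberField K]
    (f : (𝓞 K)[X]) (d : K) (H : InfinitePlace K → ℝ) (S T : Finset (FinitePlace K)),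
    f.Monic → f.natDegree = 5 → f.discr ≠ 0 → Hyp0 (cf f) d H → Places f d S T →
    ∀ u V : K[X], Mum (rhs (cf f) d) u V → ¬ Same (MI (rhs (cf f) d) u V ^ 24) ⊤ →
    ∃ c : ℝ, Lim (cf f) d u V c ∧ κ * lowb K (cf f) H S T ≤ c ∧
      ∀ m : ℕ, 1 ≤ m → Same (MI (rhs (cf f) d) u V ^ m) ⊤ → c = 0 := by
  obtain ⟨κ, hκ, hm⟩ := main24 hTr
  refine ⟨κ, hκ, ?_⟩
  intro K _ _ f d H S T hf h5 hdisc hy hpl u V hM h24
  let p : MP (cf f) d := ⟨(u, V), hM⟩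
  obtain ⟨c, hc, hlow⟩ := hm K (cf f) d H S T hy
    (fun v hv => placeOK_of v hf h5 hdisc (hpl.outside v hv).1 (hpl.outside v hv).2)
    (fun v hv => placeT_of v hf h5 hdisc (hpl.odd v hv).1 (hpl.odd v hv).2.1 (hpl.odd v hv).2.2)
    p h24
  refine ⟨c, ⟨fun n => (dd hy p n).1, dd_mum hy p, dd_same hy p, ?_, hc⟩, hlow, ?_⟩
  · intro n u' V' hM' hs'
    exact congrArg Subtype.val (mp_eq_dd hy (p := p) (p' := ⟨(u', V'), hM'⟩) hs')
  · intro m hm1 ht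
    exact lim_tors hy p hm1 ht hc

theorem cf_quin (a : Fin 5 → ℤ) : cf (K := ℚ) (quin fun i => ((a i : ℤ) : 𝓞 ℚ)) =
    fun i => (a i : ℚ) := by
  funext i
  rw [cf, coeff_quin]
  exact map_intCast (algebraMap (𝓞 ℚ) ℚ) (a i)

end Run7.h929.G3
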