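import Pool.Agent.Run7.h929.G3.Pub

/-!
# The finite places of the rational numbers
-/

set_option autoImplicit false

namespace Run7.h929.G3

open Polynomial NumberField IsDedekindDomain Run7.h929.G2

/-- the prime number of a finite place of `ℚ` -/
noncomputable def gen (v : FinitePlace ℚ) : ℕ := Rat.HeightOneSpectrum.natGenerator v.maximalIdeal

theorem gen_prime (v : FinitePlace ℚ) : (gen v).Prime :=
  Rat.HeightOneSpectrum.prime_natGenerator _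

theorem mem_iff' (v : FinitePlace ℚ) (x : 𝓞 ℚ) : x ∈ v.maximalIdeal.asIdeal ↔
    ((gen v : ℕ) : ℤ) ∣ Rat.IsIntegralClosure.intEquiv (𝓞 ℚ) x := by
  rw [← Ideal.mem_span_singleton]
  have h1 : Ideal.span {((gen v : ℕ) : ℤ)} = _ :=
    Rat.HeightOneSpectrum.span_natGenerator v.maximalIdeal
  rw [h1]
  exact (Ideal.apply_mem_of_equiv_iff (I := v.maximalIdeal.asIdeal)
    (f := Rat.IsIntegralClosure.intEquiv (𝓞 ℚ)) (x := x)).symm

theorem mem_iff (v : FinitePlace ℚ) (n : ℤ) : ((n : ℤ) : 𝓞 ℚ) ∈ v.maximalIdeal.asIdeal ↔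
    ((gen v : ℕ) : ℤ) ∣ n := by
  rw [mem_iff', map_intCast, Int.cast_id]

theorem exists_int (x : 𝓞 ℚ) : ∃ n : ℤ, ((n : ℤ) : 𝓞 ℚ) = x := by
  refine ⟨Rat.IsIntegralClosure.intEquiv (𝓞 ℚ) x, ?_⟩
  apply (Rat.IsIntegralClosure.intEquiv (𝓞 ℚ)).injective
  rw [map_intCast, Int.cast_id]

theorem asIdeal_eq (v : FinitePlace ℚ) :
    v.maximalIdeal.asIdeal = Ideal.span {((gen v : ℕ) : 𝓞 ℚ)} := by
  ext x
  obtain ⟨n, rfl⟩ := exists_int x
  rw [mem_iff, Ideal.mem_span_singleton]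
  constructor
  · rintro ⟨k, rfl⟩
    exact ⟨((k : ℤ) : 𝓞 ℚ), by push_cast; rfl⟩
  · rintro ⟨y, hy⟩
    obtain ⟨k, rfl⟩ := exists_int y
    refine ⟨k, ?_⟩
    have h1 := congrArg (Rat.IsIntegralClosure.intEquiv (𝓞 ℚ)) hy
    rw [map_intCast, map_mul, map_intCast, map_natCast] at h1
    exact_mod_cast h1

theorem cast_inj (m n : ℤ) (h : ((m : ℤ) : 𝓞 ℚ) = n) : m = n := by
  have h1 := congrArg (Rat.IsIntegralClosure.intEquiv (𝓞 ℚ)) h
  rwa [map_intCast, map_intCast, Int.cast_id, Int.cast_id] at h1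

theorem mem_pow_iff (v : FinitePlace ℚ) (k : ℕ) (n : ℤ) :
    ((n : ℤ) : 𝓞 ℚ) ∈ v.maximalIdeal.asIdeal ^ k ↔ ((gen v : ℕ) : ℤ) ^ k ∣ n := by
  rw [asIdeal_eq, Ideal.span_singleton_pow, Ideal.mem_span_singleton]
  constructor
  · rintro ⟨y, hy⟩
    obtain ⟨m, rfl⟩ := exists_int y
    refine ⟨m, cast_inj _ _ ?_⟩
    rw [hy]
    push_cast
    rfl
  · rintro ⟨m, rfl⟩
    exact ⟨((m : ℤ) : 𝓞 ℚ), by push_cast; rfl⟩

theorem qq_rat (v : FinitePlace ℚ) : qq v = gen v := by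
  rw [qq, asIdeal_eq, Ideal.absNorm_span_natCast, RingOfIntegers.rank, Module.finrank_self,
    pow_one]

theorem fin_rat_int (v : FinitePlace ℚ) (n : ℤ) : v (n : ℚ) ≤ 1 := by
  have h1 := fin_int v ((n : ℤ) : 𝓞 ℚ)
  have h2 : (((n : ℤ) : 𝓞 ℚ) : ℚ) = n := map_intCast (algebraMap (𝓞 ℚ) ℚ) n
  rwa [h2] at h1

theorem fin_rat_unit (v : FinitePlace ℚ) {n : ℤ} (hn : ¬ ((gen v : ℕ) : ℤ) ∣ n) :
    v (n : ℚ) = 1 := by
  by_contra h1
  have h2 : (((n : ℤ) : 𝓞 ℚ) : ℚ) = n := map_intCast (algebraMap (𝓞 ℚ) ℚ) n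
  have h3 := fin_lt v ((n : ℤ) : 𝓞 ℚ) (by rw [h2]; exact h1)
  rw [mem_iff] at h3
  exact hn h3

theorem fin_rat_gen (v : FinitePlace ℚ) : v ((gen v : ℕ) : ℚ) = ((gen v : ℕ) : ℝ)⁻¹ := by
  have hp := gen_prime v
  have h0 : ((((gen v : ℕ) : ℤ)) : 𝓞 ℚ) ≠ 0 := by
    intro h
    have := cast_inj ((gen v : ℕ) : ℤ) 0 (by rw [h]; simp)
    have h1 := hp.pos
    omega
  obtain ⟨n, hn, hd⟩ := fin_pow v _ h0
  have h2 : (((((gen v : ℕ) : ℤ)) : 𝓞 ℚ) : ℚ) = (gen v : ℕ) := by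
    rw [show ((((gen v : ℕ) : ℤ)) : 𝓞 ℚ) = (((gen v : ℕ)) : 𝓞 ℚ) by push_cast; rfl]
    exact map_natCast (algebraMap (𝓞 ℚ) ℚ) _
  rw [h2] at hn
  have h3 : n ≤ 1 := by
    by_contra h4
    push Not at h4
    have h5 : ((((gen v : ℕ) : ℤ)) : 𝓞 ℚ) ∈ v.maximalIdeal.asIdeal ^ 2 := by
      rw [← Ideal.dvd_span_singleton]
      exact (pow_dvd_pow _ h4).trans hd
    rw [mem_pow_iff] at h5
    have h6 : gen v ^ 2 ∣ gen v := by exact_mod_cast h5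
    have h7 := Nat.le_of_dvd hp.pos h6
    have h8 := hp.one_lt
    nlinarith
  have h4 : n ≠ 0 := by
    rintro rfl
    rw [pow_zero, inv_one] at hn
    have h5 : ((((gen v : ℕ) : ℤ)) : 𝓞 ℚ) ∈ v.maximalIdeal.asIdeal := by
      rw [mem_iff]
    rw [← FinitePlace.norm_lt_one_iff_mem ℚ, v.norm_embedding_eq] at h5
    have h6 : v (((((gen v : ℕ) : ℤ)) : 𝓞 ℚ) : ℚ) < 1 := h5
    rw [h2, hn] at h6
    exact lt_irrefl _ h6
  have h5 : n = 1 := by omega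
  rw [hn, h5, pow_one, qq_rat]

theorem fin_rat_val (v : FinitePlace ℚ) {n : ℤ} (hn : n ≠ 0) :
    v (n : ℚ) = (((gen v : ℕ) : ℝ) ^ padicValInt (gen v) n)⁻¹ := by
  have := Fact.mk (gen_prime v)
  obtain ⟨m, hm⟩ := padicValInt_dvd (p := gen v) n
  have h1 : ¬ ((gen v : ℕ) : ℤ) ∣ m := by
    rintro ⟨k, rfl⟩
    have h2 : ((gen v : ℕ) : ℤ) ^ (padicValInt (gen v) n + 1) ∣ n :=
      ⟨k, by rw [pow_succ, mul_assoc]; exact hm⟩
    rw [padicValInt_dvd_iff] at h2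
    omega
  have h2 : (n : ℚ) = ((gen v : ℕ) : ℚ) ^ padicValInt (gen v) n * (m : ℚ) := by
    exact_mod_cast congrArg (Int.cast : ℤ → ℚ) hm
  conv_lhs => rw [h2]
  rw [map_mul, map_pow, fin_rat_gen, fin_rat_unit v h1, mul_one, inv_pow]

theorem gen_inj {v w : FinitePlace ℚ} (h : gen v = gen w) : v = w := by
  apply FinitePlace.maximalIdeal_injective
  apply HeightOneSpectrum.ext
  rw [asIdeal_eq, asIdeal_eq, h]

theorem exists_gen {p : ℕ} (hp : p.Prime) : ∃ v : FinitePlace ℚ, gen v = p := by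
  refine ⟨FinitePlace.mk (Rat.HeightOneSpectrum.primesEquiv.symm ⟨p, hp⟩), ?_⟩
  rw [gen, FinitePlace.maximalIdeal_mk]
  have := (Rat.HeightOneSpectrum.primesEquiv (R := 𝓞 ℚ)).apply_symm_apply ⟨p, hp⟩
  exact congrArg Subtype.val this

open scoped Classical in
/-- the places of a finite set of primes -/
noncomputable def plc (s : Finset ℕ) : Finset (FinitePlace ℚ) :=
  (s.filter Nat.Prime).attach.image fun p => (exists_gen (Finset.mem_filter.1 p.2).2).choose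

theorem mem_plc {s : Finset ℕ} {v : FinitePlace ℚ} : v ∈ plc s ↔ gen v ∈ s := by
  classical
  rw [plc, Finset.mem_image]
  constructor
  · rintro ⟨p, -, rfl⟩
    rw [(exists_gen (Finset.mem_filter.1 p.2).2).choose_spec]
    exact (Finset.mem_filter.1 p.2).1
  · intro h
    refine ⟨⟨gen v, Finset.mem_filter.2 ⟨h, gen_prime v⟩⟩, Finset.mem_attach _ _, ?_⟩
    exact gen_inj (exists_gen (gen_prime v)).choose_spec

theorem sum_plc {s : Finset ℕ} (hs : ∀ p ∈ s, p.Prime) (F : ℕ → ℝ) :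
    ∑ v ∈ plc s, F (gen v) = ∑ p ∈ s, F p := by
  classical
  refine Finset.sum_bij (fun v _ => gen v) (fun v hv => mem_plc.1 hv)
    (fun v _ w _ h => gen_inj h) (fun p hp => ?_) (fun v _ => rfl)
  obtain ⟨v, hv⟩ := exists_gen (hs p hp)
  exact ⟨v, by rw [mem_plc, hv]; exact hp, hv⟩

end Run7.h929.G3
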