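import Pool.Agent.Run7.h929.G3.Rat1

/-!
# The places of the rational numbers at which nothing is lost
-/

set_option autoImplicit false

namespace Run7.h929.G3

open Polynomial NumberField IsDedekindDomain Run7.h929.G2

theorem map_DP {R S : Type} [CommRing R] [CommRing S] (φ : R →+* S) (a : Fin 5 → R) :
    (DP a).map φ = DP fun i => φ (a i) := by
  have h := map_dis (mapRingHom φ) ![X, C (a 1), C (a 2), C (a 3), C (a 4)]
  rw [coe_mapRingHom] at h
  rw [DP, DP, h]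
  congr 1
  funext i
  fin_cases i <;> simp

theorem map_dis0 {R S : Type} [CommRing R] [CommRing S] (φ : R →+* S) (a : Fin 5 → R) :
    φ (dis0 a) = dis0 fun i => φ (a i) := by
  rw [dis0, dis0, ← map_DP, derivative_map, eval_map, eval₂_at_apply]

/-- the quintic over the integers of `ℚ` -/
noncomputable def qint (a : Fin 5 → ℤ) : (𝓞 ℚ)[X] := quin fun i => ((a i : ℤ) : 𝓞 ℚ)

theorem nodal_rat (hN : S_node) (a : Fin 5 → ℤ) (v : FinitePlace ℚ) (h2 : gen v ≠ 2)
    (h : ((gen v : ℕ) : ℤ) ∣ dis a) (h0 : ¬ ((gen v : ℕ) : ℤ) ∣ dis0 a) :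
    NodalAt (qint a) v.maximalIdeal.asIdeal := by
  have hmax := v.maximalIdeal.isMaximal
  let _ : Field (𝓞 ℚ ⧸ v.maximalIdeal.asIdeal) := Ideal.Quotient.field _
  have e1 := map_dis (Ideal.Quotient.mk v.maximalIdeal.asIdeal) fun i => ((a i : ℤ) : 𝓞 ℚ)
  have e2 := map_dis0 (Ideal.Quotient.mk v.maximalIdeal.asIdeal) fun i => ((a i : ℤ) : 𝓞 ℚ)
  have e3 : dis (fun i => ((a i : ℤ) : 𝓞 ℚ)) = ((dis a : ℤ) : 𝓞 ℚ) :=
    (map_dis (Int.castRingHom (𝓞 ℚ)) a).symm
  have e4 : dis0 (fun i => ((a i : ℤ) : 𝓞 ℚ)) = ((dis0 a : ℤ) : 𝓞 ℚ) :=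
    (map_dis0 (Int.castRingHom (𝓞 ℚ)) a).symm
  rw [e3] at e1
  rw [e4] at e2
  obtain ⟨r, g, -, -, g1, g2, g3⟩ := hN (𝓞 ℚ ⧸ v.maximalIdeal.asIdeal)
    (fun i => Ideal.Quotient.mk v.maximalIdeal.asIdeal ((a i : ℤ) : 𝓞 ℚ)) (by
      intro h
      have h3 : Ideal.Quotient.mk v.maximalIdeal.asIdeal ((2 : ℤ) : 𝓞 ℚ) = 0 := by
        rw [← h, map_intCast]
        norm_num
      rw [Ideal.Quotient.eq_zero_iff_mem, mem_iff] at h3
      have h4 : gen v ∣ 2 := by exact_mod_cast h3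
      exact h2 ((Nat.prime_dvd_prime_iff_eq (gen_prime v) Nat.prime_two).1 h4))
    (by rw [← e1, Ideal.Quotient.eq_zero_iff_mem, mem_iff]; exact h)
    (by rw [← e2, Ne, Ideal.Quotient.eq_zero_iff_mem, mem_iff]; exact h0)
  refine ⟨r, g, ?_, g2, g3⟩
  rw [qint, map_quin]
  exact g1

open scoped Classical in
/-- the exceptional primes -/
noncomputable def exc (a : Fin 5 → ℤ) : Finset ℕ :=
  insert 2 ((dis a).natAbs.primeFactors.filter fun p => BadP a p)

/-- the primes at which the twist is ramified -/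
noncomputable def ram (a : Fin 5 → ℤ) (d : ℤ) : Finset ℕ := d.natAbs.primeFactors \ exc a

theorem exc_prime (a : Fin 5 → ℤ) : ∀ p ∈ exc a, p.Prime := by
  classical
  intro p hp
  rw [exc, Finset.mem_insert, Finset.mem_filter] at hp
  rcases hp with rfl | h
  · exact Nat.prime_two
  · exact Nat.prime_of_mem_primeFactors h.1

theorem ram_prime (a : Fin 5 → ℤ) (d : ℤ) : ∀ p ∈ ram a d, p.Prime := by
  classical
  intro p hp
  rw [ram, Finset.mem_sdiff] at hp
  exact Nat.prime_of_mem_primeFactors hp.1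

theorem discr_qint (a : Fin 5 → ℤ) : (qint a).discr = ((dis a : ℤ) : 𝓞 ℚ) := by
  rw [qint, discr_eq]
  exact (map_dis (Int.castRingHom (𝓞 ℚ)) a).symm

theorem not_exc (hN : S_node) (a : Fin 5 → ℤ) (hdis : dis a ≠ 0) (v : FinitePlace ℚ)
    (hv : gen v ∉ exc a) : v (2 : ℚ) = 1 ∧ (v (((qint a).discr : 𝓞 ℚ) : ℚ) = 1 ∨
      (NodalAt (qint a) v.maximalIdeal.asIdeal ∧ (qint a).discr ∉ v.maximalIdeal.asIdeal ^ 4)) := by
  classical
  rw [exc, Finset.mem_insert, Finset.mem_filter, not_or] at hv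
  obtain ⟨h2, hv⟩ := hv
  have e1 : v (2 : ℚ) = 1 := by
    have h1 : ¬ ((gen v : ℕ) : ℤ) ∣ 2 := by
      intro h3
      have h4 : gen v ∣ 2 := by exact_mod_cast h3
      exact h2 ((Nat.prime_dvd_prime_iff_eq (gen_prime v) Nat.prime_two).1 h4)
    have := fin_rat_unit v h1
    push_cast at this
    exact this
  refine ⟨e1, ?_⟩
  by_cases hd : ((gen v : ℕ) : ℤ) ∣ dis a
  · right
    have hb : ¬ BadP a (gen v) := by
      intro h3
      apply hv
      refine ⟨?_, h3⟩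
      rw [Nat.mem_primeFactors]
      exact ⟨gen_prime v, Int.natCast_dvd.1 hd, Int.natAbs_ne_zero.2 hdis⟩
    rw [BadP, not_or, not_and, not_or] at hb
    obtain ⟨h3, h4⟩ := hb.2 hd
    refine ⟨nodal_rat hN a v h2 hd h3, ?_⟩
    rw [discr_qint, mem_pow_iff]
    exact h4
  · left
    rw [discr_qint]
    have h3 : (((dis a : ℤ) : 𝓞 ℚ) : ℚ) = ((dis a : ℤ) : ℚ) := map_intCast (algebraMap (𝓞 ℚ) ℚ) _
    rw [h3]
    exact fin_rat_unit v hd

theorem ram_odd {d : ℤ} (hd : Squarefree d) (v : FinitePlace ℚ) (hv : ((gen v : ℕ) : ℤ) ∣ d)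
    (z : ℚ) : v (d : ℚ) ≠ v z ^ 2 := by
  have := Fact.mk (gen_prime v)
  have hd0 := hd.ne_zero
  have h1 : padicValInt (gen v) d = 1 := by
    have h2 : ¬ ((gen v : ℕ) : ℤ) ^ 2 ∣ d := by
      intro h3
      rw [pow_two] at h3
      have h4 := hd _ h3
      have h5 := Int.natAbs_of_isUnit h4
      rw [Int.natAbs_natCast] at h5
      exact (gen_prime v).one_lt.ne' h5
    rw [padicValInt_dvd_iff] at h2
    have h3 := (padicValInt_dvd_iff (p := gen v) 1 d).1 (by rw [pow_one]; exact hv)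
    omega
  have hq := fin_discrete v
  rw [fin_rat_val v hd0, h1, pow_one, ← qq_rat]
  by_cases hz : z = 0
  · rw [hz, map_zero, zero_pow two_ne_zero]
    have := hq.one_lt
    exact inv_ne_zero (by linarith)
  · obtain ⟨n, hn⟩ := hq.val z hz
    have hn' : v z = qq v ^ n := hn
    rw [hn', ← zpow_natCast, ← zpow_mul, ← zpow_neg_one]
    intro h
    have := (zpow_right_injective₀ (by linarith [hq.one_lt]) hq.one_lt.ne') h
    push_cast at this
    omega

theorem places_rat (hN : S_node) (a : Fin 5 → ℤ) (hdis : dis a ≠ 0) {d : ℤ}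
    (hd : Squarefree d) : Places (qint a) (d : ℚ) (plc (exc a)) (plc (ram a d)) := by
  classical
  constructor
  · intro v hv
    rw [mem_plc] at hv
    obtain ⟨h1, h2⟩ := not_exc hN a hdis v hv
    refine ⟨h1, ?_⟩
    rcases h2 with h3 | h3
    · exact Or.inl h3
    · exact Or.inr ⟨h3.1, Or.inl h3.2⟩
  · intro v hv
    rw [mem_plc, ram, Finset.mem_sdiff] at hv
    obtain ⟨h1, h2⟩ := not_exc hN a hdis v hv.2
    refine ⟨h1, ram_odd hd v ?_, ?_⟩
    · exact Int.natCast_dvd.2 (Nat.dvd_of_mem_primeFactors hv.1)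
    · rcases h2 with h3 | h3
      · exact Or.inl h3
      · exact Or.inr h3.1

end Run7.h929.G3
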