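import Pool.Agent.Run7.h929.G3.Rat2

/-!
# The lower bound for the quintics with rational integral coefficients
-/

set_option autoImplicit false

namespace Run7.h929.G3

open Polynomial NumberField IsDedekindDomain Filter Topology Run7.h929.G2

open scoped Classical in
theorem badLog_eq (a : Fin 5 → ℤ) : badLog a =
    ∑ p ∈ (dis a).natAbs.primeFactors.filter fun p => BadP a p,
      (padicValInt p (dis a) : ℝ) * Real.log p := rfl

theorem sum_val_exc (a : Fin 5 → ℤ) (hdis : dis a ≠ 0) :
    ∑ p ∈ exc a, (padicValInt p (dis a) : ℝ) * Real.log p = badLog a := by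
  classical
  rw [badLog_eq, exc]
  by_cases h : 2 ∈ (dis a).natAbs.primeFactors.filter fun p => BadP a p
  · rw [Finset.insert_eq_of_mem h]
  · rw [Finset.sum_insert h]
    have h1 : padicValInt 2 (dis a) = 0 := by
      apply padicValInt.eq_zero_of_not_dvd
      intro h2
      apply h
      rw [Finset.mem_filter, Nat.mem_primeFactors]
      exact ⟨⟨Nat.prime_two, Int.natCast_dvd.1 h2, Int.natAbs_ne_zero.2 hdis⟩, Or.inl rfl⟩
    rw [h1]
    norm_num

theorem sum_exc (a : Fin 5 → ℤ) (hdis : dis a ≠ 0) :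
    ∑ v ∈ plc (exc a), -Real.log (v (2 * ((dis a : ℤ) : ℚ))) = Real.log 2 + badLog a := by
  classical
  have h1 : ∀ v : FinitePlace ℚ, -Real.log (v (2 * ((dis a : ℤ) : ℚ))) =
      ((padicValInt (gen v) 2 : ℕ) : ℝ) * Real.log (gen v) +
      ((padicValInt (gen v) (dis a) : ℕ) : ℝ) * Real.log (gen v) := by
    intro v
    have := Fact.mk (gen_prime v)
    have h2 : (2 : ℚ) * ((dis a : ℤ) : ℚ) = ((2 * dis a : ℤ) : ℚ) := by push_cast; ring
    rw [h2, fin_rat_val v (mul_ne_zero two_ne_zero hdis), Real.log_inv, neg_neg, Real.log_pow,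
      padicValInt.mul two_ne_zero hdis]
    push_cast
    ring
  rw [Finset.sum_congr rfl fun v _ => h1 v]
  rw [sum_plc (exc_prime a) fun p => ((padicValInt p 2 : ℕ) : ℝ) * Real.log p +
      ((padicValInt p (dis a) : ℕ) : ℝ) * Real.log p, Finset.sum_add_distrib, sum_val_exc a hdis]
  congr 1
  rw [Finset.sum_eq_single 2]
  · have := Fact.mk Nat.prime_two
    have h3 : padicValInt 2 2 = 1 := padicValInt_self
    rw [h3]
    norm_num
  · intro p hp hp2
    have h3 : padicValInt p 2 = 0 := by
      apply padicValInt.eq_zero_of_not_dvd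
      intro h2
      have h4 : p ∣ 2 := by exact_mod_cast h2
      exact hp2 ((Nat.prime_dvd_prime_iff_eq (exc_prime a p hp) Nat.prime_two).1 h4)
    rw [h3]
    norm_num
  · intro h
    exact absurd (Finset.mem_insert_self _ _) h

theorem log_exc (a : Fin 5 → ℤ) (hdis : dis a ≠ 0) :
    ∑ p ∈ exc a, Real.log p ≤ Real.log 2 + badLog a := by
  classical
  have h0 : ∀ p ∈ exc a, 0 ≤ Real.log p := fun p hp =>
    Real.log_nonneg (by exact_mod_cast (exc_prime a p hp).one_lt.le)
  rw [← sum_val_exc a hdis, ← Finset.insert_erase (show 2 ∈ exc a from Finset.mem_insert_self _ _),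
    Finset.sum_insert (Finset.notMem_erase _ _), Finset.sum_insert (Finset.notMem_erase _ _)]
  have h1 : ∑ p ∈ (exc a).erase 2, Real.log p ≤
      ∑ p ∈ (exc a).erase 2, (padicValInt p (dis a) : ℝ) * Real.log p := by
    apply Finset.sum_le_sum
    intro p hp
    rw [Finset.mem_erase] at hp
    have h2 : 1 ≤ padicValInt p (dis a) := by
      have h3 := hp.2
      rw [exc, Finset.mem_insert, Finset.mem_filter, Nat.mem_primeFactors] at h3
      obtain ⟨⟨h4, h5, -⟩, -⟩ := h3.resolve_left hp.1
      have := Fact.mk h4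
      rcases (padicValInt_dvd_iff (p := p) 1 (dis a)).1 (by
        rw [pow_one]
        exact Int.natCast_dvd.2 h5) with h6 | h6
      · exact absurd h6 hdis
      · exact h6
    have h3 := h0 p hp.2
    have h4 : (1 : ℝ) ≤ (padicValInt p (dis a) : ℝ) := by exact_mod_cast h2
    nlinarith
  have h2 : 0 ≤ (padicValInt 2 (dis a) : ℝ) * Real.log (2 : ℕ) :=
    mul_nonneg (Nat.cast_nonneg _) (Real.log_nonneg (by norm_num))
  push_cast at h2 ⊢
  linarith

theorem sum_ram (a : Fin 5 → ℤ) (hdis : dis a ≠ 0) {d : ℤ} (hd : Squarefree d) :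
    Real.log |((d : ℤ) : ℝ)| - (Real.log 2 + badLog a) ≤
      ∑ v ∈ plc (ram a d), Real.log (qq v) := by
  classical
  have h1 : ∑ v ∈ plc (ram a d), Real.log (qq v) = ∑ p ∈ ram a d, Real.log p := by
    rw [← sum_plc (ram_prime a d) fun p => Real.log p]
    exact Finset.sum_congr rfl fun v _ => by rw [qq_rat]
  have h2 : ∑ p ∈ d.natAbs.primeFactors, Real.log p = Real.log |((d : ℤ) : ℝ)| := by
    rw [← Real.log_prod]
    · have h3 := Nat.prod_primeFactors_of_squarefree (Int.squarefree_natAbs.2 hd)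
      rw [← Nat.cast_prod, h3, Nat.cast_natAbs, Int.cast_abs]
    · intro p hp
      exact_mod_cast (Nat.prime_of_mem_primeFactors hp).ne_zero
  have h3 : ∑ p ∈ d.natAbs.primeFactors, Real.log p ≤
      ∑ p ∈ ram a d, Real.log p + ∑ p ∈ exc a, Real.log p := by
    rw [← Finset.sum_inter_add_sum_sdiff d.natAbs.primeFactors (exc a), add_comm]
    have h4 : ∑ p ∈ d.natAbs.primeFactors ∩ exc a, Real.log p ≤ ∑ p ∈ exc a, Real.log p := by
      apply Finset.sum_le_sum_of_subset_of_nonneg Finset.inter_subset_right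
      intro p hp _
      exact Real.log_nonneg (by exact_mod_cast (exc_prime a p hp).one_lt.le)
    have h5 : ram a d = d.natAbs.primeFactors \ exc a := rfl
    rw [h5]
    linarith
  have h4 := log_exc a hdis
  rw [h1]
  linarith

theorem rat_places (F : InfinitePlace ℚ → ℝ) : ∑ v : InfinitePlace ℚ, F v = F default := by
  rw [Fintype.sum_unique]

theorem mult_rat (v : InfinitePlace ℚ) : (v.mult : ℝ) = 1 := by
  have h := InfinitePlace.sum_mult_eq (K := ℚ)
  rw [Fintype.sum_unique, Module.finrank_self] at h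
  rw [Subsingleton.elim v default, h]
  norm_num

/-- the lower bound over the rational numbers -/
theorem lowb_rat (a : Fin 5 → ℤ) (hdis : dis a ≠ 0) {d : ℤ} (hd : Squarefree d) (B : ℕ) :
    2 * Real.log B + Real.log |((d : ℤ) : ℝ)| - (Real.log 2 + badLog a) -
      (NN / 3) * (Real.log 2 + badLog a + (20 * Real.log B - Real.log |((dis a : ℤ) : ℝ)|)) -
      Real.log CC / 3 ≤
    lowb ℚ (fun i => (a i : ℚ)) (fun _ => (B : ℝ)) (plc (exc a)) (plc (ram a d)) := by
  have e1 : dis (fun i => (a i : ℚ)) = ((dis a : ℤ) : ℚ) := (map_dis (Int.castRingHom ℚ) a).symm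
  have h1 := sum_ram a hdis hd
  have h2 := sum_exc a hdis
  rw [lowb, logH, defect, rat_places, rat_places, mult_rat, e1, h2, Rat.infinitePlace_apply,
    Module.finrank_self]
  have e2 : ((|((dis a : ℤ) : ℚ)| : ℚ) : ℝ) = |((dis a : ℤ) : ℝ)| := by
    push_cast
    rfl
  rw [e2]
  push_cast
  linarith

end Run7.h929.G3
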