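import Pool.Agent.Run7.h929.G3.Rat3
import Pool.Agent.Run7.h136.G3.Triple
import Pool.Agent.Run7.h465.GT.Node
import Pool.Agent.Run7.h465.GT.D1
import Pool.Agent.Run7.h465.GT.D2
import Pool.Agent.Run7.h465.GT.D3
import Pool.Agent.Run7.h642.PcE

/-!
# The lower bound for almost all quintics over the rational numbers
-/

set_option autoImplicit false

namespace Run7.h929.G3

open Polynomial NumberField IsDedekindDomain Filter Topology Run7.h929.G2

theorem count : S_count :=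
  Run7.h642.Cnt.cE Run7.h465.GT.D1 Run7.h465.GT.D2 Run7.h465.GT.D3 Run7.h642.Cnt.cA
    Run7.h642.Cnt.cB Run7.h642.Cnt.cC Run7.h642.Cnt.cD

/-- the lower bound holds for all twists of the quintic -/
def Fine (c : ℝ) (B : ℕ) (a : Fin 5 → ℤ) : Prop :=
  dis a ≠ 0 ∧ ∀ d : ℤ, Squarefree d → ∀ u V : ℚ[X], Mum (rhs (fun i => (a i : ℚ)) (d : ℚ)) u V →
    ¬ Same (MI (rhs (fun i => (a i : ℚ)) (d : ℚ)) u V ^ 24) ⊤ →
    ∃ h : ℝ, Lim (fun i => (a i : ℚ)) (d : ℚ) u V h ∧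
      c * (Real.log B + Real.log |((d : ℤ) : ℝ)|) ≤ h ∧
      ∀ m : ℕ, 1 ≤ m → ¬ Same (MI (rhs (fun i => (a i : ℚ)) (d : ℚ)) u V ^ m) ⊤

theorem hyp_rat {B : ℕ} (hB : 1 ≤ B) {a : Fin 5 → ℤ} (ha : a ∈ Box B) (hdis : dis a ≠ 0) {d : ℤ}
    (hd : Squarefree d) : Hyp0 (fun i => (a i : ℚ)) (d : ℚ) fun _ => (B : ℝ) := by
  refine ⟨fun v => by exact_mod_cast hB, fun v i => fin_rat_int v (a i), ?_, ?_, ?_⟩
  · intro v i
    rw [Rat.infinitePlace_apply]
    rw [Box, Fintype.mem_piFinset] at ha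
    have h1 := Finset.mem_Icc.1 (ha i)
    have h2 : |a i| ≤ (B : ℤ) ^ (5 - (i : ℕ)) := by
      rw [abs_le]
      exact h1
    have h3 : ((|a i| : ℤ) : ℝ) ≤ (((B : ℤ) ^ (5 - (i : ℕ)) : ℤ) : ℝ) := by exact_mod_cast h2
    push_cast at h3 ⊢
    exact h3
  · have e1 : dis (fun i => (a i : ℚ)) = ((dis a : ℤ) : ℚ) :=
      (map_dis (Int.castRingHom ℚ) a).symm
    rw [e1]
    exact_mod_cast hdis
  · exact_mod_cast hd.ne_zero

theorem exists_fine : ∃ c ε : ℝ, 0 < c ∧ 0 < ε ∧ ∃ B₀ : ℕ, ∀ B : ℕ, B₀ ≤ B → ∀ a ∈ Box B,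
    NiceQ ε B a → Fine c B a := by
  obtain ⟨κ, hκ, hp⟩ := pub Run7.h136.G3.tripleS
  have hN0 : (0 : ℝ) ≤ NN := Nat.cast_nonneg _
  have hC0 : 0 ≤ Real.log CC := Real.log_nonneg one_le_CC
  have hl2 : 0 ≤ Real.log 2 := Real.log_nonneg (by norm_num)
  set M : ℝ := (1 + NN / 3) * Real.log 2 + Real.log CC / 3 with hM
  set ε : ℝ := 1 / (2 * (1 + NN)) with hε
  have hε0 : 0 < ε := by positivity
  have hεN : ε * (1 + 2 * (NN / 3)) ≤ 1 / 2 := by
    rw [hε, div_mul_eq_mul_div, one_mul, div_le_iff₀ (by positivity)]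
    nlinarith
  obtain ⟨B₀, hB₀⟩ := exists_nat_ge (Real.exp (2 * M))
  refine ⟨κ, ε, hκ, hε0, max B₀ 2, ?_⟩
  intro B hB a ha hnice
  obtain ⟨hdis, hD, hbad⟩ := hnice
  refine ⟨hdis, ?_⟩
  intro d hd u V hMu h24
  have hB2 : 2 ≤ B := (le_max_right _ _).trans hB
  have hBR : (2 : ℝ) ≤ B := by exact_mod_cast hB2
  have hlogB : 0 < Real.log B := Real.log_pos (by linarith)
  have hlogM : 2 * M ≤ Real.log B := by
    have h1 : Real.exp (2 * M) ≤ B := hB₀.trans (by exact_mod_cast (le_max_left _ _).trans hB)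
    have h2 := Real.log_le_log (Real.exp_pos _) h1
    rwa [Real.log_exp] at h2
  have hlogd : 0 ≤ Real.log |((d : ℤ) : ℝ)| := by
    apply Real.log_nonneg
    have h1 : 1 ≤ |d| := Int.one_le_abs hd.ne_zero
    exact_mod_cast h1
  have hy := hyp_rat (by omega) ha hdis hd
  have e0 : cf (K := ℚ) (qint a) = fun i => (a i : ℚ) := cf_quin a
  obtain ⟨c, hc, hlow, ht⟩ := hp ℚ (qint a) (d : ℚ) (fun _ => (B : ℝ)) (plc (exc a))
    (plc (ram a d)) (monic_quin _) (natDegree_quin _) (by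
      rw [discr_qint]
      intro h
      exact hdis (cast_inj _ 0 (by rw [h]; simp))) (by rw [e0]; exact hy)
    (places_rat Run7.h465.GT.node a hdis hd) u V (by rw [e0]; exact hMu)
    (by rw [e0]; exact h24)
  rw [e0] at hc hlow ht
  have h1 := lowb_rat a hdis hd B
  have h2 : Real.log B + Real.log |((d : ℤ) : ℝ)| ≤
      lowb ℚ (fun i => (a i : ℚ)) (fun _ => (B : ℝ)) (plc (exc a)) (plc (ram a d)) := by
    refine le_trans ?_ h1
    have h3 : (NN / 3 : ℝ) * (Real.log 2 + badLog a +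
        (20 * Real.log B - Real.log |((dis a : ℤ) : ℝ)|)) ≤
        (NN / 3) * (Real.log 2 + 2 * (ε * Real.log B)) := by
      apply mul_le_mul_of_nonneg_left _ (by positivity)
      linarith
    have h4 : ε * (1 + 2 * (NN / 3)) * Real.log B ≤ 1 / 2 * Real.log B :=
      mul_le_mul_of_nonneg_right hεN hlogB.le
    nlinarith
  have h3 : κ * (Real.log B + Real.log |((d : ℤ) : ℝ)|) ≤ c :=
    (mul_le_mul_of_nonneg_left h2 hκ.le).trans hlow
  refine ⟨c, hc, h3, ?_⟩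
  intro m hm hs
  have h4 := ht m hm hs
  have h5 : 0 < κ * (Real.log B + Real.log |((d : ℤ) : ℝ)|) := by positivity
  linarith

/-- the lower bound for almost all quintics -/
theorem rat_main : ∃ c : ℝ, 0 < c ∧ Tendsto (fun B : ℕ =>
    ({a | a ∈ Box B ∧ Fine c B a}.ncard : ℝ) / (Box B).card) atTop (𝓝 1) := by
  obtain ⟨c, ε, hc, hε, B₀, hfine⟩ := exists_fine
  refine ⟨c, hc, ?_⟩
  have h1 := count ε hε
  have h2 : Tendsto (fun B : ℕ => 1 -
      ({a ∈ (Box B : Set (Fin 5 → ℤ)) | ¬ NiceQ ε B a}.ncard : ℝ) / (Box B).card)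
      atTop (𝓝 1) := by
    have := h1.const_sub 1
    rwa [sub_zero] at this
  have hcard : ∀ B : ℕ, 0 < ((Box B).card : ℝ) := by
    intro B
    have : (0 : Fin 5 → ℤ) ∈ Box B := by
      rw [Box, Fintype.mem_piFinset]
      intro i
      rw [Finset.mem_Icc]
      constructor
      · simp
      · simp
    exact_mod_cast Finset.card_pos.2 ⟨_, this⟩
  refine tendsto_of_tendsto_of_tendsto_of_le_of_le' h2 tendsto_const_nhds ?_ ?_
  · filter_upwards [eventually_ge_atTop B₀] with B hB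
    have h3 := hcard B
    have hf1 : {a | a ∈ Box B ∧ Fine c B a}.Finite :=
      (Box B).finite_toSet.subset fun a ha => ha.1
    have hf2 : {a ∈ (Box B : Set (Fin 5 → ℤ)) | ¬ NiceQ ε B a}.Finite :=
      (Box B).finite_toSet.subset fun a ha => ha.1
    have h4 : (Box B).card ≤ {a | a ∈ Box B ∧ Fine c B a}.ncard +
        {a ∈ (Box B : Set (Fin 5 → ℤ)) | ¬ NiceQ ε B a}.ncard := by
      rw [← Set.ncard_coe_finset]
      refine (Set.ncard_le_ncard ?_ (hf1.union hf2)).trans (Set.ncard_union_le _ _)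
      intro a ha
      by_cases hn : NiceQ ε B a
      · exact Or.inl ⟨ha, hfine B hB a ha hn⟩
      · exact Or.inr ⟨ha, hn⟩
    have h5 : ((Box B).card : ℝ) ≤ ({a | a ∈ Box B ∧ Fine c B a}.ncard : ℝ) +
        ({a ∈ (Box B : Set (Fin 5 → ℤ)) | ¬ NiceQ ε B a}.ncard : ℝ) := by exact_mod_cast h4
    rw [le_div_iff₀ h3, sub_mul, one_mul, div_mul_cancel₀ _ h3.ne']
    linarith
  · filter_upwards with B
    have h3 := hcard B
    rw [div_le_one h3]
    have h4 : {a | a ∈ Box B ∧ Fine c B a}.ncard ≤ (Box B).card := by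
      rw [← Set.ncard_coe_finset]
      exact Set.ncard_le_ncard (fun a ha => ha.1) (Box B).finite_toSet
    exact_mod_cast h4

end Run7.h929.G3
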