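import Pool.Agent.Run7.h929.G3.Tools

/-!
# An algebraically closed field over the residue field
-/

set_option autoImplicit false

namespace Run7.h929.G3

open Polynomial Run7.h929.G2

section
variable {K : Type} [Field K]

/-- the maximal ideal -/
def mx (v : AbsoluteValue K ℝ) (h : IsNonarchimedean v) : Ideal (OO v h) where
  carrier := {x | ww x < 1}
  add_mem' := fun {x y} hx hy => ww_add_lt hx hy
  zero_mem' := by
    change ww (0 : OO v h) < 1
    rw [ww_zero]
    norm_num
  smul_mem' := fun c x hx => ww_mul_lt' hx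

theorem mx_prime (v : AbsoluteValue K ℝ) (h : IsNonarchimedean v) : (mx v h).IsPrime where
  ne_top' := by
    rw [Ideal.ne_top_iff_one]
    intro h1
    have : ww (1 : OO v h) < 1 := h1
    rw [ww_one] at this
    exact lt_irrefl _ this
  mem_or_mem' := by
    intro x y hxy
    by_contra hne
    push Not at hne
    have h1 : ¬ ww x < 1 := hne.1
    have h2 : ¬ ww y < 1 := hne.2
    push Not at h1 h2
    have h3 : ww x = 1 := le_antisymm (ww_le x) h1
    have h4 : ww y = 1 := le_antisymm (ww_le y) h2
    have h5 : ww (x * y) < 1 := hxy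
    rw [ww_mul, h3, h4] at h5
    norm_num at h5

/-- an algebraically closed field over the residue field -/
theorem exists_res (v : AbsoluteValue K ℝ) (h : IsNonarchimedean v) :
    ∃ (F : Type) (_ : Field F) (_ : IsAlgClosed F) (φ : OO v h →+* F),
      ∀ x, φ x = 0 ↔ ww x < 1 := by
  have := mx_prime v h
  refine ⟨AlgebraicClosure (FractionRing (OO v h ⧸ mx v h)), inferInstance, inferInstance,
    (algebraMap (FractionRing (OO v h ⧸ mx v h)) _).comp
    ((algebraMap (OO v h ⧸ mx v h) (FractionRing (OO v h ⧸ mx v h))).comp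
      (Ideal.Quotient.mk (mx v h))), ?_⟩
  intro x
  simp only [RingHom.comp_apply]
  rw [map_eq_zero, FaithfulSMul.algebraMap_eq_zero_iff, Ideal.Quotient.eq_zero_iff_mem]
  exact Iff.rfl

variable {v : AbsoluteValue K ℝ} {h : IsNonarchimedean v} {F : Type} [Field F]
  {φ : OO v h →+* F}

theorem map_sub_inj {P Q : (OO v h)[X]} (hPQ : P.map (OO v h).subtype = Q.map (OO v h).subtype) :
    P = Q :=
  Polynomial.map_injective _ (Subring.subtype_injective _) hPQ

theorem eval_sub (P : (OO v h)[X]) (x : OO v h) :
    (P.map (OO v h).subtype).eval (x : K) = (P.eval x : OO v h) := by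
  rw [eval_map]
  exact eval₂_hom (OO v h).subtype x

theorem res_eval (P : (OO v h)[X]) (x : OO v h) : φ (P.eval x) = (P.map φ).eval (φ x) := by
  rw [eval_map, eval₂_hom]

theorem map_eq_zero_iff (hφ : ∀ x, φ x = 0 ↔ ww x < 1) (P : (OO v h)[X]) :
    P.map φ = 0 ↔ ∀ i, ww (P.coeff i) < 1 := by
  rw [Polynomial.ext_iff]
  simp only [coeff_map, coeff_zero, hφ]

end

end Run7.h929.G3
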