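import Pool.Agent.Run7.h929.G3.Tools

/-!
# The square of a class
-/

set_option autoImplicit false

namespace Run7.h929.G3

open Polynomial Run7.h929.G2

section
variable {K : Type} [Field K] {v : AbsoluteValue K ℝ} {h : IsNonarchimedean v} {a : Fin 5 → K}
  {r z e : K} {u p w : K[X]}

theorem fv_tri (T : Tri v a e u p w) (r : K) :
    fv a r = e * p.eval r ^ 2 + u.eval r * w.eval r := by
  rw [← eval_quin, T.eq]
  simp

theorem fd_tri (T : Tri v a e u p w) (r : K) :
    fd a r = 2 * e * p.eval r * (p /ₘ (X - C r)).eval r +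
      (u /ₘ (X - C r)).eval r * w.eval r + (w /ₘ (X - C r)).eval r * u.eval r := by
  have h1 : quin a = C e * ((X - C r) * (p /ₘ (X - C r)) + C (p.eval r)) ^ 2 +
      ((X - C r) * (u /ₘ (X - C r)) + C (u.eval r)) *
      ((X - C r) * (w /ₘ (X - C r)) + C (w.eval r)) := by
    rw [← split, ← split, ← split, T.eq]
  have h2 := congrArg (fun f => eval r (derivative f)) h1
  simp only [eval_deriv] at h2
  rw [h2]
  simp [pow_two]
  ring

theorem tay_tri (T : Tri v a e u p w) (r : K) :
    (tay a r).eval r = e * (p /ₘ (X - C r)).eval r ^ 2 +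
      (u /ₘ (X - C r)).eval r * (w /ₘ (X - C r)).eval r +
      (2 * (e * p.eval r) * (derivative (p /ₘ (X - C r))).eval r +
        w.eval r * (derivative (u /ₘ (X - C r))).eval r +
        u.eval r * (derivative (w /ₘ (X - C r))).eval r) := by
  set U1 := u /ₘ (X - C r) with hU1
  set P1 := p /ₘ (X - C r) with hP1
  set W1 := w /ₘ (X - C r) with hW1
  have h1 : quin a = C e * ((X - C r) * P1 + C (p.eval r)) ^ 2 +
      ((X - C r) * U1 + C (u.eval r)) * ((X - C r) * W1 + C (w.eval r)) := by
    rw [hU1, hP1, hW1, ← split, ← split, ← split, T.eq]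
  set G1 : K[X] := 2 * C (e * p.eval r) * P1 + C (w.eval r) * U1 + C (u.eval r) * W1 with hG1
  have h2 := split G1 r
  set Q := G1 /ₘ (X - C r) with hQ
  have h3 : G1.eval r = fd a r := by
    rw [fd_tri T r, hG1]
    simp
    ring
  have h4 := taylor2 a r
  have h5 : (X - C r) ^ 2 * (tay a r) = (X - C r) ^ 2 * (C e * P1 ^ 2 + U1 * W1 + Q) := by
    have h6 : C (fv a r) = C e * C (p.eval r) ^ 2 + C (u.eval r) * C (w.eval r) := by
      rw [fv_tri T r]
      simp
    rw [h3] at h2
    have h7 : G1 = 2 * (C e * C (p.eval r)) * P1 + C (w.eval r) * U1 + C (u.eval r) * W1 := by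
      rw [hG1, C_mul]
    linear_combination h1 - h4 - h6 + (X - C r) * h2 - (X - C r) * h7
  have h6 : tay a r = C e * P1 ^ 2 + U1 * W1 + Q :=
    mul_left_cancel₀ (pow_ne_zero _ (X_sub_C_ne_zero r)) h5
  have h7 : Q.eval r = (derivative G1).eval r := by
    have h8 : derivative G1 = Q + (X - C r) * derivative Q := by
      conv_lhs => rw [h2]
      simp
    rw [h8]
    simp
  have h8 : (derivative G1).eval r = 2 * (e * p.eval r) * (derivative P1).eval r +
        w.eval r * (derivative U1).eval r + u.eval r * (derivative W1).eval r := by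
    rw [hG1]
    simp
  rw [h6, eval_add, h7, h8]
  simp

theorem Intg.evc (h : IsNonarchimedean v) {s : K[X]} (hs : Intg v s) {r c : K} (hr : v r ≤ 1)
    (hc : v c < 1) : v (c * s.eval r) < 1 := by
  rw [map_mul]
  exact (mul_le_of_le_one_right (v.nonneg _) (hs.eval h hr)).trans_lt hc

/-- the leading term of the decomposition is a unit -/
theorem g2_unit (hN : Node v h a r) (h2 : v 2 = 1) (T : Tri v a e u p w)
    (b1 : v (u.eval r) < 1) (b2 : v (w.eval r) < 1) (b3 : v (e * p.eval r) < 1) :
    v (e * (p /ₘ (X - C r)).eval r ^ 2 + (u /ₘ (X - C r)).eval r * (w /ₘ (X - C r)).eval r) = 1 := by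
  have h1 := tay_tri T r
  have hr := hN.r_int
  have s1 : v (2 * (e * p.eval r) * (derivative (p /ₘ (X - C r))).eval r) < 1 := by
    rw [mul_assoc, map_mul, h2, one_mul]
    exact ((T.p_int.div h hr).deriv h).evc h hr b3
  have s2 : v (w.eval r * (derivative (u /ₘ (X - C r))).eval r) < 1 :=
    ((T.u_int.div h hr).deriv h).evc h hr b2
  have s3 : v (u.eval r * (derivative (w /ₘ (X - C r))).eval r) < 1 :=
    ((T.w_int.div h hr).deriv h).evc h hr b1
  set R := 2 * (e * p.eval r) * (derivative (p /ₘ (X - C r))).eval r +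
        w.eval r * (derivative (u /ₘ (X - C r))).eval r +
        u.eval r * (derivative (w /ₘ (X - C r))).eval r with hR
  have s4 : v R < 1 := (h _ _).trans_lt (max_lt ((h _ _).trans_lt (max_lt s1 s2)) s3)
  have s5 := hN.tay_unit
  have s6 : e * (p /ₘ (X - C r)).eval r ^ 2 +
      (u /ₘ (X - C r)).eval r * (w /ₘ (X - C r)).eval r = -R + (tay a r).eval r := by
    rw [h1]
    ring
  rw [s6, v_add_eq h (by rw [s5, v.map_neg]; exact s4), s5]

theorem prod_le {x y c : K} (hx : v x ^ 2 ≤ v c) (hy : v y ^ 2 ≤ v c) (hc : c ≠ 0) :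
    v (x * y / c) ≤ 1 := by
  have hc0 : 0 < v c := v.pos hc
  rw [map_div₀, div_le_one hc0, map_mul]
  have h1 := v.nonneg x
  have h2 := v.nonneg y
  nlinarith [sq_nonneg (v x - v y)]

/-- the square of a bad class -/
theorem GG_sq [CharZero K] (hN : Node v h a r) (h2 : v 2 = 1) (hz : z ≠ 0) (he : e ≠ 0)
    (he1 : v e ≤ 1) (hdis : dis a ≠ 0) (T : Tri v a e u p w)
    (s1 : v (u.eval r) ^ 2 ≤ v (fv a r)) (s2 : v (w.eval r) ^ 2 ≤ v (fv a r))
    (s3 : v (e * p.eval r) ^ 2 ≤ v (fv a r)) : GG v r ((TI a z e u p) ^ 2) := by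
  have hr := hN.r_int
  have hodd : Odd (quin a).natDegree := by
    rw [natDegree_quin]
    decide
  have hu := T.u_ne hodd
  have hg0 : fv a r ≠ 0 := by
    intro h0
    have h1 := hN.fd_lt
    rw [h0, map_zero] at h1
    exact absurd h1 (not_lt.2 (sq_nonneg _))
  have lt_of : ∀ x : K, v x ^ 2 ≤ v (fv a r) → v x < 1 := by
    intro x hx
    by_contra h1
    push Not at h1
    exact absurd (hx.trans_lt hN.f_lt) (not_lt.2 (one_le_pow₀ h1))
  have b1 := lt_of _ s1
  have b2 := lt_of _ s2
  have b3 := lt_of _ s3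
  have hg2 := g2_unit hN h2 T b1 b2 b3
  have hfd := fd_tri T r
  have hfv := fv_tri T r
  have i1 := T.u_int.div h hr
  have i2 := T.p_int.div h hr
  have i3 := T.w_int.div h hr
  have eU := split u r
  have eP := split p r
  have eW := split w r
  set U1 := u /ₘ (X - C r) with hU1
  set P1 := p /ₘ (X - C r) with hP1
  set W1 := w /ₘ (X - C r) with hW1
  set cu := u.eval r with hcu
  set cp := p.eval r with hcp
  set cw := w.eval r with hcw
  set c := fv a r with hc
  -- the factor of the norm
  let t : K[X] := U1 ^ 2 * C (cw * cw / c) + W1 ^ 2 * C (cu * cu / c) +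
    4 * P1 ^ 2 * C (e * cp * (e * cp) / c) + 2 * U1 * W1 * C (cu * cw / c) +
    4 * U1 * P1 * C (cw * (e * cp) / c) + 4 * W1 * P1 * C (cu * (e * cp) / c) -
    4 * (U1 * W1 + C e * P1 ^ 2)
  have ht : C c * t = (U1 * C cw + W1 * C cu + 2 * C e * P1 * C cp) ^ 2 -
      4 * C c * (U1 * W1 + C e * P1 ^ 2) := by
    have hC : ∀ x : K, C c * C (x / c) = C x := by
      intro x
      rw [← C_mul]
      congr 1
      field_simp
    have q1 := hC (cw * cw)
    have q2 := hC (cu * cu)
    have q3 := hC (e * cp * (e * cp))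
    have q4 := hC (cu * cw)
    have q5 := hC (cw * (e * cp))
    have q6 := hC (cu * (e * cp))
    simp only [C_mul] at q1 q2 q3 q4 q5 q6
    simp only [t]
    linear_combination U1 ^ 2 * q1 + W1 ^ 2 * q2 + 4 * P1 ^ 2 * q3 + 2 * U1 * W1 * q4 +
      4 * U1 * P1 * q5 + 4 * W1 * P1 * q6
  have h4i : Intg v (4 : K[X]) := Intg.ofNat h 4
  have h2i : Intg v (2 : K[X]) := Intg.ofNat h 2
  have hti : Intg v t := by
    refine Intg.sub h (Intg.add h (Intg.add h (Intg.add h (Intg.add h (Intg.add h ?_ ?_) ?_) ?_)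
      ?_) ?_) ?_
    · exact (i1.pow h 2).mul h (Intg.cst (prod_le s2 s2 hg0))
    · exact (i3.pow h 2).mul h (Intg.cst (prod_le s1 s1 hg0))
    · exact (h4i.mul h (i2.pow h 2)).mul h (Intg.cst (prod_le s3 s3 hg0))
    · exact ((h2i.mul h i1).mul h i3).mul h (Intg.cst (prod_le s1 s2 hg0))
    · exact ((h4i.mul h i1).mul h i2).mul h (Intg.cst (prod_le s2 s3 hg0))
    · exact ((h4i.mul h i3).mul h i2).mul h (Intg.cst (prod_le s1 s3 hg0))
    · exact h4i.mul h ((i1.mul h i3).add h ((Intg.cst he1).mul h (i2.pow h 2)))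
  have htr : v (t.eval r) = 1 := by
    have h5 := congrArg (eval r) ht
    simp only [eval_mul, eval_C, eval_sub, eval_pow, eval_add, eval_ofNat] at h5
    have h6 : t.eval r = fd a r ^ 2 / c + -(4 * (e * P1.eval r ^ 2 + U1.eval r * W1.eval r)) := by
      field_simp
      rw [hfd]
      linear_combination h5
    have h7 : v (fd a r ^ 2 / c) < 1 := by
      rw [map_div₀, map_pow, div_lt_one (v.pos hg0)]
      exact hN.fd_lt
    have h8 : v (-(4 * (e * P1.eval r ^ 2 + U1.eval r * W1.eval r))) = 1 := by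
      rw [v.map_neg, map_mul, hg2]
      have : (4 : K) = 2 * 2 := by norm_num
      rw [this, map_mul, h2]
      norm_num
    rw [h6, v_add_eq h (by rw [h8]; exact h7), h8]
  -- the element
  let A : K[X] := U1 * C cw - W1 * C cu
  let B : K[X] := 2 * (P1 * C cu - U1 * C cp)
  refine ⟨C c * u ^ 2, t, io (gz a z e) A * io (gz a z e) u + io (gz a z e) B * bb a z e p,
    mul_ne_zero (C_ne_zero.2 hg0) (pow_ne_zero _ hu), ?_, ?_, ?_, hti, htr⟩
  · rw [norm_pow_TI hz he hdis T, span_unit hg0]
  · have hb := bb_sq hz T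
    have hE : io (gz a z e) (C e⁻¹) * io (gz a z e) (C e) = 1 := by
      rw [← map_mul, ← C_mul, inv_mul_cancel₀ he, C_1, map_one]
    have eU' := congrArg (io (gz a z e)) eU
    have eP' := congrArg (io (gz a z e)) eP
    have eW' := congrArg (io (gz a z e)) eW
    rw [map_add, map_mul] at eU' eP' eW'
    have m1 : io (gz a z e) u * io (gz a z e) u ∈ (TI a z e u p) ^ 2 := by
      rw [pow_two]
      exact Ideal.mul_mem_mul uu_mem uu_mem
    have m2 : io (gz a z e) u * bb a z e p ∈ (TI a z e u p) ^ 2 := by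
      rw [pow_two]
      exact Ideal.mul_mem_mul uu_mem (bb_mem hz)
    have m3 : bb a z e p * bb a z e p ∈ (TI a z e u p) ^ 2 := by
      rw [pow_two]
      exact Ideal.mul_mem_mul (bb_mem hz) (bb_mem hz)
    refine comb3 m1 m2 m3 (-io (gz a z e) W1) (2 * io (gz a z e) P1)
      (io (gz a z e) (C e⁻¹) * io (gz a z e) U1) ?_
    have hA : io (gz a z e) A = io (gz a z e) U1 * io (gz a z e) (C cw) -
        io (gz a z e) W1 * io (gz a z e) (C cu) := by
      rw [map_sub, map_mul, map_mul]
    have hB : io (gz a z e) B = 2 * (io (gz a z e) P1 * io (gz a z e) (C cu) -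
        io (gz a z e) U1 * io (gz a z e) (C cp)) := by
      simp only [B, map_sub, map_mul, map_ofNat]
    rw [hA, hB]
    generalize io (gz a z e) u = U at *
    generalize io (gz a z e) p = P at *
    generalize io (gz a z e) w = W at *
    generalize io (gz a z e) U1 = U1 at *
    generalize io (gz a z e) P1 = P1 at *
    generalize io (gz a z e) W1 = W1 at *
    generalize io (gz a z e) (C cu) = du at *
    generalize io (gz a z e) (C cp) = dp at *
    generalize io (gz a z e) (C cw) = dw at *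
    generalize io (gz a z e) (X - C r) = x at *
    generalize io (gz a z e) (C e) = E at *
    generalize io (gz a z e) (C e⁻¹) = E' at *
    generalize bb a z e p = b at *
    linear_combination -(E' * U1) * hb - (U1 * U * W - 2 * U1 * P * b) * hE -
      (-W1 * U + 2 * b * P1) * eU' - (U1 * U) * eW' + 2 * b * U1 * eP'
  · rw [norm_el hz T]
    have h5 : A ^ 2 * u - 2 * A * B * C e * p - B ^ 2 * C e * w = u * (C c * t) := by
      rw [ht]
      have hcc : C c = C e * C cp ^ 2 + C cu * C cw := by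
        rw [hfv]
        simp
      rw [hcc]
      simp only [A, B]
      rw [eU, eP, eW]
      ring
    rw [h5]
    ring

end

end Run7.h929.G3
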