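import Pool.Agent.Run7.h929.G3.Closure

/-!
# Tools for the integral triples
-/

set_option autoImplicit false

namespace Run7.h929.G3

open Polynomial Run7.h929.G2

section
variable {K : Type} [Field K] {v : AbsoluteValue K ℝ}

theorem v_add_eq (h : IsNonarchimedean v) {x y : K} (hxy : v x < v y) : v (x + y) = v y := by
  apply le_antisymm
  · exact (h x y).trans (max_le hxy.le le_rfl)
  · by_contra hlt
    push Not at hlt
    have h1 := na_sub h (x + y) x
    rw [add_sub_cancel_left] at h1
    exact absurd h1 (not_le.2 (max_lt hlt hxy))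

theorem v_add_eq' (h : IsNonarchimedean v) {x y : K} (hxy : v y < v x) : v (x + y) = v x := by
  rw [add_comm]
  exact v_add_eq h hxy

theorem v_add_ne (h : IsNonarchimedean v) {x y : K} (hxy : v x ≠ v y) :
    v (x + y) = max (v x) (v y) := by
  rcases lt_or_gt_of_ne hxy with h1 | h1
  · rw [v_add_eq h h1, max_eq_right h1.le]
  · rw [v_add_eq' h h1, max_eq_left h1.le]

theorem Intg.lift (h : IsNonarchimedean v) {p : K[X]} (hp : Intg v p) :
    ∃ P : (OO v h)[X], P.map (OO v h).subtype = p := by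
  refine ⟨p.toSubring (OO v h) ?_, ?_⟩
  · intro x hx
    rw [Finset.mem_coe, mem_coeffs_iff] at hx
    obtain ⟨n, -, rfl⟩ := hx
    exact hp n
  · exact Polynomial.map_toSubring _ _ _

theorem Intg.of_lift {h : IsNonarchimedean v} (P : (OO v h)[X]) :
    Intg v (P.map (OO v h).subtype) := by
  intro i
  rw [coeff_map]
  exact (P.coeff i).2

theorem Intg.div (h : IsNonarchimedean v) {p : K[X]} (hp : Intg v p) {r : K} (hr : v r ≤ 1) :
    Intg v (p /ₘ (X - C r)) := by
  obtain ⟨P, rfl⟩ := hp.lift h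
  have e : (X - C r : K[X]) = (X - C (⟨r, hr⟩ : OO v h)).map (OO v h).subtype := by
    simp
  rw [e, ← Polynomial.map_divByMonic _ (monic_X_sub_C _)]
  exact Intg.of_lift _

theorem split (p : K[X]) (r : K) : p = (X - C r) * (p /ₘ (X - C r)) + C (p.eval r) := by
  have h1 := modByMonic_add_div p (X - C r)
  rw [modByMonic_X_sub_C_eq_C_eval] at h1
  rw [add_comm]
  exact h1.symm

theorem Intg.deriv (h : IsNonarchimedean v) {p : K[X]} (hp : Intg v p) :
    Intg v (derivative p) := by
  obtain ⟨P, rfl⟩ := hp.lift h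
  rw [derivative_map]
  exact Intg.of_lift _

theorem Intg.ofNat (h : IsNonarchimedean v) (n : ℕ) [n.AtLeastTwo] :
    Intg v (OfNat.ofNat n : K[X]) := by
  have : (OfNat.ofNat n : K[X]) = ((OfNat.ofNat n : (OO v h)[X])).map (OO v h).subtype := by
    simp
  rw [this]
  exact Intg.of_lift _

theorem e_ne {q : ℝ} {e : K} (hq : 1 < q) (he : v e = 1 ∨ v e = q⁻¹) : e ≠ 0 := by
  rintro rfl
  rw [map_zero] at he
  rcases he with h1 | h1
  · norm_num at h1
  · have : 0 < q⁻¹ := inv_pos.2 (by linarith)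
    linarith

end

section ring
variable {K : Type} [Field K] {g : K[X]} {z : K}

/-- the function `Y / z` -/
noncomputable def yz (g : K[X]) (z : K) : QB g := io g (C z⁻¹) * yy g

theorem norm_lin (A B : K[X]) : (io g A + io g B * yz g z).norm = A ^ 2 - (B * C z⁻¹) ^ 2 * g := by
  have h1 : (io g A + io g B * yz g z).re = A := by
    simp [io, yz, yy]
  have h2 : (io g A + io g B * yz g z).im = B * C z⁻¹ := by
    simp [io, yz, yy]
  rw [QuadraticAlgebra.norm_def, h1, h2]
  ring

end ring

section triple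
variable {K : Type} [Field K] {v : AbsoluteValue K ℝ} {a : Fin 5 → K} {z e : K} {u p w : K[X]}

theorem zz_g (hz : z ≠ 0) : (C z⁻¹) ^ 2 * gz a z e = C e * quin a := by
  rw [gz, rhs, ← C_pow, ← mul_assoc, ← C_mul]
  congr 2
  field_simp

/-- the second generator -/
noncomputable def bb (a : Fin 5 → K) (z e : K) (p : K[X]) : QB (gz a z e) :=
  yz (gz a z e) z - io (gz a z e) (C e * p)

theorem bb_mem (hz : z ≠ 0) : bb a z e p ∈ TI a z e u p := by
  have h1 : bb a z e p = io (gz a z e) (C z⁻¹) *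
      (yy (gz a z e) - io (gz a z e) (C (z * e) * p)) := by
    rw [bb, yz, mul_sub, ← map_mul, ← mul_assoc, ← C_mul]
    congr 4
    field_simp
  rw [h1]
  exact Ideal.mul_mem_left _ _ (pr _ _)

theorem uu_mem : io (gz a z e) u ∈ TI a z e u p := pl _ _

/-- the norm of an element of the ideal, given by its coordinates -/
theorem norm_el (hz : z ≠ 0) (T : Tri v a e u p w) (A B : K[X]) :
    (io (gz a z e) A * io (gz a z e) u + io (gz a z e) B * bb a z e p).norm =
      u * (A ^ 2 * u - 2 * A * B * C e * p - B ^ 2 * C e * w) := by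
  have h1 : io (gz a z e) A * io (gz a z e) u + io (gz a z e) B * bb a z e p =
      io (gz a z e) (A * u - B * (C e * p)) + io (gz a z e) B * yz (gz a z e) z := by
    rw [bb]
    simp only [map_sub, map_mul]
    ring
  rw [h1, norm_lin]
  have h2 : (B * C z⁻¹) ^ 2 * gz a z e = B ^ 2 * (C e * (C e * p ^ 2 + u * w)) := by
    rw [← T.eq, ← zz_g (a := a) (e := e) hz]
    ring
  rw [h2]
  ring

/-- the square of the second generator -/
theorem bb_sq (hz : z ≠ 0) (T : Tri v a e u p w) : bb a z e p * bb a z e p =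
    io (gz a z e) (C e) * (io (gz a z e) u * io (gz a z e) w) -
      2 * io (gz a z e) (C e) * io (gz a z e) p * bb a z e p := by
  have h1 : yz (gz a z e) z * yz (gz a z e) z = io (gz a z e) (C e) *
      (io (gz a z e) (C e) * io (gz a z e) p ^ 2 + io (gz a z e) u * io (gz a z e) w) := by
    have h2 : yz (gz a z e) z * yz (gz a z e) z = io (gz a z e) ((C z⁻¹) ^ 2 * gz a z e) := by
      rw [yz, map_mul, ← yy_sq, map_pow]
      ring
    rw [h2, zz_g hz, T.eq]
    simp only [map_mul, map_add, map_pow]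
  rw [bb, map_mul]
  linear_combination h1

theorem TI_norm [CharZero K] (hz : z ≠ 0) (he : e ≠ 0) (hdis : dis a ≠ 0) (T : Tri v a e u p w) :
    TI a z e u p * (TI a z e u p).map (cj (gz a z e)) = Ideal.span {io (gz a z e) u} := by
  have hd : z ^ 2 * e ≠ 0 := mul_ne_zero (pow_ne_zero _ hz) he
  have hsq : Squarefree (gz a z e) := rhs_squarefree (by norm_num) hd hdis
  rw [TI, map_MI]
  refine MI_conj two_ne_zero hsq u _ (C (z ^ 2 * e) * w) ?_
  rw [gz, rhs, T.eq]
  simp only [map_mul, map_pow]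
  ring

theorem norm_pow_TI [CharZero K] (hz : z ≠ 0) (he : e ≠ 0) (hdis : dis a ≠ 0)
    (T : Tri v a e u p w) (n : ℕ) :
    (TI a z e u p) ^ n * ((TI a z e u p) ^ n).map (cj (gz a z e)) =
      Ideal.span {io (gz a z e) (u ^ n)} := by
  rw [Ideal.map_pow, ← mul_pow, TI_norm hz he hdis T, Ideal.span_singleton_pow, map_pow]

theorem span_unit {c : K} (hc : c ≠ 0) (g n : K[X]) :
    Ideal.span {io g n} = Ideal.span {io g (C c * n)} := by
  have h1 : C c⁻¹ * (C c * n) = n := by
    rw [← mul_assoc, ← C_mul, inv_mul_cancel₀ hc, C_1, one_mul]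
  apply le_antisymm
  · rw [Ideal.span_singleton_le_iff_mem, Ideal.mem_span_singleton, io_dvd_io]
    exact ⟨C c⁻¹, by rw [mul_comm, h1]⟩
  · rw [Ideal.span_singleton_le_iff_mem, Ideal.mem_span_singleton, io_dvd_io]
    exact ⟨C c, by ring⟩

theorem Tri.u_ne (T : Tri v a e u p w) (hodd : Odd (quin a).natDegree) : u ≠ 0 := by
  rintro rfl
  have h1 := T.eq
  rw [zero_mul, add_zero] at h1
  rw [h1] at hodd
  by_cases h2 : C e * p ^ 2 = 0
  · rw [h2] at hodd
    simp at hodd
  · have h3 : C e ≠ 0 := left_ne_zero_of_mul h2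
    have h4 : p ^ 2 ≠ 0 := right_ne_zero_of_mul h2
    rw [natDegree_mul h3 h4, natDegree_C, natDegree_pow, zero_add] at hodd
    exact Nat.not_odd_iff_even.2 (even_two_mul _) hodd

/-- a class which is not bad is good -/
theorem GG_of_not_bad [CharZero K] (hz : z ≠ 0) (he : e ≠ 0) (hdis : dis a ≠ 0) {r : K}
    (T : Tri v a e u p w) (hur : v (u.eval r) = 1 ∨ v (w.eval r) = 1) :
    GG v r (TI a z e u p) := by
  have hodd : Odd (quin a).natDegree := by
    rw [natDegree_quin]
    decide
  have hu := T.u_ne hodd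
  rcases hur with h1 | h1
  · refine ⟨u, u, io (gz a z e) u, hu, TI_norm hz he hdis T, uu_mem, ?_, T.u_int, h1⟩
    have h2 := norm_el hz T 1 0
    simp only [map_one, map_zero, one_mul, zero_mul, add_zero] at h2
    rw [h2]
    ring
  · refine ⟨C (-e) * u, w, bb a z e p, mul_ne_zero (C_ne_zero.2 (neg_ne_zero.2 he)) hu, ?_,
      bb_mem hz, ?_, T.w_int, h1⟩
    · rw [TI_norm hz he hdis T, span_unit (neg_ne_zero.2 he)]
    · have h2 := norm_el hz T 0 1
      simp only [map_one, map_zero, one_mul, zero_mul, zero_add] at h2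
      rw [h2, map_neg]
      ring

end triple

end Run7.h929.G3
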