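import Pool.Agent.Run7.h929.G3.Kg

/-!
# Pairs of degree two with integral coordinates
-/

set_option autoImplicit false

namespace Run7.h929.G3

open Polynomial Run7.h929.G2

section
variable {K : Type} [Field K] {v : AbsoluteValue K ℝ} {h : IsNonarchimedean v} {a : Fin 5 → K}
  {r z e : K} {q : ℝ}

/-- the value at the node of a polynomial with a multiple root -/
theorem node_root {F : Type} [Field F] {φ : OO v h →+* F} (hN : Node v h a r)
    (hφ : ∀ x, φ x = 0 ↔ ww x < 1) (e' : OO v h) (p' u' w' : (OO v h)[X])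
    (hf : quin (fun i => (⟨a i, hN.int i⟩ : OO v h)) = C e' * p' ^ 2 + u' * w') (x : F)
    (hu : (u'.map φ).eval x = 0) (hw : (w'.map φ).eval x = 0)
    (hp : φ e' * (p'.map φ).eval x = 0) :
    φ (u'.eval ⟨r, hN.r_int⟩) = 0 ∧ φ (w'.eval ⟨r, hN.r_int⟩) = 0 := by
  have h1 : quin (fun i => φ ⟨a i, hN.int i⟩) =
      C (φ e') * (p'.map φ) ^ 2 + u'.map φ * w'.map φ := by
    rw [← map_quin, hf]
    simp only [Polynomial.map_add, Polynomial.map_mul, Polynomial.map_pow, map_C]
  have h2 : x = φ ⟨r, hN.r_int⟩ := by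
    apply hN.uniq F φ x (fun y hy => (hφ y).2 hy)
    · rw [← eval_quin, h1]
      simp only [eval_add, eval_mul, eval_pow, eval_C, hu]
      linear_combination (p'.map φ).eval x * hp
    · rw [← eval_deriv, h1]
      have h5 : (derivative (C (φ e') * (p'.map φ) ^ 2 + u'.map φ * w'.map φ)).eval x =
          2 * (φ e' * (p'.map φ).eval x) * (derivative (p'.map φ)).eval x +
          (derivative (u'.map φ)).eval x * (w'.map φ).eval x +
          (u'.map φ).eval x * (derivative (w'.map φ)).eval x := by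
        simp only [derivative_add, derivative_mul, derivative_C, eval_add, eval_mul, pow_two,
          eval_C, eval_zero]
        ring
      rw [h5, hu, hw, hp]
      ring
  rw [res_eval, res_eval, ← h2]
  exact ⟨hu, hw⟩

theorem tripA : S_tripA := by
  intro K _ _ v h q a r z e hc s t v1 v0 w2 w1 w0 ha hs ht hκ
  have hN := hc.node
  have hq := hc.disc
  have hq0 : 0 < q⁻¹ := inv_pos.2 (by linarith [hq.one_lt])
  have hq1 : q⁻¹ < 1 := inv_lt_one_of_one_lt₀ hq.one_lt
  have he0 : e ≠ 0 := e_ne hq.one_lt hc.tw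
  have he1 : v e ≤ 1 := by
    rcases hc.tw with h1 | h1
    · exact h1.le
    · rw [h1]
      exact hq1.le
  have hz := hc.z_ne
  have hd : z ^ 2 * e ≠ 0 := mul_ne_zero (pow_ne_zero _ hz) he0
  right
  have ha' : a = co e s t (v1 * z) (v0 * z) w2 w1 w0 := by
    rw [ha, co_scale (z ^ 2 * e) s t v1 v0 w2 w1 w0 z hz]
    congr 1
    field_simp
  -- the integral coordinates
  let S : OO v h := ⟨s, hs⟩
  let T : OO v h := ⟨t, ht⟩
  let κ : OO v h := ⟨w0 + t * w2, hκ⟩
  let a' : Fin 5 → OO v h := fun i => ⟨a i, hN.int i⟩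
  have e4 : a 4 = w2 - s := by rw [ha']; rfl
  have e3 : a 3 = w1 - s * w2 + t := by rw [ha']; rfl
  let W2 : OO v h := a' 4 + S
  have hW2 : (W2 : K) = w2 := by
    change a 4 + s = w2
    rw [e4]
    ring
  let W1 : OO v h := a' 3 + S * W2 - T
  have hW1 : (W1 : K) = w1 := by
    change a 3 + s * (W2 : K) - t = w1
    rw [e3, hW2]
    ring
  let W0 : OO v h := κ - T * W2
  have hW0 : (W0 : K) = w0 := by
    change (w0 + t * w2) - t * (W2 : K) = w0
    rw [hW2]
    ring
  have hA : v (e * (v1 * z) ^ 2) ≤ 1 := by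
    have h5 := lead_co e s t (v1 * z) (v0 * z) w2 w1 w0
    rw [← ha'] at h5
    rw [← h5]
    have h6 : -(w0 + t * w2) + gg a s t = ((-κ + gg a' S T : OO v h) : K) := rfl
    rw [h6]
    exact (-κ + gg a' S T).2
  have hB : v (e * (v0 * z) ^ 2) ≤ 1 := by
    rw [rv_co e s t (v1 * z) (v0 * z) w2 w1 w0, ← ha', ← hW0]
    exact (a' 0 - T * W0).2
  let E : OO v h := ⟨e, he1⟩
  let V1 : OO v h := ⟨v1 * z, int_of_e hq hc.tw hA⟩
  let V0 : OO v h := ⟨v0 * z, int_of_e hq hc.tw hB⟩
  have hco : a' = co E S T V1 V0 W2 W1 W0 := by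
    have h7 := co_map (OO v h).subtype E S T V1 V0 W2 W1 W0
    change (fun i => ((co E S T V1 V0 W2 W1 W0 i : OO v h) : K)) =
      co e s t (v1 * z) (v0 * z) W2 W1 W0 at h7
    rw [hW2, hW1, hW0, ← ha'] at h7
    funext i
    apply Subtype.ext
    exact (congrFun h7 i).symm
  have hkv : (fun i => ((kv S T W2 W0 i : OO v h) : K)) = kv s t w2 w0 := by
    have h9 := kv_map (OO v h).subtype S T W2 W0
    change (fun i => ((kv S T W2 W0 i : OO v h) : K)) = kv s t W2 W0 at h9
    rw [h9, hW2, hW0]
  have hkc : kc a (z ^ 2 * e) (qu s t) (C (z ^ 2 * e) * lin v1 v0) = kv s t w2 w0 := by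
    rw [ha]
    exact kc_co hd s t v1 v0 w2 w1 w0
  refine ⟨qu s t, lin (v1 * z) (v0 * z), qw w2 w1 w0, ?_, ?_, ?_, ?_⟩
  · refine ⟨Intg.qu h hs ht, Intg.lin h V1.2 V0.2, Intg.qw h ?_ ?_ ?_, ?_⟩
    · rw [← hW2]; exact W2.2
    · rw [← hW1]; exact W1.2
    · rw [← hW0]; exact W0.2
    · rw [ha', quin_co]
  · refine ⟨2, ?_⟩
    have h5 := qu_monic s t
    rw [Monic, leadingCoeff, natDegree_qu] at h5
    rw [h5, map_one]
  · rw [TI]
    congr 1
    simp only [lin, C_mul, C_pow]
    ring
  · intro hur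
    rw [hkc]
    have hdup : ∀ i, ww (dup a' (kv S T W2 W0) i) = v (dup a (kv s t w2 w0) i) := by
      intro i
      rw [sub_hom_dup, hkv]
    have hk1 : ∀ i, v (kv s t w2 w0 i) ≤ 1 := by
      intro i
      rw [← hkv]
      exact (kv S T W2 W0 i).2
    have hk2 : ∃ i, v (kv s t w2 w0 i) = 1 := ⟨0, by simp [kv]⟩
    obtain ⟨F, _, _, φ, hφ⟩ := exists_res v h
    have h2F : (2 : F) ≠ 0 := two_res hφ hc.two
    have hqc : quin (fun i => (⟨a i, hN.int i⟩ : OO v h)) =
        C E * (C V1 * X + C V0) ^ 2 + qu S T * qw W2 W1 W0 := by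
      change quin a' = _
      rw [hco]
      have h2 : (C 2 : (OO v h)[X]) = 2 := map_ofNat C 2
      simp [quin, co, qu, qw, h2]
      ring
    -- no common zero
    have hno : ¬ ∃ x : F, x ^ 2 - φ S * x + φ T = 0 ∧ x ^ 3 + φ W2 * x ^ 2 + φ W1 * x + φ W0 = 0 ∧
        φ E * (φ V1 * x + φ V0) = 0 := by
      rintro ⟨x, x1, x2, x3⟩
      obtain ⟨y1, y2⟩ := node_root hN hφ E (C V1 * X + C V0) (qu S T) (qw W2 W1 W0) hqc x
        (by simpa [qu] using x1) (by simpa [qw] using x2) (by simpa using x3)
      rw [hφ] at y1 y2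
      have z1 : v ((qu s t).eval r) < 1 := by
        have : ww ((qu S T).eval ⟨r, hN.r_int⟩) = v ((qu s t).eval r) := by
          simp [qu, ww, S, T]
        rwa [this] at y1
      have z2 : v ((qw w2 w1 w0).eval r) < 1 := by
        have : ww ((qw W2 W1 W0).eval ⟨r, hN.r_int⟩) = v ((qw w2 w1 w0).eval r) := by
          simp only [qw, ww, eval_add, eval_mul, eval_pow, eval_X, eval_C, Subring.coe_add,
            Subring.coe_mul, Subring.coe_pow, hW2, hW1, hW0]
        rwa [this] at y2
      rcases hur with h3 | h3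
      · rw [h3] at z1
        exact lt_irrefl _ z1
      · rw [h3] at z2
        exact lt_irrefl _ z2
    have hdF : ∀ i, φ (dup a' (kv S T W2 W0) i) =
        dup (co (φ E) (φ S) (φ T) (φ V1) (φ V0) (φ W2) (φ W1) (φ W0))
          (kv (φ S) (φ T) (φ W2) (φ W0)) i := by
      intro i
      rw [map_dup, hco, co_map, kv_map]
    rcases hc.tw with he | he
    · -- untwisted
      apply Kgood_of hq hk1 hk2
      · by_contra hcon
        push Not at hcon
        apply hno
        apply common_zero h2F
        left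
        constructor
        · intro h3
          rw [hφ] at h3
          change v e < 1 at h3
          rw [he] at h3
          exact lt_irrefl _ h3
        · intro i
          rw [← hdF, hφ]
          refine lt_of_le_of_ne (ww_le _) ?_
          rw [hdup]
          exact hcon i
      · exact not_ram he _
    · -- twisted
      have hE : φ E = 0 := by
        rw [hφ]
        change v e < 1
        rw [he]
        exact hq1
      apply Kgood_of hq hk1 hk2
      · refine ⟨3, ?_⟩
        rw [← hdup]
        by_contra hcon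
        apply hno
        apply common_zero h2F
        right
        refine ⟨hE, ?_⟩
        have h3 := hdF 3
        change _ = D3 _ _ at h3
        rw [← h3, hφ]
        exact lt_of_le_of_ne (ww_le _) hcon
      · intro _ i
        rw [← hdup, ← hφ, hdF, hE]
        fin_cases i
        · change D0 _ _ = 0
          rw [D0_co]
          ring
        · change D1 _ _ = 0
          rw [D1_co]
          ring
        · change D2 _ _ = 0
          rw [D2_co]
          ring

end

end Run7.h929.G3
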