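import Pool.Agent.Run7.h929.G3.TripD
import Pool.Agent.Run7.h929.G3.Bad

/-!
# Pairs of degree two with one point at infinity modulo the place
-/

set_option autoImplicit false

namespace Run7.h929.G3

open Polynomial Run7.h929.G2

section
variable {K : Type} [Field K] {v : AbsoluteValue K ℝ}

theorem gauss (h : IsNonarchimedean v) {u w : K[X]} (hu : Intg v u)
    (hu1 : ∃ i, v (u.coeff i) = 1) (huw : Intg v (u * w)) : Intg v w := by
  by_cases hw : w = 0
  · rw [hw]
    intro i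
    rw [coeff_zero, map_zero]
    exact zero_le_one
  obtain ⟨i, hi, hmax⟩ := exists_max hw v
  by_cases hc : v (w.coeff i) ≤ 1
  · exact fun j => (hmax j).trans hc
  exfalso
  push Not at hc
  have hcp : 0 < v (w.coeff i) := v.pos hi
  have hw' : Intg v (C (w.coeff i)⁻¹ * w) := by
    intro j
    rw [coeff_C_mul, map_mul, map_inv₀, inv_mul_le_iff₀ hcp, mul_one]
    exact hmax j
  obtain ⟨u', hu'⟩ := hu.lift h
  obtain ⟨w', hw'⟩ := hw'.lift h
  obtain ⟨F, _, _, φ, hφ⟩ := exists_res v h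
  have h1 : (u' * w').map φ = 0 := by
    rw [map_eq_zero_iff hφ]
    intro j
    have h2 : ((u' * w').map (OO v h).subtype).coeff j = (w.coeff i)⁻¹ * (u * w).coeff j := by
      rw [Polynomial.map_mul, hu', hw', mul_left_comm, coeff_C_mul]
    rw [coeff_map] at h2
    have h3 : ww ((u' * w').coeff j) = v ((w.coeff i)⁻¹ * (u * w).coeff j) := by
      rw [← h2]
      rfl
    rw [h3, map_mul, map_inv₀]
    calc (v (w.coeff i))⁻¹ * v ((u * w).coeff j) ≤ (v (w.coeff i))⁻¹ * 1 :=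
          mul_le_mul_of_nonneg_left (huw j) (inv_nonneg.2 hcp.le)
      _ < 1 := by
        rw [mul_one]
        exact inv_lt_one_of_one_lt₀ hc
  rw [Polynomial.map_mul] at h1
  rcases mul_eq_zero.1 h1 with h2 | h2
  · rw [map_eq_zero_iff hφ] at h2
    obtain ⟨j, hj⟩ := hu1
    have h3 := h2 j
    have h4 : ww (u'.coeff j) = v (u.coeff j) := by
      rw [ww, ← hu', coeff_map]
      rfl
    rw [h4, hj] at h3
    exact lt_irrefl _ h3
  · rw [map_eq_zero_iff hφ] at h2
    have h3 := h2 i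
    have h4 : ww (w'.coeff i) = v ((C (w.coeff i)⁻¹ * w).coeff i) := by
      rw [ww, ← hw', coeff_map]
      rfl
    rw [h4, coeff_C_mul, map_mul, map_inv₀, inv_mul_cancel₀ hcp.ne'] at h3
    exact lt_irrefl _ h3

theorem tripB : S_tripB := by
  intro K _ _ v h q a r z e hc s t v1 v0 w2 w1 w0 ha hs hts hκs
  have hN := hc.node
  have hq := hc.disc
  have hq0 : 0 < q⁻¹ := inv_pos.2 (by linarith [hq.one_lt])
  have hq1 : q⁻¹ < 1 := inv_lt_one_of_one_lt₀ hq.one_lt
  have he0 : e ≠ 0 := e_ne hq.one_lt hc.tw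
  have hep : 0 < v e := v.pos he0
  have he1 : v e ≤ 1 := by
    rcases hc.tw with h1 | h1
    · exact h1.le
    · rw [h1]
      exact hq1.le
  have hr := hN.r_int
  have hz := hc.z_ne
  have hd : z ^ 2 * e ≠ 0 := mul_ne_zero (pow_ne_zero _ hz) he0
  have hkc : kc a (z ^ 2 * e) (qu s t) (C (z ^ 2 * e) * lin v1 v0) = kv s t w2 w0 := by
    rw [ha]
    exact kc_co hd s t v1 v0 w2 w1 w0
  have hkum : kum a (kv s t w2 w0) = 0 := by
    rw [ha]
    exact kum_co _ _ _ _ _ _ _ _
  have hkv : kv s t w2 w0 = ![1, s, t, -(w0 + t * w2)] := rfl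
  have ha' : a = co e s t (v1 * z) (v0 * z) w2 w1 w0 := by
    rw [ha, co_scale (z ^ 2 * e) s t v1 v0 w2 w1 w0 z hz]
    congr 1
    field_simp
  have hs0 : s ≠ 0 := by
    intro h0
    rw [h0, map_zero] at hs
    norm_num at hs
  have hsp : 0 < v s := v.pos hs0
  have hss : v s < v s ^ 2 := by nlinarith
  have hsss : v s ^ 2 < v s ^ 3 := by nlinarith [pow_pos hsp 2]
  -- the size of the leading coefficient
  have hlead : v (e * (v1 * z) ^ 2) = v s ^ 3 := by
    have h5 := lead_co e s t (v1 * z) (v0 * z) w2 w1 w0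
    rw [← ha'] at h5
    have h6 : e * (v1 * z) ^ 2 = (-(w0 + t * w2) + a 2 + a 3 * s + a 4 * s ^ 2 - s * t) + s ^ 3 := by
      rw [← h5]
      simp only [gg]
      ring
    have h7 : v (-(w0 + t * w2) + a 2 + a 3 * s + a 4 * s ^ 2 - s * t) ≤ v s ^ 2 := by
      refine (na_sub h _ _).trans (max_le ((h _ _).trans (max_le ((h _ _).trans (max_le
        ((h _ _).trans (max_le ?_ ?_)) ?_)) ?_)) ?_)
      · rw [v.map_neg]
        exact hκs.trans hss.le
      · exact ((hN.int 2).trans hs.le).trans hss.le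
      · rw [map_mul]
        exact (mul_le_of_le_one_left hsp.le (hN.int 3)).trans hss.le
      · rw [map_mul, map_pow]
        exact mul_le_of_le_one_left (pow_pos hsp 2).le (hN.int 4)
      · rw [map_mul, pow_two]
        exact mul_le_mul_of_nonneg_left hts hsp.le
    rw [h6, v_add_eq h, map_pow]
    rw [map_pow]
    exact h7.trans_lt hsss
  have hst : v (s ^ 2 - t) = v s ^ 2 := by
    rw [sub_eq_add_neg, v_add_eq' h, map_pow]
    rw [v.map_neg, map_pow]
    exact hts.trans_lt hss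
  have hst0 : s ^ 2 - t ≠ 0 := by
    intro h0
    rw [h0, map_zero] at hst
    exact (pow_pos hsp 2).ne hst
  set t1 := v1 * z / (s ^ 2 - t) with ht1
  have ht1' : t1 * (s ^ 2 - t) = v1 * z := by
    rw [ht1, div_mul_cancel₀ _ hst0]
  have het1 : v (e * t1 ^ 2) < 1 := by
    have h6 : e * t1 ^ 2 = e * (v1 * z) ^ 2 / (s ^ 2 - t) ^ 2 := by
      rw [ht1]
      field_simp
    rw [h6, map_div₀, hlead, map_pow, hst, div_lt_one (by positivity)]
    calc v s ^ 3 < v s ^ 3 * v s := by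
          have := pow_pos hsp 3
          nlinarith
      _ = (v s ^ 2) ^ 2 := by ring
  have ht1i : v t1 ≤ 1 := int_of_e hq hc.tw het1.le
  set e0 := v0 * z + s * t * t1 with he0def
  set p : K[X] := C t1 * X ^ 3 + C e0 with hp
  have hpl : p = lin (v1 * z) (v0 * z) + C t1 * (X + C s) * qu s t := by
    rw [hp, lin, qu, he0def, ← ht1']
    simp only [C_mul, C_add, C_sub, C_pow]
    ring
  set u : K[X] := C s⁻¹ * qu s t with hu
  set w : K[X] := C s * (qw w2 w1 w0 - 2 * C e * C t1 * (X + C s) * p +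
    C e * C t1 ^ 2 * (X + C s) ^ 2 * qu s t) with hw
  have hfu : quin a = C e * p ^ 2 + u * w := by
    have h6 : quin a = C e * lin (v1 * z) (v0 * z) ^ 2 + qu s t * qw w2 w1 w0 := by
      rw [ha', quin_co]
    have h7 : u * w = qu s t * (qw w2 w1 w0 - 2 * C e * C t1 * (X + C s) * p +
        C e * C t1 ^ 2 * (X + C s) ^ 2 * qu s t) := by
      have h8 : (C s⁻¹ * C s : K[X]) = 1 := by
        rw [← C_mul, inv_mul_cancel₀ hs0, C_1]
      rw [hu, hw]
      linear_combination (qu s t * (qw w2 w1 w0 - 2 * C e * C t1 * (X + C s) * p +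
        C e * C t1 ^ 2 * (X + C s) ^ 2 * qu s t)) * h8
    rw [h6, h7, hpl]
    ring
  have hτ : v (s⁻¹ * t) ≤ 1 := by
    rw [map_mul, map_inv₀, inv_mul_le_iff₀ hsp, mul_one]
    exact hts
  have hsi : v s⁻¹ < 1 := by
    rw [map_inv₀]
    exact inv_lt_one_of_one_lt₀ hs
  have hux : u = C s⁻¹ * X ^ 2 - X + C (s⁻¹ * t) := by
    have h8 : (C s⁻¹ * C s : K[X]) = 1 := by
      rw [← C_mul, inv_mul_cancel₀ hs0, C_1]
    rw [hu, qu, C_mul]
    linear_combination (-X) * h8
  have hui : Intg v u := by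
    rw [hux]
    exact (((Intg.cst hsi.le).mul h (Intg.xx.pow h 2)).sub h Intg.xx).add h (Intg.cst hτ)
  have hu1 : ∃ i, v (u.coeff i) = 1 := by
    refine ⟨1, ?_⟩
    have h8 : u.coeff 1 = -1 := by
      rw [hux]
      simp [coeff_X, coeff_C]
    rw [h8, v.map_neg, map_one]
  have huτ : v (u.eval (s⁻¹ * t)) < 1 := by
    have h8 : u.eval (s⁻¹ * t) = s⁻¹ * (s⁻¹ * t) ^ 2 := by
      rw [hux]
      simp
    rw [h8, map_mul, map_pow]
    calc v s⁻¹ * v (s⁻¹ * t) ^ 2 ≤ v s⁻¹ * 1 :=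
          mul_le_mul_of_nonneg_left (pow_le_one₀ (v.nonneg _) hτ) (v.nonneg _)
      _ < 1 := by rw [mul_one]; exact hsi
  have hqi := Intg.quin h hN.int
  -- integrality of the constant coefficient of `p`
  have hN1 : v (e * e0 ^ 2) ≤ 1 := by
    by_contra hcon
    push Not at hcon
    have hN0 : e * e0 ^ 2 ≠ 0 := by
      intro h0
      rw [h0, map_zero] at hcon
      norm_num at hcon
    have hNp : 0 < v (e * e0 ^ 2) := v.pos hN0
    have he00 : e0 ≠ 0 := by
      intro h0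
      apply hN0
      rw [h0]
      ring
    have he01 : 1 < v e0 := by
      by_contra h8
      push Not at h8
      rw [map_mul, map_pow] at hcon
      have h9 : v e * v e0 ^ 2 ≤ 1 := mul_le_one₀ he1 (by positivity) (pow_le_one₀ (v.nonneg _) h8)
      exact absurd hcon (not_lt.2 h9)
    have he0p : 0 < v e0 := v.pos he00
    have hx1 : v (t1 / e0) < 1 := by
      rw [map_div₀, div_lt_one he0p]
      exact ht1i.trans_lt he01
    have hsq : C (e * e0 ^ 2)⁻¹ * (C e * p ^ 2) = (C (t1 / e0) * X ^ 3 + C 1) ^ 2 := by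
      have h8 : C (e * e0 ^ 2)⁻¹ * C e = C e0⁻¹ ^ 2 := by
        rw [← C_mul, ← C_pow]
        congr 1
        field_simp
      have h9 : C e0⁻¹ * p = C (t1 / e0) * X ^ 3 + C 1 := by
        rw [hp, mul_add, ← mul_assoc, ← C_mul, ← C_mul, inv_mul_cancel₀ he00, mul_comm e0⁻¹ t1,
          ← div_eq_mul_inv]
      rw [← mul_assoc, h8, ← h9]
      ring
    have hNi : v (e * e0 ^ 2)⁻¹ < 1 := by
      rw [map_inv₀]
      exact inv_lt_one_of_one_lt₀ hcon
    have h1 : u * (C (e * e0 ^ 2)⁻¹ * w) = C (e * e0 ^ 2)⁻¹ * quin a -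
        (C (t1 / e0) * X ^ 3 + C 1) ^ 2 := by
      rw [← hsq, hfu]
      ring
    have h2 : Intg v (u * (C (e * e0 ^ 2)⁻¹ * w)) := by
      rw [h1]
      refine ((Intg.cst hNi.le).mul h hqi).sub h (((((Intg.cst hx1.le).mul h
        (Intg.xx.pow h 3))).add h (Intg.cst ?_)).pow h 2)
      rw [map_one]
    have h3 := gauss h hui hu1 h2
    have h4 := congrArg (eval (s⁻¹ * t)) h1
    rw [eval_mul] at h4
    have h5 : v (u.eval (s⁻¹ * t) * (C (e * e0 ^ 2)⁻¹ * w).eval (s⁻¹ * t)) < 1 := by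
      rw [map_mul]
      exact (mul_le_of_le_one_right (v.nonneg _) (h3.eval h hτ)).trans_lt huτ
    rw [h4] at h5
    have h6 : eval (s⁻¹ * t) (C (e * e0 ^ 2)⁻¹ * quin a - (C (t1 / e0) * X ^ 3 + C 1) ^ 2) =
        (e * e0 ^ 2)⁻¹ * (quin a).eval (s⁻¹ * t) + -(t1 / e0 * (s⁻¹ * t) ^ 3 + 1) ^ 2 := by
      simp only [Polynomial.eval_sub, eval_mul, eval_C, eval_pow, eval_add, eval_X]
      ring
    have h7 : v (t1 / e0 * (s⁻¹ * t) ^ 3 + 1) = 1 := by
      have h8 : v (t1 / e0 * (s⁻¹ * t) ^ 3) < v 1 := by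
        rw [map_mul, map_pow, map_one]
        exact (mul_le_of_le_one_right (v.nonneg _) (pow_le_one₀ (v.nonneg _) hτ)).trans_lt hx1
      rw [v_add_eq h h8, map_one]
    have h8 : v (-(t1 / e0 * (s⁻¹ * t) ^ 3 + 1) ^ 2) = 1 := by
      rw [v.map_neg, map_pow, h7, one_pow]
    have h9 : v ((e * e0 ^ 2)⁻¹ * (quin a).eval (s⁻¹ * t)) < 1 := by
      rw [map_mul]
      exact (mul_le_of_le_one_right (v.nonneg _) (hqi.eval h hτ)).trans_lt hNi
    rw [h6, v_add_eq h (by rw [h8]; exact h9), h8] at h5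
    exact lt_irrefl _ h5
  have he0i : v e0 ≤ 1 := int_of_e hq hc.tw hN1
  have hpi : Intg v p := by
    rw [hp]
    exact ((Intg.cst ht1i).mul h (Intg.xx.pow h 3)).add h (Intg.cst he0i)
  have hwi : Intg v w := by
    apply gauss h hui hu1
    have h1 : u * w = quin a - C e * p ^ 2 := by
      rw [hfu]
      ring
    rw [h1]
    exact hqi.sub h ((Intg.cst he1).mul h (hpi.pow h 2))
  have T : Tri v a e u p w := ⟨hui, hpi, hwi, hfu⟩
  right
  refine ⟨u, p, w, T, hu1, ?_, ?_⟩
  · rw [TI, hu, MI_unit (inv_ne_zero hs0), MI, MI]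
    apply pair_congr _ _ _ _ (io (gz a z e) (C (z * e) * (C t1 * (X + C s))))
    rw [← map_sub, ← map_mul]
    congr 1
    rw [hpl]
    have h1 : C (z ^ 2 * e) * lin v1 v0 = C (z * e) * lin (v1 * z) (v0 * z) := by
      simp only [lin, C_mul, C_pow]
      ring
    rw [h1]
    ring
  · intro hur
    rw [hkc]
    have h1 : kum a (fun i => s⁻¹ * kv s t w2 w0 i) = 0 := by
      rw [kum_smul, hkum, mul_zero]
    refine Kgood.smul_iff (inv_ne_zero hs0) (Kgood_lin hc h1 ?_ ?_ ?_ T ?_ ?_ hur)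
    · rw [hkv]
      simp only [Matrix.cons_val_zero, mul_one]
      exact hsi
    · rw [hkv]
      change s⁻¹ * s = 1
      exact inv_mul_cancel₀ hs0
    · intro i
      rw [hkv, map_mul, map_inv₀, inv_mul_le_iff₀ hsp, mul_one]
      fin_cases i
      · change v 1 ≤ v s
        rw [map_one]
        exact hs.le
      · exact le_rfl
      · exact hts
      · change v (-(w0 + t * w2)) ≤ v s
        rw [v.map_neg]
        exact hκs
    · exact huτ
    · change v (eval (s⁻¹ * t) (derivative u)) = 1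
      have h2 : (derivative u).eval (s⁻¹ * t) = 2 * s⁻¹ * (s⁻¹ * t) + -1 := by
        rw [hux]
        simp
        ring
      have h3 : v (2 * s⁻¹ * (s⁻¹ * t)) < v (-1) := by
        rw [v.map_neg, map_one, map_mul, map_mul, hc.two, one_mul]
        exact (mul_le_of_le_one_right (v.nonneg _) hτ).trans_lt hsi
      rw [h2, v_add_eq h h3, v.map_neg, map_one]

end

end Run7.h929.G3
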