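import Pool.Agent.Run7.h929.G3.Kg

/-!
# Pairs of degree two which are zero modulo the place
-/

set_option autoImplicit false

namespace Run7.h929.G3

open Polynomial Run7.h929.G2

/-- the equation of the Kummer surface near the origin -/
def kY {R : Type*} [CommRing R] (a : Fin 5 → R) (x0 x2 y : R) : R :=
  y ^ 2 * x2 ^ 4 - 2 * x2 ^ 2 * y - 4 * x0 * x2 - 4 * a 4 * x0 * x2 ^ 2 * y -
    2 * a 3 * x0 * x2 ^ 3 * y ^ 2 - 2 * a 3 * x0 * x2 * y - 4 * a 2 * x0 * x2 ^ 2 * y ^ 2 -
    4 * a 1 * x0 * x2 * y ^ 2 - 4 * a 0 * x0 * y ^ 2 - 4 * a 2 * x0 ^ 2 * x2 * y +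
    a 3 ^ 2 * x0 ^ 2 * x2 ^ 2 * y ^ 2 - 4 * a 2 * a 4 * x0 ^ 2 * x2 ^ 2 * y ^ 2 +
    2 * a 1 * x0 ^ 2 * x2 ^ 2 * y ^ 2 - 2 * a 1 * x0 ^ 2 * y - 4 * a 1 * a 4 * x0 ^ 2 * x2 * y ^ 2 +
    4 * a 0 * x0 ^ 2 * x2 * y ^ 2 - 4 * a 0 * a 4 * x0 ^ 2 * y ^ 2 - 4 * a 0 * x0 ^ 3 * y -
    2 * a 1 * a 3 * x0 ^ 3 * x2 * y ^ 2 - 4 * a 0 * a 3 * x0 ^ 3 * y ^ 2 +
    a 1 ^ 2 * x0 ^ 4 * y ^ 2 - 4 * a 0 * a 2 * x0 ^ 4 * y ^ 2 + 1

theorem kY_eq {R : Type*} [CommRing R] (a : Fin 5 → R) (x0 x2 y y' : R) (hy : y' * y = 1) :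
    kY a x0 x2 y = y ^ 2 * kum a ![x0, 1, x2, y'] := by
  have h1 : kum a ![x0, 1, x2, y'] = x2 ^ 4 - 2 * x2 ^ 2 * y' - 4 * x0 * x2 * y' ^ 2 -
      4 * a 4 * x0 * x2 ^ 2 * y' - 2 * a 3 * x0 * x2 ^ 3 - 2 * a 3 * x0 * x2 * y' -
      4 * a 2 * x0 * x2 ^ 2 - 4 * a 1 * x0 * x2 - 4 * a 0 * x0 - 4 * a 2 * x0 ^ 2 * x2 * y' +
      a 3 ^ 2 * x0 ^ 2 * x2 ^ 2 - 4 * a 2 * a 4 * x0 ^ 2 * x2 ^ 2 + 2 * a 1 * x0 ^ 2 * x2 ^ 2 -
      2 * a 1 * x0 ^ 2 * y' - 4 * a 1 * a 4 * x0 ^ 2 * x2 + 4 * a 0 * x0 ^ 2 * x2 -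
      4 * a 0 * a 4 * x0 ^ 2 - 4 * a 0 * x0 ^ 3 * y' - 2 * a 1 * a 3 * x0 ^ 3 * x2 -
      4 * a 0 * a 3 * x0 ^ 3 + a 1 ^ 2 * x0 ^ 4 - 4 * a 0 * a 2 * x0 ^ 4 + y' ^ 2 := by
    simp [kum]
  have h2 : y ^ 2 * y' = y := by linear_combination y * hy
  have h3 : y ^ 2 * y' ^ 2 = 1 := by linear_combination (y' * y + 1) * hy
  rw [h1]
  simp only [kY]
  linear_combination (2 * x2 ^ 2 + 4 * a 4 * x0 * x2 ^ 2 + 2 * a 3 * x0 * x2 +
    4 * a 2 * x0 ^ 2 * x2 + 2 * a 1 * x0 ^ 2 + 4 * a 0 * x0 ^ 3) * h2 +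
    (4 * x0 * x2 - 1) * h3

section
variable {K : Type} [Field K] {v : AbsoluteValue K ℝ} {h : IsNonarchimedean v} {a : Fin 5 → K}
  {r z e d : K} {q : ℝ}

/-- if the first two coordinates are small, so is the third -/
theorem third_small (h : IsNonarchimedean v) (ha : ∀ i, v (a i) ≤ 1) {k : Fin 4 → K}
    (hk : kum a k = 0) (h0 : v (k 0) < 1) (h1 : v (k 1) < 1) (hmax : ∀ i, v (k i) ≤ 1) :
    v (k 2) < 1 := by
  obtain ⟨F, _, _, φ, hφ⟩ := exists_res v h
  let a' : Fin 5 → OO v h := fun i => ⟨a i, ha i⟩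
  let k' : Fin 4 → OO v h := fun i => ⟨k i, hmax i⟩
  have hkum : kum a' k' = 0 := sub_hom_kum a' k' hk
  have h3 := congrArg φ hkum
  rw [map_kum, map_zero] at h3
  have e0 : φ (k' 0) = 0 := (hφ _).2 h0
  have e1 : φ (k' 1) = 0 := (hφ _).2 h1
  rw [kum_inf _ _ e0, e1, zero_mul, zero_sub] at h3
  have h4 : φ (k' 2) = 0 := by
    have h5 := pow_eq_zero_iff (two_ne_zero) |>.1 h3
    rw [neg_eq_zero] at h5
    exact pow_eq_zero_iff (two_ne_zero) |>.1 h5
  exact (hφ _).1 h4

/-- the product with the conjugate -/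
theorem MI_norm [CharZero K] (hd : d ≠ 0) (s t v1 v0 w2 w1 w0 : K)
    (hdis : dis (co d s t v1 v0 w2 w1 w0) ≠ 0) :
    MI (rhs (co d s t v1 v0 w2 w1 w0) d) (qu s t) (C d * lin v1 v0) *
      (MI (rhs (co d s t v1 v0 w2 w1 w0) d) (qu s t) (C d * lin v1 v0)).map (cj _) =
      Ideal.span {io _ (qu s t)} := by
  rw [map_MI]
  exact MI_conj two_ne_zero (rhs_squarefree (by norm_num) hd hdis) _ _ _
    (rhs_co d s t v1 v0 w2 w1 w0)

theorem norm_io (g P : K[X]) : (io g P).norm = P ^ 2 := by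
  rw [QuadraticAlgebra.norm_def]
  simp [io]
  ring

theorem norm_yV (g V : K[X]) : (yy g - io g V).norm = V ^ 2 - g := by
  rw [QuadraticAlgebra.norm_def]
  simp [io, yy]
  ring

theorem tripC : S_tripC := by
  intro K _ _ v h q a r z e hc s t v1 v0 w2 w1 w0 ha hκ hsκ
  have hN := hc.node
  have hq := hc.disc
  have hq0 : 0 < q⁻¹ := inv_pos.2 (by linarith [hq.one_lt])
  have hq1 : q⁻¹ < 1 := inv_lt_one_of_one_lt₀ hq.one_lt
  have he0 : e ≠ 0 := e_ne hq.one_lt hc.tw
  have hr := hN.r_int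
  have hz := hc.z_ne
  have hd : z ^ 2 * e ≠ 0 := mul_ne_zero (pow_ne_zero _ hz) he0
  have hkc : kc a (z ^ 2 * e) (qu s t) (C (z ^ 2 * e) * lin v1 v0) = kv s t w2 w0 := by
    rw [ha]
    exact kc_co hd s t v1 v0 w2 w1 w0
  have hkum : kum a (kv s t w2 w0) = 0 := by
    rw [ha]
    exact kum_co _ _ _ _ _ _ _ _
  set κ := w0 + t * w2 with hκdef
  have hκ0 : κ ≠ 0 := by
    intro h0
    rw [h0, map_zero] at hκ
    norm_num at hκ
  have hκp : 0 < v κ := v.pos hκ0
  have hkv : kv s t w2 w0 = ![1, s, t, -κ] := rfl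
  -- the third coordinate
  have htκ : v t < v κ := by
    by_contra hcon
    push Not at hcon
    have ht1 : 1 < v t := hκ.trans_le hcon
    have ht0 : t ≠ 0 := by
      intro h0
      rw [h0, map_zero] at ht1
      norm_num at ht1
    have htp : 0 < v t := v.pos ht0
    have h1 : kum a (fun i => t⁻¹ * kv s t w2 w0 i) = 0 := by
      rw [kum_smul, hkum, mul_zero]
    have h2 := third_small h hN.int h1 (by
      rw [hkv]
      simp only [Matrix.cons_val_zero, mul_one, map_inv₀]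
      exact inv_lt_one_of_one_lt₀ ht1) (by
      rw [hkv]
      simp only [Matrix.cons_val_one, Matrix.cons_val_zero, map_mul, map_inv₀]
      rw [inv_mul_lt_iff₀ htp, mul_one]
      exact hsκ.trans_le hcon) (by
      intro i
      rw [hkv, map_mul, map_inv₀, inv_mul_le_iff₀ htp, mul_one]
      fin_cases i
      · change v 1 ≤ v t
        rw [map_one]
        exact ht1.le
      · exact (hsκ.trans_le hcon).le
      · exact le_rfl
      · change v (-κ) ≤ v t
        rw [v.map_neg]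
        exact hcon)
    have h3 : (t⁻¹ * kv s t w2 w0 2) = 1 := by
      rw [hkv]
      change t⁻¹ * t = 1
      exact inv_mul_cancel₀ ht0
    rw [h3, map_one] at h2
    exact lt_irrefl _ h2
  left
  constructor
  · rw [gz]
    by_cases hcase : v t ≤ max 1 (v s)
    · -- `s` and `t` are integral
      have hs1 : v s ≤ 1 := by
        by_contra hs1
        push Not at hs1
        have hs0 : s ≠ 0 := by
          intro h0
          rw [h0, map_zero] at hs1
          norm_num at hs1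
        have hsp : 0 < v s := v.pos hs0
        rw [max_eq_right hs1.le] at hcase
        let x0 : OO v h := ⟨s⁻¹, by
          change v s⁻¹ ≤ 1
          rw [map_inv₀]
          exact (inv_lt_one_of_one_lt₀ hs1).le⟩
        let x2 : OO v h := ⟨s⁻¹ * t, by
          change v (s⁻¹ * t) ≤ 1
          rw [map_mul, map_inv₀, inv_mul_le_iff₀ hsp, mul_one]
          exact hcase⟩
        let y : OO v h := ⟨s * (-κ)⁻¹, by
          change v (s * (-κ)⁻¹) ≤ 1
          rw [map_mul, map_inv₀, v.map_neg, ← div_eq_mul_inv, div_le_one hκp]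
          exact hsκ.le⟩
        let a' : Fin 5 → OO v h := fun i => ⟨a i, hN.int i⟩
        have h1 : kY a' x0 x2 y = 0 := by
          apply Subtype.ext
          change kY a s⁻¹ (s⁻¹ * t) (s * (-κ)⁻¹) = 0
          have hκn : -κ ≠ 0 := neg_ne_zero.2 hκ0
          rw [kY_eq a _ _ _ (s⁻¹ * -κ) (by field_simp)]
          have h2 : (![s⁻¹, 1, s⁻¹ * t, s⁻¹ * -κ] : Fin 4 → K) =
              fun i => s⁻¹ * kv s t w2 w0 i := by
            rw [hkv]
            funext i
            fin_cases i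
            · simp
            · change 1 = s⁻¹ * s
              rw [inv_mul_cancel₀ hs0]
            · rfl
            · rfl
          rw [h2, kum_smul, hkum, mul_zero, mul_zero]
        obtain ⟨F, _, _, φ, hφ⟩ := exists_res v h
        have h3 := congrArg φ h1
        have e0 : φ x0 = 0 := by
          rw [hφ]
          change v s⁻¹ < 1
          rw [map_inv₀]
          exact inv_lt_one_of_one_lt₀ hs1
        have e1 : φ y = 0 := by
          rw [hφ]
          change v (s * (-κ)⁻¹) < 1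
          rw [map_mul, map_inv₀, v.map_neg, ← div_eq_mul_inv, div_lt_one hκp]
          exact hsκ
        simp only [kY, map_add, map_sub, map_mul, map_pow, map_ofNat, map_one, map_zero, e0, e1,
          mul_zero, zero_mul, ne_eq, OfNat.ofNat_ne_zero, not_false_eq_true, zero_pow, sub_zero,
          zero_add, add_zero, one_ne_zero] at h3
      have ht1 : v t ≤ 1 := by
        rw [max_eq_left hs1] at hcase
        exact hcase
      have e4 : w2 = a 4 + s := by rw [ha]; simp [co]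
      have e3 : w1 = a 3 + s * w2 - t := by
        rw [ha]
        simp [co]
        ring
      have hw2 : v w2 ≤ 1 := by
        rw [e4]
        exact (h _ _).trans (max_le (hN.int 4) hs1)
      have hw1 : v w1 ≤ 1 := by
        rw [e3]
        refine (na_sub h _ _).trans (max_le ((h _ _).trans (max_le (hN.int 3) ?_)) ht1)
        rw [map_mul]
        exact mul_le_one₀ hs1 (v.nonneg _) hw2
      have hw0 : v w0 = v κ := by
        have h1 : w0 = -(t * w2) + κ := by
          rw [hκdef]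
          ring
        rw [h1]
        apply v_add_eq h
        rw [v.map_neg, map_mul]
        exact (mul_le_one₀ ht1 (v.nonneg _) hw2).trans_lt hκ
      have hw00 : w0 ≠ 0 := by
        intro h0
        rw [h0, map_zero] at hw0
        exact hκp.ne hw0
      have hw0p : 0 < v w0 := v.pos hw00
      have hw01 : 1 < v w0 := by rw [hw0]; exact hκ
      have hqi : Intg v (C w0⁻¹ * qw w2 w1 w0) := by
        have h1 : C w0⁻¹ * qw w2 w1 w0 = C w0⁻¹ * X ^ 3 + C (w0⁻¹ * w2) * X ^ 2 +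
            C (w0⁻¹ * w1) * X + C 1 := by
          rw [qw, ← inv_mul_cancel₀ hw00]
          simp only [C_mul]
          ring
        rw [h1]
        have hb : ∀ x : K, v x ≤ 1 → v (w0⁻¹ * x) ≤ 1 := by
          intro x hx
          rw [map_mul, map_inv₀, inv_mul_le_iff₀ hw0p, mul_one]
          exact hx.trans hw01.le
        refine ((((Intg.cst ?_).mul h (Intg.xx.pow h 3)).add h ((Intg.cst (hb _ hw2)).mul h
          (Intg.xx.pow h 2))).add h ((Intg.cst (hb _ hw1)).mul h Intg.xx)).add h (Intg.cst ?_)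
        · rw [map_inv₀]
          exact (inv_lt_one_of_one_lt₀ hw01).le
        · rw [map_one]
      have hqr : v ((C w0⁻¹ * qw w2 w1 w0).eval r) = 1 := by
        have h1 : (C w0⁻¹ * qw w2 w1 w0).eval r = w0⁻¹ * ((r ^ 3 + w2 * r ^ 2 + w1 * r) + w0) := by
          simp [qw]
        have h2 : v (r ^ 3 + w2 * r ^ 2 + w1 * r) ≤ 1 := by
          have h3 : Intg v (X ^ 3 + C w2 * X ^ 2 + C w1 * X : K[X]) :=
            (((Intg.xx.pow h 3)).add h ((Intg.cst hw2).mul h
              (Intg.xx.pow h 2))).add h ((Intg.cst hw1).mul h Intg.xx)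
          have h4 := h3.eval h hr
          simpa using h4
        rw [h1, map_mul, v_add_eq h (h2.trans_lt hw01), map_inv₀, inv_mul_cancel₀ hw0p.ne']
      subst ha
      have hnorm := MI_norm hd s t v1 v0 w2 w1 w0 hc.dis_ne
      have hew : -(e * w0) ≠ 0 := neg_ne_zero.2 (mul_ne_zero he0 hw00)
      refine ⟨C (-(e * w0)) * qu s t, C w0⁻¹ * qw w2 w1 w0,
        io _ (C z⁻¹) * (yy _ - io _ (C (z ^ 2 * e) * lin v1 v0)),
        mul_ne_zero (C_ne_zero.2 hew) (qu_monic s t).ne_zero, ?_,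
        Ideal.mul_mem_left _ _ (pr _ _), ?_, hqi, hqr⟩
      · rw [hnorm, span_unit hew]
      · rw [map_mul, norm_io, norm_yV]
        have h3 := rhs_co (z ^ 2 * e) s t v1 v0 w2 w1 w0
        have h4 : (C z⁻¹ ^ 2 * C (z ^ 2 * e) : K[X]) = C (-(e * w0)) * C w0⁻¹ * (-1) := by
          have h5 : (C z⁻¹ ^ 2 * C (z ^ 2 * e) : K[X]) = C e := by
            rw [← C_pow, ← C_mul]
            congr 1
            field_simp
          have h6 : (C (-(e * w0)) * C w0⁻¹ : K[X]) = -C e := by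
            rw [← C_mul, ← C_neg]
            congr 1
            field_simp
          rw [h5, h6]
          ring
        linear_combination (-(C z⁻¹ ^ 2)) * h3 - (qu s t * qw w2 w1 w0) * h4
    · -- `t` is large
      push Not at hcase
      have ht1 : 1 < v t := (le_max_left _ _).trans_lt hcase
      have hst : v s < v t := (le_max_right _ _).trans_lt hcase
      have ht0 : t ≠ 0 := by
        intro h0
        rw [h0, map_zero] at ht1
        norm_num at ht1
      have htp : 0 < v t := v.pos ht0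
      have hui : Intg v (C t⁻¹ * qu s t) := by
        have h1 : C t⁻¹ * qu s t = C t⁻¹ * X ^ 2 - C (t⁻¹ * s) * X + C 1 := by
          rw [qu, ← inv_mul_cancel₀ ht0]
          simp only [C_mul]
          ring
        rw [h1]
        refine (((Intg.cst ?_).mul h (Intg.xx.pow h 2)).sub h ((Intg.cst ?_).mul h
          Intg.xx)).add h (Intg.cst ?_)
        · rw [map_inv₀]
          exact (inv_lt_one_of_one_lt₀ ht1).le
        · rw [map_mul, map_inv₀, inv_mul_le_iff₀ htp, mul_one]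
          exact hst.le
        · rw [map_one]
      have hur : v ((C t⁻¹ * qu s t).eval r) = 1 := by
        have h1 : (C t⁻¹ * qu s t).eval r = t⁻¹ * ((r ^ 2 - s * r) + t) := by
          simp [qu]
        have h2 : v (r ^ 2 - s * r) < v t := by
          refine (na_sub h _ _).trans_lt (max_lt ?_ ?_)
          · rw [map_pow]
            exact (pow_le_one₀ (v.nonneg _) hr).trans_lt ht1
          · rw [map_mul]
            exact (mul_le_of_le_one_right (v.nonneg _) hr).trans_lt hst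
        rw [h1, map_mul, v_add_eq h h2, map_inv₀, inv_mul_cancel₀ htp.ne']
      subst ha
      have hnorm := MI_norm hd s t v1 v0 w2 w1 w0 hc.dis_ne
      refine ⟨C t⁻¹ * qu s t, C t⁻¹ * qu s t, io _ (C t⁻¹ * qu s t),
        mul_ne_zero (C_ne_zero.2 (inv_ne_zero ht0)) (qu_monic s t).ne_zero, ?_, ?_, ?_, hui, hur⟩
      · rw [hnorm, span_unit (inv_ne_zero ht0)]
      · have h1 : ∀ g : K[X], io g (C t⁻¹ * qu s t) = io g (C t⁻¹) * io g (qu s t) :=
          fun g => map_mul _ _ _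
        rw [h1]
        exact Ideal.mul_mem_left _ _ (pl _ _)
      · rw [norm_io]
        ring
  · rw [hkc]
    have h1 : kum a (fun i => κ⁻¹ * kv s t w2 w0 i) = 0 := by
      rw [kum_smul, hkum, mul_zero]
    refine Kgood.smul_iff (inv_ne_zero hκ0) (Kgood_zero h hq hN.int h1 ?_ ?_ ?_ ⟨3, ?_⟩)
    · rw [hkv]
      simp only [Matrix.cons_val_zero, mul_one, map_inv₀]
      exact inv_lt_one_of_one_lt₀ hκ
    · rw [hkv]
      simp only [Matrix.cons_val_one, Matrix.cons_val_zero, map_mul, map_inv₀]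
      rw [inv_mul_lt_iff₀ hκp, mul_one]
      exact hsκ
    · intro i
      rw [hkv, map_mul, map_inv₀, inv_mul_le_iff₀ hκp, mul_one]
      fin_cases i
      · change v 1 ≤ v κ
        rw [map_one]
        exact hκ.le
      · exact hsκ.le
      · exact htκ.le
      · change v (-κ) ≤ v κ
        rw [v.map_neg]
    · rw [hkv]
      change v (κ⁻¹ * -κ) = 1
      rw [map_mul, v.map_neg, map_inv₀, inv_mul_cancel₀ hκp.ne']

end

end Run7.h929.G3
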