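import Pool.Agent.Run7.h929.G3.TripA
import Pool.Agent.Run7.h929.G3.TripC

/-!
# Pairs of degree one and zero
-/

set_option autoImplicit false

namespace Run7.h929.G3

open Polynomial Run7.h929.G2

section
variable {K : Type} [Field K] {v : AbsoluteValue K ℝ} {h : IsNonarchimedean v} {a : Fin 5 → K}
  {r z e d : K} {q : ℝ} {u p w : K[X]}

/-- a simple zero of `u` which is a multiple zero of `f` -/
theorem lin_root {F : Type} [Field F] {φ : OO v h →+* F} (hN : Node v h a r)
    (hφ : ∀ x, φ x = 0 ↔ ww x < 1) (e' : OO v h) (p' u' w' : (OO v h)[X])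
    (hf : quin (fun i => (⟨a i, hN.int i⟩ : OO v h)) = C e' * p' ^ 2 + u' * w') (x : F)
    (hu : (u'.map φ).eval x = 0) (hu' : (derivative (u'.map φ)).eval x ≠ 0)
    (h1 : fv (fun i => φ ⟨a i, hN.int i⟩) x = 0) (h2 : fd (fun i => φ ⟨a i, hN.int i⟩) x = 0) :
    φ (u'.eval ⟨r, hN.r_int⟩) = 0 ∧ φ (w'.eval ⟨r, hN.r_int⟩) = 0 := by
  have h3 : quin (fun i => φ ⟨a i, hN.int i⟩) =
      C (φ e') * (p'.map φ) ^ 2 + u'.map φ * w'.map φ := by
    rw [← map_quin, hf]
    simp only [Polynomial.map_add, Polynomial.map_mul, Polynomial.map_pow, map_C]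
  have h4 : φ e' * (p'.map φ).eval x = 0 := by
    rw [← eval_quin, h3] at h1
    simp only [eval_add, eval_mul, eval_pow, eval_C, hu, zero_mul, add_zero] at h1
    rcases mul_eq_zero.1 h1 with h5 | h5
    · rw [h5, zero_mul]
    · rw [pow_eq_zero_iff (two_ne_zero) |>.1 h5, mul_zero]
  have h5 : (w'.map φ).eval x = 0 := by
    rw [← eval_deriv, h3] at h2
    have h6 : (derivative (C (φ e') * (p'.map φ) ^ 2 + u'.map φ * w'.map φ)).eval x =
        2 * (φ e' * (p'.map φ).eval x) * (derivative (p'.map φ)).eval x +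
        (derivative (u'.map φ)).eval x * (w'.map φ).eval x +
        (u'.map φ).eval x * (derivative (w'.map φ)).eval x := by
      simp only [derivative_add, derivative_mul, derivative_C, eval_add, eval_mul, pow_two,
        eval_C, eval_zero]
      ring
    rw [h6, hu, h4] at h2
    have h7 : (derivative (u'.map φ)).eval x * (w'.map φ).eval x = 0 := by
      rw [← h2]
      ring
    exact (mul_eq_zero.1 h7).resolve_left hu'
  exact node_root hN hφ e' p' u' w' hf x hu h5 h4

/-- the duplication of a pair with one point at infinity -/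
theorem Kgood_lin (hc : Ctx v h q a r z e) {l : Fin 4 → K} (hl : kum a l = 0)
    (hl0 : v (l 0) < 1) (hl1 : l 1 = 1) (hmax : ∀ i, v (l i) ≤ 1) (T : Tri v a e u p w)
    (hu : v (u.eval (l 2)) < 1) (hu' : v ((derivative u).eval (l 2)) = 1)
    (hur : v (u.eval r) = 1 ∨ v (w.eval r) = 1) : Kgood v q a (z ^ 2 * e) l := by
  have hN := hc.node
  have hq := hc.disc
  have hq0 : 0 < q⁻¹ := inv_pos.2 (by linarith [hq.one_lt])
  have hq1 : q⁻¹ < 1 := inv_lt_one_of_one_lt₀ hq.one_lt
  have he1 : v e ≤ 1 := by
    rcases hc.tw with h1 | h1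
    · exact h1.le
    · rw [h1]
      exact hq1.le
  let a' : Fin 5 → OO v h := fun i => ⟨a i, hN.int i⟩
  let k' : Fin 4 → OO v h := fun i => ⟨l i, hmax i⟩
  let e' : OO v h := ⟨e, he1⟩
  have hkum : kum a' k' = 0 := sub_hom_kum a' k' hl
  have hdup : ∀ i, ww (dup a' k' i) = v (dup a l i) := fun i => sub_hom_dup a' k' i
  have hk1 : k' 1 = 1 := Subtype.ext hl1
  obtain ⟨u', hu2⟩ := T.u_int.lift h
  obtain ⟨p', hp2⟩ := T.p_int.lift h
  obtain ⟨w', hw2⟩ := T.w_int.lift h
  have hf : quin a' = C e' * p' ^ 2 + u' * w' := by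
    apply map_sub_inj
    rw [map_quin]
    simp only [Polynomial.map_add, Polynomial.map_mul, Polynomial.map_pow, hu2, hp2, hw2, map_C]
    exact T.eq
  obtain ⟨x, hx, n0, n1, n2, n3⟩ := inf_near hq a' k' hkum hl0 (by rw [hk1, ww_one])
  rw [hk1, mul_one] at hx
  rw [hk1, one_pow, mul_one] at n0 n2
  rw [hk1, one_pow, mul_one] at n1
  rw [hk1, one_pow, one_mul] at n3
  obtain ⟨F, _, _, φ, hφ⟩ := exists_res v h
  have h2F : (2 : F) ≠ 0 := two_res hφ hc.two
  have h4F : (4 : F) ≠ 0 := by
    have : (4 : F) = 2 * 2 := by norm_num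
    rw [this]
    exact mul_ne_zero h2F h2F
  rw [← hφ, map_sub, sub_eq_zero] at n0 n1 n2 n3
  have hux : (u'.map φ).eval (φ x) = 0 := by
    rw [← res_eval, hφ, ww, ← eval_sub, hu2, hx]
    exact hu
  have hux' : (derivative (u'.map φ)).eval (φ x) ≠ 0 := by
    rw [derivative_map, ← res_eval, Ne, hφ, ww, ← eval_sub, ← derivative_map, hu2, hx]
    change ¬ v ((derivative u).eval (l 2)) < 1
    rw [hu']
    exact lt_irrefl _
  have hno : ¬ (fv (fun i => φ (a' i)) (φ x) = 0 ∧ fd (fun i => φ (a' i)) (φ x) = 0) := by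
    rintro ⟨y1, y2⟩
    obtain ⟨y3, y4⟩ := lin_root hN hφ e' p' u' w' hf (φ x) hux hux' y1 y2
    rw [hφ, ww, ← eval_sub, hu2] at y3
    rw [hφ, ww, ← eval_sub, hw2] at y4
    rcases hur with h3 | h3
    · change v (u.eval r) < 1 at y3
      rw [h3] at y3
      exact lt_irrefl _ y3
    · change v (w.eval r) < 1 at y4
      rw [h3] at y4
      exact lt_irrefl _ y4
  have hfv : φ (fv a' x) = fv (fun i => φ (a' i)) (φ x) := by
    simp only [fv, map_add, map_mul, map_pow]
  have hfd : φ (fd a' x) = fd (fun i => φ (a' i)) (φ x) := by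
    simp only [fd, map_add, map_mul, map_pow, map_ofNat]
  -- if the value of `f` vanishes, then the last coordinate does not
  have hlast : fv (fun i => φ (a' i)) (φ x) = 0 → ww (dup a' k' 3) = 1 := by
    intro h3
    by_contra hcon
    have h4 : φ (dup a' k' 3) = 0 := by
      rw [hφ]
      exact lt_of_le_of_ne (ww_le _) hcon
    rw [h4, map_sub, map_mul, map_mul, hfv, h3, mul_zero, zero_mul, sub_zero, map_pow] at n3
    apply hno
    refine ⟨h3, ?_⟩
    rw [← hfd]
    exact pow_eq_zero_iff (two_ne_zero) |>.1 n3.symm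
  have hex : ∃ i, v (l i) = 1 := ⟨1, by rw [hl1, map_one]⟩
  rcases hc.tw with he | he
  · apply Kgood_of hq hmax hex
    · by_contra hcon
      push Not at hcon
      have h3 : φ (dup a' k' 0) = 0 := by
        rw [hφ]
        refine lt_of_le_of_ne (ww_le _) ?_
        rw [hdup]
        exact hcon 0
      rw [h3, map_mul, map_ofNat] at n0
      have h4 := (mul_eq_zero.1 n0.symm).resolve_left h4F
      rw [hfv] at h4
      have h5 := hlast h4
      rw [hdup] at h5
      exact hcon 3 h5
    · exact not_ram he _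
  · have hE : φ e' = 0 := by
      rw [hφ]
      change v e < 1
      rw [he]
      exact hq1
    have h3 : fv (fun i => φ (a' i)) (φ x) = 0 := by
      rw [← eval_quin, ← map_quin, hf]
      simp only [Polynomial.map_add, Polynomial.map_mul, Polynomial.map_pow, map_C, eval_add,
        eval_mul, eval_pow, eval_C, hux, hE]
      ring
    apply Kgood_of hq hmax hex
    · exact ⟨3, by rw [← hdup]; exact hlast h3⟩
    · intro _ i
      rw [← hdup, ← hφ]
      fin_cases i
      · change φ (dup a' k' 0) = 0
        rw [n0, map_mul, hfv, h3, mul_zero]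
      · change φ (dup a' k' 1) = 0
        rw [n1, map_mul, hfv, h3, mul_zero]
      · change φ (dup a' k' 2) = 0
        rw [n2, map_mul, hfv, h3, mul_zero]

theorem Intg.quin (h : IsNonarchimedean v) (ha : ∀ i, v (a i) ≤ 1) : Intg v (quin a) := by
  rw [G2.quin]
  exact (((((Intg.xx.pow h 5)).add h ((Intg.cst (ha 4)).mul h (Intg.xx.pow h 4))).add h
    ((Intg.cst (ha 3)).mul h (Intg.xx.pow h 3))).add h ((Intg.cst (ha 2)).mul h
    (Intg.xx.pow h 2))).add h ((Intg.cst (ha 1)).mul h Intg.xx) |>.add h (Intg.cst (ha 0))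

theorem tripD : S_tripD := by
  intro K _ _ v h q a r z e hc
  have hN := hc.node
  have hq := hc.disc
  have he0 : e ≠ 0 := e_ne hq.one_lt hc.tw
  have hr := hN.r_int
  have hz := hc.z_ne
  have hd : z ^ 2 * e ≠ 0 := mul_ne_zero (pow_ne_zero _ hz) he0
  have hqi := Intg.quin h hN.int
  have hz0 : v (0 : K) < 1 := by
    rw [map_zero]
    exact zero_lt_one
  have h1i : Intg v (1 : K[X]) := Intg.cst (c := 1) (by rw [map_one])
  have h0i : Intg v (0 : K[X]) := by
    intro i
    rw [coeff_zero]
    exact hz0.le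
  constructor
  · right
    refine ⟨1, 0, quin a, ⟨h1i, h0i, hqi, ?_⟩, ⟨0, ?_⟩, ?_, ?_⟩
    · ring
    · simp
    · rw [TI, mul_zero]
    · intro _
      rw [kc_zero]
      apply Kgood_zero h hq hN.int
      · rw [kum_inf _ _ rfl]
        simp
      · exact hz0
      · exact hz0
      · intro i
        fin_cases i
        · exact hz0.le
        · exact hz0.le
        · exact hz0.le
        · change v 1 ≤ 1
          rw [map_one]
      · exact ⟨3, by simp⟩
  · intro x y hxy
    have hkc := kc_one a (z ^ 2 * e) x (C y)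
    have hfx : fv a x = y ^ 2 / (z ^ 2 * e) := by
      rw [hxy]
      field_simp
    by_cases hx : v x ≤ 1
    · right
      have hep : e * (y / (z * e)) ^ 2 = fv a x := by
        rw [hfx]
        field_simp
      have hT : Tri v a e (X - C x) (C (y / (z * e))) (quin a /ₘ (X - C x)) := by
        refine ⟨Intg.xx.sub h (Intg.cst hx), Intg.cst ?_, hqi.div h hx, ?_⟩
        · apply int_of_e hq hc.tw
          rw [hep, ← eval_quin]
          exact hqi.eval h hx
        · rw [← C_pow, ← C_mul, hep, ← eval_quin, add_comm]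
          exact split _ _
      refine ⟨X - C x, C (y / (z * e)), quin a /ₘ (X - C x), hT, ⟨1, ?_⟩, ?_, ?_⟩
      · simp [coeff_X]
      · rw [TI, ← C_mul]
        congr 2
        field_simp
      · intro hur
        rw [hkc]
        apply Kgood_lin hc _ hz0 rfl _ hT _ _ hur
        · rw [kum_inf _ _ rfl]
          simp
        · intro i
          fin_cases i
          · exact hz0.le
          · change v 1 ≤ 1
            rw [map_one]
          · exact hx
          · change v (x ^ 2) ≤ 1
            rw [map_pow]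
            exact pow_le_one₀ (v.nonneg _) hx
        · simp
        · simp
    · left
      push Not at hx
      have hx0 : x ≠ 0 := by
        rintro rfl
        rw [map_zero] at hx
        norm_num at hx
      have hxp : 0 < v x := v.pos hx0
      have hxc : C x⁻¹ * (X - C x : K[X]) = C x⁻¹ * X - C 1 := by
        rw [mul_sub, ← C_mul, inv_mul_cancel₀ hx0]
      constructor
      · refine ⟨C x⁻¹ * (X - C x), C x⁻¹ * (X - C x), io _ (C x⁻¹ * (X - C x)),
          mul_ne_zero (C_ne_zero.2 (inv_ne_zero hx0)) (X_sub_C_ne_zero x), ?_, ?_, ?_, ?_, ?_⟩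
        · rw [← span_unit (inv_ne_zero hx0), map_MI]
          refine MI_conj two_ne_zero (rhs_squarefree (by norm_num) hd hc.dis_ne) _ _
            (C (z ^ 2 * e) * (quin a /ₘ (X - C x))) ?_
          have h1 := split (quin a) x
          rw [eval_quin] at h1
          have h2 : (C y ^ 2 : K[X]) = C (z ^ 2 * e) * C (fv a x) := by
            rw [← C_pow, hxy, C_mul]
          rw [rhs]
          linear_combination (C (z ^ 2 * e)) * h1 - h2
        · have h1 : ∀ g : K[X], io g (C x⁻¹ * (X - C x)) = io g (C x⁻¹) * io g (X - C x) :=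
            fun g => map_mul _ _ _
          rw [h1]
          exact Ideal.mul_mem_left _ _ (pl _ _)
        · rw [norm_io]
          ring
        · rw [hxc]
          refine ((Intg.cst ?_).mul h Intg.xx).sub h (Intg.cst ?_)
          · rw [map_inv₀]
            exact (inv_lt_one_of_one_lt₀ hx).le
          · rw [map_one]
        · have h1 : (C x⁻¹ * (X - C x)).eval r = x⁻¹ * (r + -x) := by
            rw [eval_mul, eval_C, Polynomial.eval_sub, eval_X, eval_C, sub_eq_add_neg]
          rw [h1, map_mul, v_add_eq h (by rw [v.map_neg]; exact hr.trans_lt hx), v.map_neg,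
            map_inv₀, inv_mul_cancel₀ hxp.ne']
      · rw [hkc]
        have h1 : kum a (fun i => (x ^ 2)⁻¹ * (![0, 1, x, x ^ 2] : Fin 4 → K) i) = 0 := by
          rw [kum_smul, kum_inf _ _ rfl]
          simp
        have hxx : 0 < v (x ^ 2) := by
          rw [map_pow]
          positivity
        have hx1 : 1 < v (x ^ 2) := by
          rw [map_pow]
          exact one_lt_pow₀ hx (by norm_num)
        refine Kgood.smul_iff (inv_ne_zero (pow_ne_zero 2 hx0))
          (Kgood_zero h hq hN.int h1 ?_ ?_ ?_ ⟨3, ?_⟩)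
        · simp
        · change v ((x ^ 2)⁻¹ * 1) < 1
          rw [mul_one, map_inv₀]
          exact inv_lt_one_of_one_lt₀ hx1
        · intro i
          rw [map_mul, map_inv₀, inv_mul_le_iff₀ hxx, mul_one]
          fin_cases i
          · change v 0 ≤ v (x ^ 2)
            rw [map_zero]
            exact hxx.le
          · change v 1 ≤ v (x ^ 2)
            rw [map_one]
            exact hx1.le
          · change v x ≤ v (x ^ 2)
            rw [map_pow, pow_two]
            exact le_mul_of_one_le_left hxp.le hx.le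
          · exact le_rfl
        · change v ((x ^ 2)⁻¹ * x ^ 2) = 1
          rw [inv_mul_cancel₀ (pow_ne_zero 2 hx0), map_one]

end

end Run7.h929.G3
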